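import Mathlib

set_option autoImplicit false
set_option linter.unusedSectionVars false
set_option linter.style.haveILetI false

/-!
# The square-free ring `SF X R = R[t_x : x ∈ X]/(t_x^2)`

Elements are functions `Finset X → R` (the coefficient of the square-free monomial `t_T`).
-/

namespace Pool.Agent.H443R2.AB

universe u

/-- The ring `R[t_x : x ∈ X]/(t_x²)`; `cf f T` is the coefficient of `t_T`. -/
def SF (X : Type) (R : Type u) : Type u := Finset X → R

/-- coefficient of `t_T` -/
def cf {X : Type} {R : Type u} (f : SF X R) (T : Finset X) : R := f T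

/-- the element with given coefficients -/
def mkSF {X : Type} {R : Type u} (f : Finset X → R) : SF X R := f

@[simp] theorem cf_mkSF {X : Type} {R : Type u} (f : Finset X → R) (T : Finset X) :
    cf (mkSF f) T = f T := rfl

namespace SF

variable {X : Type} [DecidableEq X] {R : Type u} [CommRing R]

theorem ext {f g : SF X R} (h : ∀ T, cf f T = cf g T) : f = g := funext h

instance : AddCommGroup (SF X R) := inferInstanceAs (AddCommGroup (Finset X → R))
instance {S : Type*} [Semiring S] [Module S R] : Module S (SF X R) :=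
  inferInstanceAs (Module S (Finset X → R))

@[simp] theorem add_apply (f g : SF X R) (T : Finset X) : cf (f + g) T = cf f T + cf g T := rfl
@[simp] theorem sub_apply (f g : SF X R) (T : Finset X) : cf (f - g) T = cf f T - cf g T := rfl
@[simp] theorem neg_apply (f : SF X R) (T : Finset X) : cf (-f) T = -cf f T := rfl
@[simp] theorem zero_apply (T : Finset X) : cf (0 : SF X R) T = 0 := rfl
@[simp] theorem smul_apply {S : Type*} [Semiring S] [Module S R] (c : S) (f : SF X R) (T : Finset X) :
    cf (c • f) T = c • cf f T := rfl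

theorem sum_apply {ι : Type*} (s : Finset ι) (f : ι → SF X R) (T : Finset X) :
    cf (∑ i ∈ s, f i) T = ∑ i ∈ s, cf (f i) T := by
  classical
  induction s using Finset.induction_on with
  | empty => rfl
  | insert a s ha ih => rw [Finset.sum_insert ha, Finset.sum_insert ha, add_apply, ih]

instance : Mul (SF X R) := ⟨fun f g => mkSF fun T => ∑ A ∈ T.powerset, cf f A * cf g (T \ A)⟩
instance : One (SF X R) := ⟨mkSF fun T => if T = ∅ then 1 else 0⟩

theorem mul_apply (f g : SF X R) (T : Finset X) :
    cf (f * g) T = ∑ A ∈ T.powerset, cf f A * cf g (T \ A) := rfl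
theorem one_apply (T : Finset X) : cf (1 : SF X R) T = if T = ∅ then 1 else 0 := rfl

theorem mul_comm' (f g : SF X R) : f * g = g * f := by
  refine ext fun T => ?_
  rw [mul_apply, mul_apply]
  refine Finset.sum_nbij' (fun A => T \ A) (fun A => T \ A) ?_ ?_ ?_ ?_ ?_
  · intro A _; simp
  · intro A _; simp
  · intro A hA; simp only [Finset.mem_powerset] at hA; simp [hA]
  · intro A hA; simp only [Finset.mem_powerset] at hA; simp [hA]
  · intro A hA; simp only [Finset.mem_powerset] at hA; simp [hA, mul_comm]

theorem one_mul' (f : SF X R) : 1 * f = f := by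
  refine ext fun T => ?_
  rw [mul_apply, Finset.sum_eq_single ∅]
  · simp [one_apply]
  · intro A _ hA; simp [one_apply, hA]
  · simp

theorem mul_assoc' (f g h : SF X R) : f * g * h = f * (g * h) := by
  refine ext fun T => ?_
  simp only [mul_apply, Finset.sum_mul, Finset.mul_sum]
  rw [Finset.sum_sigma', Finset.sum_sigma']
  refine Finset.sum_nbij' (fun x => ⟨x.2, x.1 \ x.2⟩) (fun x => ⟨x.1 ∪ x.2, x.1⟩) ?_ ?_ ?_ ?_ ?_
  · rintro ⟨A, B⟩ hAB
    simp only [Finset.mem_sigma, Finset.mem_powerset] at hAB ⊢
    exact ⟨hAB.2.trans hAB.1, Finset.sdiff_subset_sdiff hAB.1 (le_refl _)⟩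
  · rintro ⟨B, C⟩ hBC
    simp only [Finset.mem_sigma, Finset.mem_powerset] at hBC ⊢
    exact ⟨Finset.union_subset hBC.1 (hBC.2.trans Finset.sdiff_subset), Finset.subset_union_left⟩
  · rintro ⟨A, B⟩ hAB
    simp only [Finset.mem_sigma, Finset.mem_powerset] at hAB ⊢
    simp [Finset.union_sdiff_of_subset hAB.2]
  · rintro ⟨B, C⟩ hBC
    simp only [Finset.mem_sigma, Finset.mem_powerset] at hBC ⊢
    have : Disjoint B C := (Finset.disjoint_sdiff).mono_right hBC.2
    simp [Finset.union_sdiff_cancel_left this]
  · rintro ⟨A, B⟩ hAB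
    simp only [Finset.mem_sigma, Finset.mem_powerset] at hAB ⊢
    rw [mul_assoc]
    congr 3
    ext z
    simp only [Finset.mem_sdiff]
    constructor
    · rintro ⟨h1, h2⟩
      exact ⟨⟨h1, fun h => h2 (hAB.2 h)⟩, fun h => h2 h.1⟩
    · rintro ⟨⟨h1, h2⟩, h3⟩
      exact ⟨h1, fun h => h3 ⟨h, h2⟩⟩

instance : CommRing (SF X R) where
  __ := (inferInstance : AddCommGroup (SF X R))
  mul := (· * ·)
  one := 1
  mul_assoc := mul_assoc'
  one_mul := one_mul'
  mul_one f := by rw [mul_comm', one_mul']
  zero_mul f := by refine ext fun T => ?_; simp [mul_apply]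
  mul_zero f := by refine ext fun T => ?_; simp [mul_apply]
  left_distrib f g h := by
    refine ext fun T => ?_; simp only [mul_apply, add_apply, mul_add, Finset.sum_add_distrib]
  right_distrib f g h := by
    refine ext fun T => ?_; simp only [mul_apply, add_apply, add_mul, Finset.sum_add_distrib]
  mul_comm := mul_comm'

instance {S : Type*} [CommSemiring S] [Algebra S R] : Algebra S (SF X R) :=
  Algebra.ofModule
    (fun c f g => by refine ext fun T => ?_; simp [mul_apply, Finset.smul_sum])
    (fun c f g => by refine ext fun T => ?_; simp [mul_apply, Finset.smul_sum])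

theorem algebraMap_apply {S : Type*} [CommSemiring S] [Algebra S R] (c : S) (T : Finset X) :
    cf (algebraMap S (SF X R) c) T = if T = ∅ then algebraMap S R c else 0 := by
  rw [Algebra.algebraMap_eq_smul_one, smul_apply, one_apply]
  split_ifs <;> simp [Algebra.algebraMap_eq_smul_one]

instance {S : Type*} [CommSemiring S] [Algebra S R] {S' : Type*} [CommSemiring S'] [Algebra S' R]
    [SMul S S'] [IsScalarTower S S' R] : IsScalarTower S S' (SF X R) :=
  ⟨fun a b f => by refine ext fun T => ?_; simp⟩

/-- The variable `t_x`. -/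
def tt (x : X) : SF X R := mkSF fun T => if T = {x} then 1 else 0

theorem tt_apply (x : X) (T : Finset X) : cf (tt x : SF X R) T = if T = {x} then 1 else 0 := rfl

theorem tt_mul_apply (x : X) (f : SF X R) (T : Finset X) :
    cf (tt x * f) T = if x ∈ T then cf f (T.erase x) else 0 := by
  rw [mul_apply]
  by_cases hx : x ∈ T
  · rw [if_pos hx, Finset.sum_eq_single {x}]
    · simp [tt_apply, Finset.sdiff_singleton_eq_erase]
    · intro A _ hA; simp [tt_apply, hA]
    · intro h; exact absurd (Finset.mem_powerset.2 (Finset.singleton_subset_iff.2 hx)) h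
  · rw [if_neg hx]
    refine Finset.sum_eq_zero fun A hA => ?_
    have : A ≠ {x} := by
      rintro rfl
      exact hx (Finset.singleton_subset_iff.1 (Finset.mem_powerset.1 hA))
    simp [tt_apply, this]

theorem tt_mul_tt (x : X) : (tt x : SF X R) * tt x = 0 := by
  refine ext fun T => ?_
  rw [tt_mul_apply, tt_apply]
  split_ifs with h h'
  · have : x ∈ T.erase x := by rw [h']; simp
    simp at this
  · rfl
  · rfl

variable [Fintype X] {F : Type u} [Field F] [Algebra F R]

/-- The linear form `L a = ∑ a(x) t_x`. -/
def L (a : X → F) : SF X R := ∑ x, a x • tt x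

theorem L_mul_apply (a : X → F) (f : SF X R) (T : Finset X) :
    cf ((L a : SF X R) * f) T = ∑ x ∈ T, a x • cf f (T.erase x) := by
  rw [L, Finset.sum_mul, sum_apply]
  simp only [smul_mul_assoc, smul_apply, tt_mul_apply]
  rw [← Finset.sum_subset (Finset.subset_univ T)]
  · exact Finset.sum_congr rfl fun x hx => by rw [if_pos hx]
  · intro x _ hx; rw [if_neg hx, smul_zero]

theorem L_add (a b : X → F) : (L (a + b) : SF X R) = L a + L b := by
  simp [L, add_smul, Finset.sum_add_distrib]

theorem L_smul (c : F) (a : X → F) : (L (c • a) : SF X R) = c • L a := by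
  simp [L, mul_smul, Finset.smul_sum]

theorem L_zero : (L (0 : X → F) : SF X R) = 0 := by
  simp [L]

theorem L_pow_char (p : ℕ) [hp : Fact p.Prime] [CharP F p] (a : X → F) : (L a : SF X R) ^ p = 0 := by
  rcases subsingleton_or_nontrivial R with h | h
  · exact ext fun T => Subsingleton.elim _ _
  haveI : Nontrivial (SF X R) := ⟨0, 1, fun h' => by
    have := congrFun (congrArg cf h') ∅
    simp [one_apply] at this⟩
  haveI : CharP (SF X R) p := charP_of_injective_algebraMap (algebraMap F (SF X R)).injective p
  rw [L, sum_pow_char]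
  refine Finset.sum_eq_zero fun x _ => ?_
  rw [smul_pow]
  have : 2 ≤ p := hp.out.two_le
  obtain ⟨k, rfl⟩ : ∃ k, p = 2 + k := ⟨p - 2, by omega⟩
  rw [pow_add (tt x : SF X R), pow_two, tt_mul_tt]
  simp

/-- Derivative in direction `x`: the coefficient of `t_x`. -/
def dd (x : X) : SF X R →ₗ[R] SF X R where
  toFun f := mkSF fun T => if x ∈ T then 0 else cf f (insert x T)
  map_add' f g := by
    refine ext fun T => ?_
    simp only [cf_mkSF, add_apply]; split_ifs <;> simp
  map_smul' c f := by
    refine ext fun T => ?_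
    simp only [cf_mkSF, smul_apply, RingHom.id_apply]; split_ifs <;> simp

theorem dd_apply (x : X) (f : SF X R) (T : Finset X) :
    cf (dd x f) T = if x ∈ T then 0 else cf f (insert x T) := rfl

theorem dd_tt (x : X) (f : SF X R) : dd x (tt x * f) + tt x * dd x f = f := by
  refine ext fun T => ?_
  rw [add_apply, dd_apply, tt_mul_apply, tt_mul_apply, dd_apply]
  by_cases h : x ∈ T
  · simp [h]
  · simp [h]

theorem dd_dd (x : X) (f : SF X R) : dd x (dd x f) = 0 := by
  refine ext fun T => ?_
  simp [dd_apply]

theorem dd_L_mul (x : X) (a : X → F) (ha : a x = 0) (f : SF X R) :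
    dd x ((L a : SF X R) * f) = L a * dd x f := by
  refine ext fun T => ?_
  rw [dd_apply, L_mul_apply, L_mul_apply]
  by_cases h : x ∈ T
  · rw [if_pos h]
    symm
    refine Finset.sum_eq_zero fun y hy => ?_
    rw [dd_apply]
    by_cases hxy : x = y
    · subst hxy; rw [ha, zero_smul]
    · rw [if_pos (Finset.mem_erase.2 ⟨hxy, h⟩), smul_zero]
  · rw [if_neg h, Finset.sum_insert h, ha, zero_smul, zero_add]
    refine Finset.sum_congr rfl fun y hy => ?_
    have hxy : x ≠ y := by rintro rfl; exact h hy
    rw [dd_apply, if_neg (fun h' => h (Finset.mem_erase.1 h').2), Finset.erase_insert_of_ne hxy]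

/-- Functoriality in the coefficient ring. -/
def map {R' : Type u} [CommRing R'] (π : R →+* R') : SF X R →+* SF X R' where
  toFun f := mkSF fun T => π (cf f T)
  map_one' := by refine ext fun T => ?_; simp only [cf_mkSF, one_apply]; split_ifs <;> simp
  map_mul' f g := by
    refine ext fun T => ?_; simp only [cf_mkSF, mul_apply, map_sum, map_mul]
  map_zero' := by refine ext fun T => ?_; simp
  map_add' f g := by refine ext fun T => ?_; simp

theorem map_apply {R' : Type u} [CommRing R'] (π : R →+* R') (f : SF X R) (T : Finset X) :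
    cf (map π f) T = π (cf f T) := rfl

theorem map_L {R' : Type u} [CommRing R'] [Algebra F R'] (π : R →ₐ[F] R') (a : X → F) :
    map (π : R →+* R') (L a : SF X R) = L a := by
  rw [L, L, map_sum]
  refine Finset.sum_congr rfl fun x _ => ?_
  refine ext fun T => ?_
  simp only [map_apply, smul_apply, tt_apply]
  split_ifs <;> simp

end SF

end Pool.Agent.H443R2.AB
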