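import Mathlib
import Pool.Agent.H443R2.AB.Ring

set_option autoImplicit false
set_option linter.unusedSectionVars false

/-!
# Koszul-Tate complexes: `Mn N n = Λ(K^n) ⊗ N` as functions on the cube `Fin n → Bool`.

`z = x + η_0 y` with `x = fs z`, `y = sn z`.
`wedge n a = ∑ a_i η_i`, `contr n b = ∑ b_i ι_i`, `DD n a b = wedge n a + contr n b`.
-/

namespace Pool.Agent.H443R2.AB

universe u

/-- `Λ(η_0,…,η_{n-1}) ⊗ N` -/
abbrev Mn (N : Type u) (n : ℕ) : Type u := (Fin n → Bool) → N

section basic

variable {N : Type u} {n : ℕ}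

/-- the part without `η_0` -/
def fs (z : Mn N (n+1)) : Mn N n := fun S => z (Fin.cons false S)
/-- the coefficient of `η_0` -/
def sn (z : Mn N (n+1)) : Mn N n := fun S => z (Fin.cons true S)
/-- `x + η_0 y` -/
def pr (x y : Mn N n) : Mn N (n+1) := fun S => if S 0 then y (Fin.tail S) else x (Fin.tail S)

@[simp] theorem fs_pr (x y : Mn N n) : fs (pr x y) = x := by
  funext S; simp [fs, pr]
@[simp] theorem sn_pr (x y : Mn N n) : sn (pr x y) = y := by
  funext S; simp [sn, pr]
@[simp] theorem pr_fs_sn (z : Mn N (n+1)) : pr (fs z) (sn z) = z := by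
  funext S
  simp only [pr, fs, sn]
  rcases h : S 0 with _ | _
  · rw [if_neg (by simp), ← h, Fin.cons_self_tail]
  · rw [if_pos rfl, ← h, Fin.cons_self_tail]

theorem ext_fs_sn {z w : Mn N (n+1)} (h1 : fs z = fs w) (h2 : sn z = sn w) : z = w := by
  rw [← pr_fs_sn z, ← pr_fs_sn w, h1, h2]

variable [AddCommGroup N]

@[simp] theorem fs_add (z w : Mn N (n+1)) : fs (z + w) = fs z + fs w := rfl
@[simp] theorem sn_add (z w : Mn N (n+1)) : sn (z + w) = sn z + sn w := rfl
@[simp] theorem fs_sub (z w : Mn N (n+1)) : fs (z - w) = fs z - fs w := rfl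
@[simp] theorem sn_sub (z w : Mn N (n+1)) : sn (z - w) = sn z - sn w := rfl
@[simp] theorem fs_neg (z : Mn N (n+1)) : fs (-z) = -fs z := rfl
@[simp] theorem sn_neg (z : Mn N (n+1)) : sn (-z) = -sn z := rfl
@[simp] theorem fs_zero : fs (0 : Mn N (n+1)) = 0 := rfl
@[simp] theorem sn_zero : sn (0 : Mn N (n+1)) = 0 := rfl

@[simp] theorem fs_smul {S : Type*} [SMul S N] (c : S) (z : Mn N (n+1)) : fs (c • z) = c • fs z := rfl
@[simp] theorem sn_smul {S : Type*} [SMul S N] (c : S) (z : Mn N (n+1)) : sn (c • z) = c • sn z := rfl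

theorem pr_add (x y x' y' : Mn N n) : pr (x + x') (y + y') = pr x y + pr x' y' :=
  ext_fs_sn (by simp) (by simp)
theorem pr_smul {S : Type*} [SMul S N] (c : S) (x y : Mn N n) : pr (c • x) (c • y) = c • pr x y :=
  ext_fs_sn (by simp) (by simp)
@[simp] theorem pr_zero : pr (0 : Mn N n) 0 = 0 := ext_fs_sn (by simp) (by simp)

end basic

section ops

variable {K : Type u} [CommRing K] {N : Type u} [AddCommGroup N] [Module K N]

/-- `∑ a_i η_i` -/
def wedge : (n : ℕ) → (Fin n → K) → Mn N n →ₗ[K] Mn N n
  | 0, _ => 0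
  | n+1, a =>
    { toFun := fun z => pr (wedge n (fun i => a i.succ) (fs z))
        (a 0 • fs z - wedge n (fun i => a i.succ) (sn z))
      map_add' := fun z w => by
        apply ext_fs_sn
        · simp
        · simp only [sn_pr, fs_add, sn_add, map_add, smul_add]; abel
      map_smul' := fun c z => by
        apply ext_fs_sn
        · simp
        · simp only [sn_pr, fs_smul, sn_smul, map_smul, RingHom.id_apply, smul_sub]
          rw [smul_comm] }

/-- `∑ b_i ι_i` -/
def contr : (n : ℕ) → (Fin n → K) → Mn N n →ₗ[K] Mn N n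
  | 0, _ => 0
  | n+1, b =>
    { toFun := fun z => pr (contr n (fun i => b i.succ) (fs z) + b 0 • sn z)
        (- contr n (fun i => b i.succ) (sn z))
      map_add' := fun z w => by
        apply ext_fs_sn
        · simp only [fs_pr, fs_add, sn_add, map_add, smul_add]; abel
        · simp only [sn_pr, sn_add, map_add]; abel
      map_smul' := fun c z => by
        apply ext_fs_sn
        · simp only [fs_pr, fs_smul, sn_smul, map_smul, RingHom.id_apply, smul_add]
          rw [smul_comm]
        · simp }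

@[simp] theorem fs_wedge (n : ℕ) (a : Fin (n+1) → K) (z : Mn N (n+1)) :
    fs (wedge (n+1) a z) = wedge n (fun i => a i.succ) (fs z) := fs_pr _ _
@[simp] theorem sn_wedge (n : ℕ) (a : Fin (n+1) → K) (z : Mn N (n+1)) :
    sn (wedge (n+1) a z) = a 0 • fs z - wedge n (fun i => a i.succ) (sn z) := sn_pr _ _
@[simp] theorem fs_contr (n : ℕ) (b : Fin (n+1) → K) (z : Mn N (n+1)) :
    fs (contr (n+1) b z) = contr n (fun i => b i.succ) (fs z) + b 0 • sn z := fs_pr _ _
@[simp] theorem sn_contr (n : ℕ) (b : Fin (n+1) → K) (z : Mn N (n+1)) :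
    sn (contr (n+1) b z) = - contr n (fun i => b i.succ) (sn z) := sn_pr _ _
@[simp] theorem wedge_0 (a : Fin 0 → K) (z : Mn N 0) : wedge 0 a z = 0 := rfl
@[simp] theorem contr_0 (a : Fin 0 → K) (z : Mn N 0) : contr 0 a z = 0 := rfl

/-- The differential `D = ∑ a_i η_i + ∑ b_i ι_i`. -/
def DD (n : ℕ) (a b : Fin n → K) : Mn N n →ₗ[K] Mn N n := wedge n a + contr n b

theorem DD_apply (n : ℕ) (a b : Fin n → K) (z : Mn N n) : DD n a b z = wedge n a z + contr n b z := rfl

theorem fs_DD (n : ℕ) (a b : Fin (n+1) → K) (z : Mn N (n+1)) :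
    fs (DD (n+1) a b z) = DD n (fun i => a i.succ) (fun i => b i.succ) (fs z) + b 0 • sn z := by
  simp only [DD_apply, fs_add, fs_wedge, fs_contr]; abel
theorem sn_DD (n : ℕ) (a b : Fin (n+1) → K) (z : Mn N (n+1)) :
    sn (DD (n+1) a b z) = a 0 • fs z - DD n (fun i => a i.succ) (fun i => b i.succ) (sn z) := by
  simp only [DD_apply, sn_add, sn_wedge, sn_contr]; abel

theorem wedge_add : ∀ (n : ℕ) (a a' : Fin n → K) (z : Mn N n),
    wedge n (fun i => a i + a' i) z = wedge n a z + wedge n a' z
  | 0, _, _, _ => by simp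
  | n+1, a, a', z => by
    apply ext_fs_sn
    · simp only [fs_wedge, fs_add]; exact wedge_add n _ _ _
    · simp only [sn_wedge, sn_add]
      rw [wedge_add n (fun i => a i.succ) (fun i => a' i.succ), add_smul]; abel

theorem wedge_smul : ∀ (n : ℕ) (c : K) (a : Fin n → K) (z : Mn N n),
    wedge n (fun i => c * a i) z = c • wedge n a z
  | 0, _, _, _ => by simp
  | n+1, c, a, z => by
    apply ext_fs_sn
    · simp only [fs_wedge, fs_smul]; exact wedge_smul n _ _ _
    · simp only [sn_wedge, sn_smul]
      rw [wedge_smul n c (fun i => a i.succ), mul_smul, smul_sub]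

theorem wedge_zero (n : ℕ) (z : Mn N n) : wedge n (fun _ => (0:K)) z = 0 := by
  have := wedge_smul n (0:K) (fun _ => 0) z
  simpa using this

theorem contr_add : ∀ (n : ℕ) (a a' : Fin n → K) (z : Mn N n),
    contr n (fun i => a i + a' i) z = contr n a z + contr n a' z
  | 0, _, _, _ => by simp
  | n+1, a, a', z => by
    apply ext_fs_sn
    · simp only [fs_contr, fs_add]
      rw [contr_add n (fun i => a i.succ) (fun i => a' i.succ), add_smul]; abel
    · simp only [sn_contr, sn_add]
      rw [contr_add n (fun i => a i.succ) (fun i => a' i.succ)]; abel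

theorem contr_smul : ∀ (n : ℕ) (c : K) (a : Fin n → K) (z : Mn N n),
    contr n (fun i => c * a i) z = c • contr n a z
  | 0, _, _, _ => by simp
  | n+1, c, a, z => by
    apply ext_fs_sn
    · simp only [fs_contr, fs_smul]
      rw [contr_smul n c (fun i => a i.succ), mul_smul, smul_add]
    · simp only [sn_contr, sn_smul]
      rw [contr_smul n c (fun i => a i.succ), smul_neg]

theorem contr_zero (n : ℕ) (z : Mn N n) : contr n (fun _ => (0:K)) z = 0 := by
  have := contr_smul n (0:K) (fun _ => 0) z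
  simpa using this

theorem wedge_anti : ∀ (n : ℕ) (a c : Fin n → K) (z : Mn N n),
    wedge n a (wedge n c z) + wedge n c (wedge n a z) = 0
  | 0, _, _, _ => by simp
  | n+1, a, c, z => by
    apply ext_fs_sn
    · simp only [fs_wedge, fs_add, fs_zero]; exact wedge_anti n _ _ _
    · simp only [sn_wedge, sn_add, sn_zero, fs_wedge, map_sub, map_smul]
      have h := wedge_anti n (fun i => a i.succ) (fun i => c i.succ) (sn z)
      have h2 : a 0 • wedge n (fun i => c i.succ) (fs z) - (c 0 • wedge n (fun i => a i.succ) (fs z)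
        - wedge n (fun i => a i.succ) (wedge n (fun i => c i.succ) (sn z))) +
        (c 0 • wedge n (fun i => a i.succ) (fs z) - (a 0 • wedge n (fun i => c i.succ) (fs z) -
        wedge n (fun i => c i.succ) (wedge n (fun i => a i.succ) (sn z)))) =
        wedge n (fun i => a i.succ) (wedge n (fun i => c i.succ) (sn z)) +
        wedge n (fun i => c i.succ) (wedge n (fun i => a i.succ) (sn z)) := by abel
      rw [h2, h]

theorem wedge_sq : ∀ (n : ℕ) (c : Fin n → K) (z : Mn N n), wedge n c (wedge n c z) = 0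
  | 0, _, _ => by simp
  | n+1, c, z => by
    apply ext_fs_sn
    · simp only [fs_wedge, fs_zero]; exact wedge_sq n _ _
    · simp only [sn_wedge, sn_zero, fs_wedge, map_sub, map_smul]
      rw [wedge_sq n]; abel

theorem contr_anti : ∀ (n : ℕ) (a c : Fin n → K) (z : Mn N n),
    contr n a (contr n c z) + contr n c (contr n a z) = 0
  | 0, _, _, _ => by simp
  | n+1, a, c, z => by
    apply ext_fs_sn
    · simp only [fs_contr, sn_contr, fs_add, fs_zero, map_add, map_smul, smul_neg]
      have h := contr_anti n (fun i => a i.succ) (fun i => c i.succ) (fs z)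
      rw [← h]; abel
    · simp only [sn_contr, sn_add, sn_zero, map_neg, neg_neg]
      exact contr_anti n _ _ _

theorem contr_sq : ∀ (n : ℕ) (c : Fin n → K) (z : Mn N n), contr n c (contr n c z) = 0
  | 0, _, _ => by simp
  | n+1, c, z => by
    apply ext_fs_sn
    · simp only [fs_contr, sn_contr, fs_zero, map_add, map_smul, smul_neg]
      rw [contr_sq n]; abel
    · simp only [sn_contr, sn_zero, map_neg, neg_neg]
      exact contr_sq n _ _

theorem wedge_contr : ∀ (n : ℕ) (a b : Fin n → K) (z : Mn N n),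
    wedge n a (contr n b z) + contr n b (wedge n a z) = (∑ i, a i * b i) • z
  | 0, _, _, _ => by simp
  | n+1, a, b, z => by
    rw [Fin.sum_univ_succ, add_smul]
    apply ext_fs_sn
    · simp only [fs_wedge, fs_add, fs_contr, sn_wedge, map_add, map_smul, smul_sub, fs_smul, smul_smul]
      rw [← wedge_contr n (fun i => a i.succ) (fun i => b i.succ) (fs z), mul_comm (b 0) (a 0)]
      abel
    · simp only [sn_wedge, sn_add, sn_contr, fs_contr, map_sub, map_smul, map_neg, sn_smul, smul_add, smul_smul]
      rw [← wedge_contr n (fun i => a i.succ) (fun i => b i.succ) (sn z)]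
      abel

/-- `D² = ∑ a_i b_i`. -/
theorem DD_DD (n : ℕ) (a b : Fin n → K) (z : Mn N n) :
    DD n a b (DD n a b z) = (∑ i, a i * b i) • z := by
  simp only [DD_apply, map_add, wedge_sq, contr_sq, zero_add, add_zero]
  rw [← wedge_contr n a b z]; abel

/-- `D W + W D = ∑ c_i b_i` for `W = wedge c`. -/
theorem DD_wedge (n : ℕ) (a b c : Fin n → K) (z : Mn N n) :
    DD n a b (wedge n c z) + wedge n c (DD n a b z) = (∑ i, c i * b i) • z := by
  simp only [DD_apply, map_add]
  rw [← wedge_contr n c b z]
  have := wedge_anti n a c z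
  rw [← add_zero (wedge n c (contr n b z) + contr n b (wedge n c z)), ← this]; abel

/-- `D U + U D = ∑ a_i c_i` for `U = contr c`. -/
theorem DD_contr (n : ℕ) (a b c : Fin n → K) (z : Mn N n) :
    DD n a b (contr n c z) + contr n c (DD n a b z) = (∑ i, a i * c i) • z := by
  simp only [DD_apply, map_add]
  rw [← wedge_contr n a c z]
  have := contr_anti n b c z
  rw [← add_zero (wedge n a (contr n c z) + contr n c (wedge n a z)), ← this]; abel

theorem DD_add_left (n : ℕ) (a a' b : Fin n → K) (z : Mn N n) :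
    DD n (fun i => a i + a' i) b z = DD n a b z + wedge n a' z := by
  simp only [DD_apply, wedge_add]; abel

theorem DD_add_right (n : ℕ) (a b b' : Fin n → K) (z : Mn N n) :
    DD n a (fun i => b i + b' i) z = DD n a b z + contr n b' z := by
  simp only [DD_apply, contr_add]; abel

/-- Move I: row `0` is added to the other rows. -/
theorem moveI (n : ℕ) (a b : Fin (n+1) → K) (c : Fin n → K) (z : Mn N (n+1)) :
    pr (fs (DD (n+1) a b z) + wedge n c (sn (DD (n+1) a b z))) (sn (DD (n+1) a b z)) =
    DD (n+1) (Fin.cons (a 0) (fun i => a i.succ + a 0 * c i))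
      (Fin.cons (b 0 - ∑ i, c i * b i.succ) (fun i => b i.succ))
      (pr (fs z + wedge n c (sn z)) (sn z)) := by
  have h := DD_wedge n (fun i => a i.succ) (fun i => b i.succ) c (sn z)
  apply ext_fs_sn
  · rw [fs_pr, fs_DD, fs_DD, sn_DD]
    simp only [fs_pr, sn_pr, Fin.cons_zero, Fin.cons_succ, map_add, map_sub, map_smul]
    rw [DD_add_left, DD_add_left, wedge_smul, wedge_smul, wedge_sq, smul_zero, add_zero, sub_smul, ← h]
    abel
  · rw [sn_pr, sn_DD, sn_DD]
    simp only [fs_pr, sn_pr, Fin.cons_zero, Fin.cons_succ, smul_add]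
    rw [DD_add_left, wedge_smul]
    abel

/-- Move II: multiples of the other rows are added to row `0`. -/
theorem moveII (n : ℕ) (a b : Fin (n+1) → K) (c : Fin n → K) (z : Mn N (n+1)) :
    pr (fs (DD (n+1) a b z)) (sn (DD (n+1) a b z) + contr n c (fs (DD (n+1) a b z))) =
    DD (n+1) (Fin.cons (a 0 + ∑ i, a i.succ * c i) (fun i => a i.succ))
      (Fin.cons (b 0) (fun i => b i.succ + -(b 0) * c i))
      (pr (fs z) (sn z + contr n c (fs z))) := by
  have h := DD_contr n (fun i => a i.succ) (fun i => b i.succ) c (fs z)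
  apply ext_fs_sn
  · rw [fs_pr, fs_DD, fs_DD]
    simp only [fs_pr, sn_pr, Fin.cons_zero, Fin.cons_succ, smul_add]
    rw [DD_add_right, contr_smul, neg_smul]
    abel
  · rw [sn_pr, sn_DD, sn_DD, fs_DD]
    simp only [fs_pr, sn_pr, Fin.cons_zero, Fin.cons_succ, map_add, map_smul]
    rw [DD_add_right, DD_add_right, contr_smul, contr_smul, contr_sq, smul_zero, add_zero, add_smul, ← h,
      neg_smul]
    abel

/-- Move B. -/
theorem moveB (n : ℕ) (a b : Fin (n+1) → K) (r : Fin n → K) (z : Mn N (n+1)) :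
    pr (fs (DD (n+1) a b z) + contr n r (sn (DD (n+1) a b z))) (sn (DD (n+1) a b z)) =
    DD (n+1) a
      (Fin.cons (b 0 - ∑ i, a i.succ * r i) (fun i => b i.succ + a 0 * r i))
      (pr (fs z + contr n r (sn z)) (sn z)) := by
  have h := DD_contr n (fun i => a i.succ) (fun i => b i.succ) r (sn z)
  apply ext_fs_sn
  · rw [fs_pr, fs_DD, fs_DD, sn_DD]
    simp only [fs_pr, sn_pr, Fin.cons_zero, Fin.cons_succ, map_add, map_sub, map_smul]
    rw [DD_add_right, DD_add_right, contr_smul, contr_smul, contr_sq, smul_zero, add_zero, sub_smul, ← h]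
    abel
  · rw [sn_pr, sn_DD, sn_DD]
    simp only [fs_pr, sn_pr, Fin.cons_zero, Fin.cons_succ, smul_add]
    rw [DD_add_right, contr_smul]
    abel

end ops

end Pool.Agent.H443R2.AB
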