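import Mathlib
import Pool.Agent.H443R2.AB.Cpx

set_option autoImplicit false
set_option linter.unusedSectionVars false

/-!
# Degrees

`R = F[β_u : u ∈ τ]`, `K = SF X R`.  The basis element `β^u η_S t_T` has degrees
`σ = |S| + 2|u|`, `t = |T| - |S| - p|u|`.
-/

namespace Pool.Agent.H443R2.AB

open MvPolynomial SF

universe u

variable {X : Type} [DecidableEq X] {F : Type u} [Field F] {τ : Type}

/-- homogeneous elements of `R` (`2|u| = σ`, `-p|u| = s`) -/
def HR (F : Type u) [Field F] (τ : Type) (p : ℕ) (σ s : ℤ) : Submodule F (MvPolynomial τ F) where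
  carrier := {r | ∀ u, coeff u r ≠ 0 → 2 * (u.degree : ℤ) = σ ∧ -((p : ℤ) * u.degree) = s}
  add_mem' := by
    intro a b ha hb u hu
    rw [coeff_add] at hu
    by_cases h : coeff u a = 0
    · exact hb u (by rw [h, zero_add] at hu; exact hu)
    · exact ha u h
  zero_mem' := by intro u hu; simp at hu
  smul_mem' := by
    intro c a ha u hu
    rw [coeff_smul] at hu
    exact ha u (fun h => hu (by rw [h, smul_zero]))

theorem mem_HR {p : ℕ} {σ s : ℤ} {r : MvPolynomial τ F} :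
    r ∈ HR F τ p σ s ↔ ∀ u, coeff u r ≠ 0 → 2 * (u.degree : ℤ) = σ ∧ -((p : ℤ) * u.degree) = s := Iff.rfl

theorem HR_of_hom {p b : ℕ} {r : MvPolynomial τ F} (h : r.IsHomogeneous b) :
    r ∈ HR F τ p (2 * b) (-((p : ℤ) * b)) := by
  intro u hu
  have : u.degree = b := by
    by_contra h'
    exact hu (h.coeff_eq_zero h')
  rw [this]; exact ⟨rfl, rfl⟩

theorem exists_of_mem_HR {p : ℕ} {σ s : ℤ} {r : MvPolynomial τ F} (h : r ∈ HR F τ p σ s) (h0 : r ≠ 0) :
    ∃ b : ℕ, 2 * (b : ℤ) = σ ∧ -((p : ℤ) * b) = s ∧ r.IsHomogeneous b := by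
  obtain ⟨u, hu⟩ := MvPolynomial.exists_coeff_ne_zero h0
  refine ⟨u.degree, (h u hu).1, (h u hu).2, ?_⟩
  intro v hv
  have h1 := (h u hu).1
  have h2 := (h v hv).1
  have : v.degree = u.degree := by omega
  rw [← this, Finsupp.degree_eq_weight_one]; rfl

theorem HR_congr {p : ℕ} {σ s σ' s' : ℤ} {r : MvPolynomial τ F} (h1 : σ = σ') (h2 : s = s')
    (h : r ∈ HR F τ p σ s) : r ∈ HR F τ p σ' s' := by subst h1; subst h2; exact h

theorem HR_mul {p : ℕ} {σ s σ' s' : ℤ} {r r' : MvPolynomial τ F} (h : r ∈ HR F τ p σ s)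
    (h' : r' ∈ HR F τ p σ' s') : r * r' ∈ HR F τ p (σ + σ') (s + s') := by
  rcases eq_or_ne r 0 with rfl | h0
  · rw [zero_mul]; exact Submodule.zero_mem _
  rcases eq_or_ne r' 0 with rfl | h0'
  · rw [mul_zero]; exact Submodule.zero_mem _
  obtain ⟨b, hb1, hb2, hb3⟩ := exists_of_mem_HR h h0
  obtain ⟨b', hb1', hb2', hb3'⟩ := exists_of_mem_HR h' h0'
  have := HR_of_hom (p := p) (hb3.mul hb3')
  rw [← hb1, ← hb2, ← hb1', ← hb2']
  exact HR_congr (by push_cast; ring) (by push_cast; ring) this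

/-- homogeneous elements of `K = SF X R` -/
def G0 (X : Type) [DecidableEq X] (F : Type u) [Field F] (τ : Type) (p : ℕ) (σ t : ℤ) :
    Submodule F (SF X (MvPolynomial τ F)) where
  carrier := {f | ∀ T : Finset X, cf f T ∈ HR F τ p σ (t - T.card)}
  add_mem' := by intro a b ha hb T; rw [SF.add_apply]; exact Submodule.add_mem _ (ha T) (hb T)
  zero_mem' := by intro T; exact Submodule.zero_mem _
  smul_mem' := by intro c a ha T; rw [SF.smul_apply]; exact Submodule.smul_mem _ _ (ha T)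

theorem mem_G0 {p : ℕ} {σ t : ℤ} {f : SF X (MvPolynomial τ F)} :
    f ∈ G0 X F τ p σ t ↔ ∀ T : Finset X, cf f T ∈ HR F τ p σ (t - T.card) := Iff.rfl

theorem G0_congr {p : ℕ} {σ s σ' s' : ℤ} {r : SF X (MvPolynomial τ F)} (h1 : σ = σ') (h2 : s = s')
    (h : r ∈ G0 X F τ p σ s) : r ∈ G0 X F τ p σ' s' := by subst h1; subst h2; exact h

/-- multiplication by `k` is homogeneous of bidegree `(i, j)` -/
def HomMul (p : ℕ) (k : SF X (MvPolynomial τ F)) (i j : ℤ) : Prop :=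
  ∀ (σ t : ℤ) (f : SF X (MvPolynomial τ F)), f ∈ G0 X F τ p σ t → k * f ∈ G0 X F τ p (σ + i) (t + j)

theorem HomMul.congr {p : ℕ} {k : SF X (MvPolynomial τ F)} {i j i' j' : ℤ} (h1 : i = i') (h2 : j = j')
    (h : HomMul p k i j) : HomMul p k i' j' := by subst h1; subst h2; exact h

theorem HomMul.mul {p : ℕ} {k k' : SF X (MvPolynomial τ F)} {i j i' j' : ℤ}
    (h : HomMul p k i j) (h' : HomMul p k' i' j') : HomMul p (k * k') (i + i') (j + j') := by
  intro σ t f hf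
  have := h _ _ _ (h' _ _ _ hf)
  rw [mul_assoc]
  exact G0_congr (by ring) (by ring) this

theorem HomMul.add {p : ℕ} {k k' : SF X (MvPolynomial τ F)} {i j : ℤ}
    (h : HomMul p k i j) (h' : HomMul p k' i j) : HomMul p (k + k') i j := by
  intro σ t f hf
  rw [add_mul]
  exact Submodule.add_mem _ (h _ _ _ hf) (h' _ _ _ hf)

theorem HomMul.neg {p : ℕ} {k : SF X (MvPolynomial τ F)} {i j : ℤ}
    (h : HomMul p k i j) : HomMul p (-k) i j := by
  intro σ t f hf
  rw [neg_mul]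
  exact Submodule.neg_mem _ (h _ _ _ hf)

theorem HomMul.zero {p : ℕ} {i j : ℤ} : HomMul p (0 : SF X (MvPolynomial τ F)) i j := by
  intro σ t f hf
  rw [zero_mul]; exact Submodule.zero_mem _

theorem HomMul.one {p : ℕ} : HomMul p (1 : SF X (MvPolynomial τ F)) 0 0 := by
  intro σ t f hf
  rw [one_mul, add_zero, add_zero]; exact hf

theorem HomMul.smul {p : ℕ} {k : SF X (MvPolynomial τ F)} {i j : ℤ} (c : F)
    (h : HomMul p k i j) : HomMul p (c • k) i j := by
  intro σ t f hf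
  rw [smul_mul_assoc]
  exact Submodule.smul_mem _ _ (h _ _ _ hf)

theorem HomMul.sum {p : ℕ} {ι : Type*} (s : Finset ι) {k : ι → SF X (MvPolynomial τ F)} {i j : ℤ}
    (h : ∀ x ∈ s, HomMul p (k x) i j) : HomMul p (∑ x ∈ s, k x) i j := by
  intro σ t f hf
  rw [Finset.sum_mul]
  exact Submodule.sum_mem _ fun x hx => h x hx _ _ _ hf

theorem HomMul.pow {p : ℕ} {k : SF X (MvPolynomial τ F)} {i j : ℤ} (h : HomMul p k i j) :
    ∀ m : ℕ, HomMul p (k ^ m) (m * i) (m * j)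
  | 0 => by simpa using HomMul.one
  | m+1 => by
    rw [pow_succ]
    have := (HomMul.pow h m).mul h
    exact this.congr (by push_cast; ring) (by push_cast; ring)

theorem homMul_smul_R {p : ℕ} {r : MvPolynomial τ F} {i j : ℤ} (hr : r ∈ HR F τ p i j)
    {k : SF X (MvPolynomial τ F)} {i' j' : ℤ} (h : HomMul p k i' j') :
    HomMul p (r • k) (i + i') (j + j') := by
  intro σ t f hf T
  rw [smul_mul_assoc, SF.smul_apply, smul_eq_mul]
  have := HR_mul hr (h _ _ _ hf T)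
  exact HR_congr (by ring) (by ring) this

theorem homMul_L [Fintype X] {p : ℕ} (a : X → F) : HomMul p (L a : SF X (MvPolynomial τ F)) 0 1 := by
  intro σ t f hf T
  rw [L_mul_apply]
  refine Submodule.sum_mem _ fun x hx => Submodule.smul_mem _ _ ?_
  have := hf (T.erase x)
  rw [Finset.card_erase_of_mem hx] at this
  have hpos : 0 < T.card := Finset.card_pos.2 ⟨x, hx⟩
  exact HR_congr (by ring) (by push_cast [Nat.cast_sub (show 1 ≤ T.card from hpos)]; ring) this

/-- number of `η`'s -/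
def cS {n : ℕ} (S : Fin n → Bool) : ℤ := ∑ i, if S i then 1 else 0

theorem cS_cons {n : ℕ} (b : Bool) (S : Fin n → Bool) :
    cS (Fin.cons b S : Fin (n+1) → Bool) = (if b then 1 else 0) + cS S := by
  rw [cS, cS, Fin.sum_univ_succ]
  simp only [Fin.cons_zero, Fin.cons_succ]

theorem cS_nonneg {n : ℕ} (S : Fin n → Bool) : 0 ≤ cS S :=
  Finset.sum_nonneg fun i _ => by split_ifs <;> simp

theorem cS_le {n : ℕ} (S : Fin n → Bool) : cS S ≤ n := by
  have : cS S ≤ ∑ i : Fin n, (1:ℤ) := Finset.sum_le_sum fun i _ => by split_ifs <;> simp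
  simpa using this

/-- homogeneous elements of `Λ ⊗ K` -/
def Gd (X : Type) [DecidableEq X] (F : Type u) [Field F] (τ : Type) (p n : ℕ) (σ t : ℤ) :
    Submodule F (Mn (SF X (MvPolynomial τ F)) n) where
  carrier := {z | ∀ S, z S ∈ G0 X F τ p (σ - cS S) (t + cS S)}
  add_mem' := by intro a b ha hb S; exact Submodule.add_mem _ (ha S) (hb S)
  zero_mem' := by intro S; exact Submodule.zero_mem _
  smul_mem' := by intro c a ha S; exact Submodule.smul_mem _ _ (ha S)

theorem mem_Gd {p n : ℕ} {σ t : ℤ} {z : Mn (SF X (MvPolynomial τ F)) n} :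
    z ∈ Gd X F τ p n σ t ↔ ∀ S, z S ∈ G0 X F τ p (σ - cS S) (t + cS S) := Iff.rfl

theorem Gd_congr {p n : ℕ} {σ s σ' s' : ℤ} {r : Mn (SF X (MvPolynomial τ F)) n} (h1 : σ = σ') (h2 : s = s')
    (h : r ∈ Gd X F τ p n σ s) : r ∈ Gd X F τ p n σ' s' := by subst h1; subst h2; exact h

theorem mem_Gd_succ {p n : ℕ} {σ t : ℤ} {z : Mn (SF X (MvPolynomial τ F)) (n+1)} :
    z ∈ Gd X F τ p (n+1) σ t ↔ fs z ∈ Gd X F τ p n σ t ∧ sn z ∈ Gd X F τ p n (σ - 1) (t + 1) := by
  constructor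
  · intro h
    refine ⟨fun S => ?_, fun S => ?_⟩
    · have := h (Fin.cons false S)
      rw [cS_cons] at this
      exact G0_congr (by simp) (by simp) this
    · have := h (Fin.cons true S)
      rw [cS_cons] at this
      exact G0_congr (by simp; ring) (by simp; ring) this
  · rintro ⟨h1, h2⟩ S
    rw [← pr_fs_sn z]
    have hS : S = Fin.cons (S 0) (Fin.tail S) := (Fin.cons_self_tail S).symm
    rcases h : S 0 with _ | _
    · have := h1 (Fin.tail S)
      rw [hS, cS_cons, h]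
      simpa [pr] using this
    · have := h2 (Fin.tail S)
      rw [hS, cS_cons, h]
      have e1 : σ - (1 + cS (Fin.tail S)) = σ - 1 - cS (Fin.tail S) := by ring
      have e2 : t + (1 + cS (Fin.tail S)) = t + 1 + cS (Fin.tail S) := by ring
      simpa [pr, e1, e2] using this

theorem Gd_smul {p : ℕ} {k : SF X (MvPolynomial τ F)} {i j : ℤ} (hk : HomMul p k i j) {n : ℕ} {σ t : ℤ}
    {z : Mn (SF X (MvPolynomial τ F)) n} (hz : z ∈ Gd X F τ p n σ t) :
    k • z ∈ Gd X F τ p n (σ + i) (t + j) := by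
  intro S
  have := hk _ _ _ (hz S)
  rw [Pi.smul_apply, smul_eq_mul]
  exact G0_congr (by ring) (by ring) this

theorem Gd_wedge {p : ℕ} {i j : ℤ} : ∀ {n : ℕ} {σ t : ℤ} {a : Fin n → SF X (MvPolynomial τ F)}
    (_ : ∀ l, HomMul p (a l) i j)
    {z : Mn (SF X (MvPolynomial τ F)) n} (_ : z ∈ Gd X F τ p n σ t),
    wedge n a z ∈ Gd X F τ p n (σ + i + 1) (t + j - 1)
  | 0, _, _, _, _, _, _ => by rw [wedge_0]; exact Submodule.zero_mem _
  | n+1, σ, t, a, ha, z, hz => by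
    rw [mem_Gd_succ] at hz ⊢
    rw [fs_wedge, sn_wedge]
    refine ⟨Gd_wedge (fun l => ha l.succ) hz.1, ?_⟩
    refine Submodule.sub_mem _ ?_ ?_
    · exact Gd_congr (by ring) (by ring) (Gd_smul (ha 0) hz.1)
    · exact Gd_congr (by ring) (by ring) (Gd_wedge (fun l => ha l.succ) hz.2)

theorem Gd_contr {p : ℕ} {i j : ℤ} : ∀ {n : ℕ} {σ t : ℤ} {a : Fin n → SF X (MvPolynomial τ F)}
    (_ : ∀ l, HomMul p (a l) i j)
    {z : Mn (SF X (MvPolynomial τ F)) n} (_ : z ∈ Gd X F τ p n σ t),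
    contr n a z ∈ Gd X F τ p n (σ + i - 1) (t + j + 1)
  | 0, _, _, _, _, _, _ => by rw [contr_0]; exact Submodule.zero_mem _
  | n+1, σ, t, a, ha, z, hz => by
    rw [mem_Gd_succ] at hz ⊢
    rw [fs_contr, sn_contr]
    refine ⟨Submodule.add_mem _ (Gd_contr (fun l => ha l.succ) hz.1) ?_, ?_⟩
    · exact Gd_congr (by ring) (by ring) (Gd_smul (ha 0) hz.2)
    · exact Submodule.neg_mem _ (Gd_congr (by ring) (by ring) (Gd_contr (fun l => ha l.succ) hz.2))

/-- the `a`-part of the data: `a_i = L(a i)` -/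
noncomputable def aK [Fintype X] (τ : Type) {n : ℕ} (a : Fin n → X → F) : Fin n → SF X (MvPolynomial τ F) :=
  fun i => L (a i)

/-- the `b`-part of the data: `b_i = β_i L(a i)^(p-1)` -/
noncomputable def bK [Fintype X] (p : ℕ) {n : ℕ} (a : Fin n → X → F) (β : Fin n → MvPolynomial τ F) :
    Fin n → SF X (MvPolynomial τ F) :=
  fun i => β i • (L (a i)) ^ (p - 1)

/-- the differential of the data `(a, β)` -/
noncomputable def DT [Fintype X] (p : ℕ) {n : ℕ} (a : Fin n → X → F) (β : Fin n → MvPolynomial τ F) :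
    Mn (SF X (MvPolynomial τ F)) n →ₗ[SF X (MvPolynomial τ F)] Mn (SF X (MvPolynomial τ F)) n :=
  DD n (aK τ a) (bK p a β)

theorem homMul_bK [Fintype X] {p : ℕ} (hp : 0 < p) {n : ℕ} {a : Fin n → X → F}
    {β : Fin n → MvPolynomial τ F} (hβ : ∀ i, β i ∈ HR F τ p 2 (-p)) (i : Fin n) :
    HomMul p (bK p a β i) 2 (-1) := by
  have := homMul_smul_R (hβ i) ((homMul_L (τ := τ) (p := p) (a i)).pow (p - 1))
  exact this.congr (by ring) (by push_cast [Nat.cast_sub (show 1 ≤ p from hp)]; ring)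

theorem Gd_DT [Fintype X] {p : ℕ} (hp : 0 < p) {n : ℕ} {a : Fin n → X → F}
    {β : Fin n → MvPolynomial τ F} (hβ : ∀ i, β i ∈ HR F τ p 2 (-p)) {σ t : ℤ}
    {z : Mn (SF X (MvPolynomial τ F)) n} (hz : z ∈ Gd X F τ p n σ t) :
    DT p a β z ∈ Gd X F τ p n (σ + 1) t := by
  rw [DT, DD_apply]
  refine Submodule.add_mem _ ?_ ?_
  · exact Gd_congr (by ring) (by ring) (Gd_wedge (fun l => homMul_L (τ := τ) (p := p) (a l)) hz)
  · exact Gd_congr (by ring) (by ring) (Gd_contr (fun l => homMul_bK hp hβ l) hz)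

theorem DT_DT [Fintype X] {p : ℕ} [hp : Fact p.Prime] [CharP F p] {n : ℕ} {a : Fin n → X → F}
    {β : Fin n → MvPolynomial τ F} (z : Mn (SF X (MvPolynomial τ F)) n) :
    DT p a β (DT p a β z) = 0 := by
  rw [DT, DD_DD, Finset.sum_eq_zero, zero_smul]
  intro i _
  rw [aK, bK, mul_smul_comm, ← pow_succ', Nat.sub_add_cancel hp.out.pos, L_pow_char, smul_zero]

/-- Exactness of the complex of `(a, β)` in degree `(σ, t)`. -/
def Ex [Fintype X] (p : ℕ) {n : ℕ} (a : Fin n → X → F) (β : Fin n → MvPolynomial τ F) (σ t : ℤ) : Prop :=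
  ∀ z ∈ Gd X F τ p n σ t, DT p a β z = 0 → ∃ u ∈ Gd X F τ p n (σ - 1) t, DT p a β u = z

end Pool.Agent.H443R2.AB
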