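import Mathlib
import Pool.Agent.H443R2.AB.Deg

set_option autoImplicit false
set_option linter.unusedSectionVars false

/-!
# The valuation condition, and reduction of the coefficient ring modulo a linear form
-/

namespace Pool.Agent.H443R2.AB

open MvPolynomial SF

universe u

variable {X : Type} [DecidableEq X] [Fintype X] {F : Type u} [Field F]

open Classical in
/-- number of columns of `a` outside the subspace `W` -/
noncomputable def cnt {n : ℕ} (a : Fin n → X → F) (W : Submodule F (Fin n → F)) : ℕ :=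
  (Finset.univ.filter (fun x : X => (fun i => a i x) ∉ W)).card

/-- `e < #{x ∉ W} + 2(p-1) dim W` for all proper subspaces `W`. -/
def Good (p : ℕ) {n : ℕ} (a : Fin n → X → F) (e : ℤ) : Prop :=
  ∀ W : Submodule F (Fin n → F), W ≠ ⊤ →
    e < (cnt a W : ℤ) + 2 * ((p : ℤ) - 1) * (Module.finrank F W : ℤ)

/-- Reduction of `R = F[τ]` modulo a nonzero linear form `y`: `R/(y) = F[τ']`. -/
structure Red (F : Type u) [Field F] (p : ℕ) (τ τ' : Type) where
  y : MvPolynomial τ F
  π : MvPolynomial τ F →ₐ[F] MvPolynomial τ' F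
  ι : MvPolynomial τ' F →ₐ[F] MvPolynomial τ F
  y_ne : y ≠ 0
  y_mem : y ∈ HR F τ p 2 (-p)
  π_y : π y = 0
  π_ι : ∀ r, π (ι r) = r
  π_mem : ∀ (σ s : ℤ) (r : MvPolynomial τ F), r ∈ HR F τ p σ s → π r ∈ HR F τ' p σ s
  ι_mem : ∀ (σ s : ℤ) (r : MvPolynomial τ' F), r ∈ HR F τ' p σ s → ι r ∈ HR F τ p σ s
  ker : ∀ (σ s : ℤ) (r : MvPolynomial τ F), r ∈ HR F τ p (σ + 2) (s - p) → π r = 0 →
    ∃ g ∈ HR F τ p σ s, r = y * g

end Pool.Agent.H443R2.AB
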