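import Mathlib
import Pool.Agent.H443R2.AB.Val

set_option autoImplicit false
set_option linter.unusedSectionVars false

namespace Pool.Agent.H443R2.AB

open MvPolynomial SF

universe u

section A1
variable {X : Type} [DecidableEq X] [Fintype X] {F : Type u} [Field F]

/-- the projection along `v` -/
def a1_P {n : ℕ} (c : Fin n → F) : (Fin (n+1) → F) →ₗ[F] (Fin n → F) :=
  LinearMap.pi fun i => (LinearMap.proj i.succ : (Fin (n+1) → F) →ₗ[F] F) + c i • LinearMap.proj 0

theorem a1_P_apply {n : ℕ} (c : Fin n → F) (x : Fin (n+1) → F) (i : Fin n) :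
    a1_P c x i = x i.succ + c i * x 0 := by
  simp [a1_P]

theorem a1_P_surj {n : ℕ} (c : Fin n → F) : Function.Surjective (a1_P c) := by
  intro y
  refine ⟨Fin.cons 0 y, ?_⟩
  funext i
  simp [a1_P_apply]

/-- the subspace `{v : ∑ vᵢ^p βᵢ = 0}` -/
def a1_S (p : ℕ) [Fact p.Prime] [CharP F p] {τ : Type} {n : ℕ}
    (β : Fin (n+1) → MvPolynomial τ F) : Submodule F (Fin (n+1) → F) where
  carrier := {v | ∑ i, (v i) ^ p • β i = 0}
  zero_mem' := by
    simp [(Fact.out : p.Prime).ne_zero]
  add_mem' := by
    intro v w hv hw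
    simp only [Set.mem_ofPred_eq, Pi.add_apply, add_pow_char, add_smul, Finset.sum_add_distrib] at *
    rw [hv, hw, add_zero]
  smul_mem' := by
    intro r v hv
    simp only [Set.mem_ofPred_eq, Pi.smul_apply, smul_eq_mul, mul_pow, mul_smul] at *
    rw [← Finset.smul_sum, hv, smul_zero]

theorem a1_exists_v [Infinite F] (p : ℕ) [Fact p.Prime] [CharP F p] {τ : Type} {n : ℕ}
    (a : Fin (n+1) → X → F) (β : Fin (n+1) → MvPolynomial τ F) (hβ : β ≠ 0) :
    ∃ v : Fin (n+1) → F, v 0 ≠ 0 ∧ ∑ i, (v i) ^ p • β i ≠ 0 ∧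
      ∀ A : Finset X, Submodule.span F ((fun x : X => fun i => a i x) '' (A : Set X)) ≠ ⊤ →
        v ∉ Submodule.span F ((fun x : X => fun i => a i x) '' (A : Set X)) := by
  classical
  let W : Finset X → Submodule F (Fin (n+1) → F) := fun A =>
    Submodule.span F ((fun x : X => fun i => a i x) '' (A : Set X))
  let s : Finset (Submodule F (Fin (n+1) → F)) :=
    insert (LinearMap.ker (LinearMap.proj 0 : (Fin (n+1) → F) →ₗ[F] F))
      (insert (a1_S p β) ((Finset.univ.filter (fun A : Finset X => W A ≠ ⊤)).image W))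
  have hs : ⊤ ∉ s := by
    intro h
    simp only [s, Finset.mem_insert, Finset.mem_image, Finset.mem_filter, Finset.mem_univ,
      true_and] at h
    rcases h with h | h | ⟨A, hA, hA'⟩
    · have : (Pi.single 0 1 : Fin (n+1) → F) ∈
          LinearMap.ker (LinearMap.proj 0 : (Fin (n+1) → F) →ₗ[F] F) := by
        rw [← h]; trivial
      simp at this
    · apply hβ
      funext i
      have : (Pi.single i 1 : Fin (n+1) → F) ∈ a1_S p β := by
        rw [← h]; trivial
      have h' : ∑ j, ((Pi.single i 1 : Fin (n+1) → F) j) ^ p • β j = 0 := this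
      rw [Finset.sum_eq_single i] at h'
      · simpa using h'
      · intro j _ hj
        simp [Pi.single_apply, hj, (Fact.out : p.Prime).ne_zero]
      · intro h; exact absurd (Finset.mem_univ _) h
    · exact hA hA'
  have hne := Subspace.biUnion_ne_univ_of_top_notMem hs
  obtain ⟨v, hv⟩ := (Set.ne_univ_iff_exists_notMem _).1 hne
  simp only [Set.mem_iUnion, not_exists] at hv
  refine ⟨v, ?_, ?_, ?_⟩
  · have := hv _ (Finset.mem_insert_self _ _)
    simpa using this
  · have := hv (a1_S p β) (Finset.mem_insert_of_mem (Finset.mem_insert_self _ _))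
    exact this
  · intro A hA
    have := hv (W A) (Finset.mem_insert_of_mem (Finset.mem_insert_of_mem
      (Finset.mem_image_of_mem _ (Finset.mem_filter.2 ⟨Finset.mem_univ _, hA⟩))))
    exact this

theorem exists_generic [Infinite F] (p : ℕ) [Fact p.Prime] [CharP F p] {τ : Type} {n : ℕ}
    (a : Fin (n+1) → X → F) (β : Fin (n+1) → MvPolynomial τ F) (hβ : β ≠ 0) :
    ∃ c : Fin n → F, β 0 - ∑ i, (c i) ^ p • β i.succ ≠ 0 ∧
      ∀ e : ℤ, Good p a e → Good p (fun i : Fin n => a i.succ + c i • a 0) e := by
  classical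
  obtain ⟨v, hv0, hvβ, hvW⟩ := a1_exists_v p a β hβ
  refine ⟨fun i => -v i.succ / v 0, ?_, ?_⟩
  · intro h
    apply hvβ
    have h2 : (v 0) ^ p • (β 0 - ∑ i : Fin n, (-v i.succ / v 0) ^ p • β i.succ) = 0 := by
      rw [h, smul_zero]
    rw [smul_sub, Finset.smul_sum] at h2
    rw [Fin.sum_univ_succ]
    have h3 : ∀ i : Fin n, (v 0) ^ p • (-v i.succ / v 0) ^ p • β i.succ
        = -((v i.succ) ^ p • β i.succ) := by
      intro i
      rw [smul_smul, ← mul_pow, mul_div_cancel₀ _ hv0, neg_pow, neg_one_pow_char, neg_one_mul,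
        neg_smul]
    rw [Finset.sum_congr rfl (fun i _ => h3 i), Finset.sum_neg_distrib, sub_neg_eq_add] at h2
    exact h2
  · intro e he W' hW'
    set c : Fin n → F := fun i => -v i.succ / v 0 with hc
    let col : X → (Fin (n+1) → F) := fun x i => a i x
    let A : Finset X := Finset.univ.filter (fun x : X => a1_P c (col x) ∈ W')
    let W₀ : Submodule F (Fin (n+1) → F) := Submodule.span F (col '' (A : Set X))
    have hle : W₀ ≤ W'.comap (a1_P c) := by
      rw [Submodule.span_le]
      rintro _ ⟨x, hx, rfl⟩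
      exact (Finset.mem_filter.1 hx).2
    have htop : W'.comap (a1_P c) ≠ ⊤ := by
      intro h
      apply hW'
      rw [eq_top_iff]
      intro y _
      obtain ⟨x, rfl⟩ := a1_P_surj c y
      have : x ∈ W'.comap (a1_P c) := by rw [h]; trivial
      exact this
    have h0 : W₀ ≠ ⊤ := fun h => htop (eq_top_iff.2 (h ▸ hle))
    have hv : v ∉ W₀ := hvW A h0
    have hker : ∀ x ∈ W₀, a1_P c x = 0 → x = 0 := by
      intro x hx hPx
      have hx' : x = (x 0 / v 0) • v := by
        funext j
        refine Fin.cases ?_ (fun i => ?_) j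
        · simp [hv0]
        · have := congrFun hPx i
          rw [a1_P_apply] at this
          simp only [hc, Pi.zero_apply] at this
          simp only [Pi.smul_apply, smul_eq_mul]
          field_simp at this ⊢
          linear_combination this
      by_cases h : x 0 = 0
      · rw [hx', h]; simp
      · exfalso
        apply hv
        have h1 : v 0 / x 0 * (x 0 / v 0) = 1 := by field_simp
        have h2 : (v 0 / x 0) • x = (v 0 / x 0) • ((x 0 / v 0) • v) := congrArg _ hx'
        rw [smul_smul, h1, one_smul] at h2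
        rw [← h2]
        exact W₀.smul_mem _ hx
    have hfr : Module.finrank F W₀ ≤ Module.finrank F W' := by
      let f : W₀ →ₗ[F] W' := ((a1_P c).comp W₀.subtype).codRestrict W'
        (fun x => hle x.2)
      refine LinearMap.finrank_le_finrank_of_injective (f := f) ?_
      rw [← LinearMap.ker_eq_bot, LinearMap.ker_eq_bot']
      intro x hx
      have : a1_P c (x : Fin (n+1) → F) = 0 := by
        have := congrArg Subtype.val hx
        simpa [f] using this
      exact Subtype.ext (hker _ x.2 this)
    have hcnt : cnt a W₀ ≤ cnt (fun i : Fin n => a i.succ + c i • a 0) W' := by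
      unfold cnt
      refine Finset.card_le_card fun x hx => ?_
      rw [Finset.mem_filter] at hx ⊢
      refine ⟨Finset.mem_univ _, fun h => hx.2 ?_⟩
      refine Submodule.subset_span ⟨x, ?_, rfl⟩
      refine Finset.mem_coe.2 (Finset.mem_filter.2 ⟨Finset.mem_univ _, ?_⟩)
      have : a1_P c (col x) = fun i : Fin n => (a i.succ + c i • a 0) x := by
        funext i
        rw [a1_P_apply]
        simp [col]
      rw [this]
      exact h
    have hg := he W₀ h0
    have hp : (1 : ℤ) ≤ p := by exact_mod_cast (Fact.out : p.Prime).one_lt.le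
    have h1 : (Module.finrank F W₀ : ℤ) ≤ Module.finrank F W' := by exact_mod_cast hfr
    have h2 : (cnt a W₀ : ℤ) ≤ cnt (fun i : Fin n => a i.succ + c i • a 0) W' := by
      exact_mod_cast hcnt
    have h3 : 2 * ((p : ℤ) - 1) * (Module.finrank F W₀ : ℤ)
        ≤ 2 * ((p : ℤ) - 1) * (Module.finrank F W' : ℤ) :=
      mul_le_mul_of_nonneg_left h1 (by linarith)
    linarith

end A1

end Pool.Agent.H443R2.AB
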