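import Mathlib
import Pool.Agent.H443R2.AB.Val

set_option autoImplicit false

/-! # Task A2: reduction modulo a linear form (helper605) -/

namespace Pool.Agent.H443R2.AB

open MvPolynomial SF

universe u

variable {F : Type u} [Field F]

open Classical in
/-- the variable `X_{f i} ↦ X_i`, the others `↦ c` -/
noncomputable def a2_img {τ τ' : Type} (f : τ' → τ) (c : MvPolynomial τ' F) (i : τ) :
    MvPolynomial τ' F :=
  if h : ∃ k, f k = i then X h.choose else c

theorem a2_img_f {τ τ' : Type} (f : τ' → τ) (hf : Function.Injective f) (c : MvPolynomial τ' F)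
    (k : τ') : a2_img f c (f k) = X k := by
  have h : ∃ k', f k' = f k := ⟨k, rfl⟩
  rw [a2_img, dif_pos h, hf h.choose_spec]

theorem a2_img_j {τ τ' : Type} (f : τ' → τ) (c : MvPolynomial τ' F)
    (j : τ) (hj : j ∉ Set.range f) : a2_img f c j = c := by
  rw [a2_img, dif_neg (show ¬ ∃ k, f k = j from hj)]

theorem a2_img_hom {τ τ' : Type} (f : τ' → τ) (c : MvPolynomial τ' F)
    (hc : c.IsHomogeneous 1) (i : τ) : (a2_img f c i).IsHomogeneous 1 := by
  rw [a2_img]
  split_ifs
  · exact isHomogeneous_X _ _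
  · exact hc

/-- the algebra map given by `a2_img` -/
noncomputable def a2_pi {τ τ' : Type} (f : τ' → τ) (c : MvPolynomial τ' F) :
    MvPolynomial τ F →ₐ[F] MvPolynomial τ' F := aeval (a2_img f c)

theorem a2_pi_f {τ τ' : Type} (f : τ' → τ) (hf : Function.Injective f) (c : MvPolynomial τ' F)
    (k : τ') : a2_pi f c (X (f k)) = X k := by
  rw [a2_pi, aeval_X, a2_img_f f hf]

theorem a2_pi_j {τ τ' : Type} (f : τ' → τ) (c : MvPolynomial τ' F)
    (j : τ) (hj : j ∉ Set.range f) : a2_pi f c (X j) = c := by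
  rw [a2_pi, aeval_X, a2_img_j f c j hj]

theorem a2_pi_rename {τ τ' : Type} (f : τ' → τ) (hf : Function.Injective f)
    (c : MvPolynomial τ' F) (r : MvPolynomial τ' F) : a2_pi f c (rename f r) = r := by
  have : (a2_pi f c).comp (rename f) = AlgHom.id F _ := by
    apply MvPolynomial.algHom_ext
    intro k
    rw [AlgHom.comp_apply, rename_X, a2_pi_f f hf, AlgHom.id_apply]
  exact DFunLike.congr_fun this r

theorem a2_pi_hom {τ τ' : Type} (f : τ' → τ) (c : MvPolynomial τ' F)
    (hc : c.IsHomogeneous 1) (r : MvPolynomial τ F) (b : ℕ) (hr : r.IsHomogeneous b) :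
    (a2_pi f c r).IsHomogeneous b := by
  have := hr.aeval (a2_img f c) (a2_img_hom f c hc)
  rwa [one_mul] at this

/-- decomposition of a linear form -/
theorem a2_lin {τ τ' : Type} (f : τ' → τ) (hf : Function.Injective f) (j : τ)
    (hj : j ∉ Set.range f) (hj' : ∀ i, i = j ∨ i ∈ Set.range f) (y : MvPolynomial τ F)
    (hy : y.IsHomogeneous 1) :
    y = C (coeff (Finsupp.single j 1) y) * X j + rename f (a2_pi f 0 y) := by
  classical
  have hy' : y ∈ homogeneousSubmodule τ F 1 := hy
  clear hy
  rw [homogeneousSubmodule_one_eq_span_X] at hy'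
  induction hy' using Submodule.span_induction with
  | mem z hz =>
    obtain ⟨i, rfl⟩ := hz
    rcases hj' i with rfl | ⟨k, rfl⟩
    · rw [a2_pi_j f 0 i hj, map_zero, add_zero, coeff_X, if_pos rfl, C_1, one_mul]
    · have h1 : coeff (Finsupp.single j 1) (X (f k) : MvPolynomial τ F) = 0 := by
        rw [coeff_X, if_neg]
        intro h2
        rw [Finsupp.single_left_inj one_ne_zero] at h2
        exact hj ⟨k, h2⟩
      rw [a2_pi_f f hf, rename_X, h1, C_0, zero_mul, zero_add]
  | zero => simp
  | add u v _ _ hu hv =>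
    have e : u + v = (C (coeff (Finsupp.single j 1) u) * X j + rename f (a2_pi f 0 u)) +
        (C (coeff (Finsupp.single j 1) v) * X j + rename f (a2_pi f 0 v)) := by
      rw [← hu, ← hv]
    rw [coeff_add, map_add (a2_pi f 0), map_add (rename f), C_add]
    nth_rewrite 1 [e]
    ring
  | smul a u _ hu =>
    have e : a • u = a • (C (coeff (Finsupp.single j 1) u) * X j + rename f (a2_pi f 0 u)) := by
      rw [← hu]
    rw [coeff_smul, map_smul (a2_pi f 0), map_smul (rename f), smul_eq_mul, C_mul]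
    nth_rewrite 1 [e]
    rw [smul_add, smul_eq_C_mul, mul_assoc]

theorem a2_dvd {τ τ' : Type} (f : τ' → τ) (hf : Function.Injective f) (j : τ)
    (hj' : ∀ i, i = j ∨ i ∈ Set.range f) (c : MvPolynomial τ' F) (y : MvPolynomial τ F)
    (hy : y ∣ X j - rename f (a2_pi f c (X j))) (r : MvPolynomial τ F) :
    y ∣ r - rename f (a2_pi f c r) := by
  induction r using MvPolynomial.induction_on with
  | C a =>
    have h1 : a2_pi f c (C a) = C a := by
      rw [a2_pi, aeval_C, algebraMap_eq]
    rw [h1, rename_C, sub_self]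
    exact dvd_zero _
  | add u v hu hv =>
    have e : u + v - rename f (a2_pi f c (u + v)) = (u - rename f (a2_pi f c u)) +
        (v - rename f (a2_pi f c v)) := by
      rw [map_add, map_add]
      ring
    rw [e]
    exact dvd_add hu hv
  | mul_X u i hu =>
    have h2 : y ∣ X i - rename f (a2_pi f c (X i)) := by
      rcases hj' i with rfl | ⟨k, rfl⟩
      · exact hy
      · rw [a2_pi_f f hf, rename_X, sub_self]
        exact dvd_zero _
    have e : u * X i - rename f (a2_pi f c (u * X i)) = (u - rename f (a2_pi f c u)) * X i +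
        rename f (a2_pi f c u) * (X i - rename f (a2_pi f c (X i))) := by
      rw [map_mul, map_mul]
      ring
    rw [e]
    exact dvd_add (Dvd.dvd.mul_right hu _) (Dvd.dvd.mul_left h2 _)

theorem a2_homog (p : ℕ) {τ : Type} (y g0 r : MvPolynomial τ F) (hy : y.IsHomogeneous 1)
    (σ s : ℤ) (hr : r ∈ HR F τ p (σ + 2) (s - p)) (h : r = y * g0) :
    ∃ g ∈ HR F τ p σ s, r = y * g := by
  rcases eq_or_ne r 0 with h0 | h0
  · exact ⟨0, Submodule.zero_mem _, by rw [h0, mul_zero]⟩
  obtain ⟨b, hb1, hb2, hb3⟩ := exists_of_mem_HR hr h0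
  refine ⟨∑ k ∈ Finset.range (g0.totalDegree + 1),
    if b = 1 + k then homogeneousComponent k g0 else 0, ?_, ?_⟩
  · refine Submodule.sum_mem _ fun k _ => ?_
    split_ifs with hk
    · have h1 := HR_of_hom (p := p) (homogeneousComponent_isHomogeneous k g0)
      refine HR_congr ?_ ?_ h1
      · rw [hk] at hb1
        push_cast at hb1
        omega
      · rw [hk] at hb2
        push_cast at hb2
        linarith
    · exact Submodule.zero_mem _
  · have h1 : homogeneousComponent b r = r := homogeneousComponent_eq_self hb3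
    rw [← h1, h, Finset.mul_sum]
    conv_lhs => rw [← sum_homogeneousComponent g0, Finset.mul_sum, map_sum]
    refine Finset.sum_congr rfl fun k _ => ?_
    have h2 : y * homogeneousComponent k g0 ∈ homogeneousSubmodule τ F (1 + k) :=
      hy.mul (homogeneousComponent_isHomogeneous k g0)
    rw [homogeneousComponent_of_mem h2]
    split_ifs
    · rfl
    · rw [mul_zero]

theorem exists_red (p : ℕ) {τ τ' : Type} (f : τ' → τ) (hf : Function.Injective f) (j : τ)
    (hj : j ∉ Set.range f) (hj' : ∀ i, i = j ∨ i ∈ Set.range f)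
    (y : MvPolynomial τ F) (hy : y ∈ HR F τ p 2 (-p)) (hc : coeff (Finsupp.single j 1) y ≠ 0) :
    ∃ r : Red F p τ τ', r.y = y ∧ (∀ i, r.π (X (f i)) = X i) ∧ (∀ i, r.ι (X i) = X (f i)) := by
  have hy0 : y ≠ 0 := by
    rintro rfl
    exact hc (coeff_zero _)
  have hy1 : y.IsHomogeneous 1 := by
    obtain ⟨b, hb1, _, hb3⟩ := exists_of_mem_HR hy hy0
    have : b = 1 := by omega
    rwa [this] at hb3
  set c := coeff (Finsupp.single j 1) y with hcdef
  set y0 := a2_pi f 0 y with hy0def
  have hy0' : y0.IsHomogeneous 1 := a2_pi_hom f 0 (isHomogeneous_zero _ _ _) y 1 hy1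
  set d : MvPolynomial τ' F := - (C c⁻¹ * y0) with hd
  have hdh : d.IsHomogeneous 1 := by
    rw [hd]
    exact (hy0'.C_mul _).neg
  have hlin := a2_lin f hf j hj hj' y hy1
  rw [← hcdef, ← hy0def] at hlin
  have hcc : (C c : MvPolynomial τ' F) * C c⁻¹ = 1 := by
    rw [← C_mul, mul_inv_cancel₀ hc, C_1]
  have hcc' : (C c⁻¹ : MvPolynomial τ F) * C c = 1 := by
    rw [← C_mul, inv_mul_cancel₀ hc, C_1]
  have hπy : a2_pi f d y = 0 := by
    rw [hlin, map_add, map_mul, a2_pi_j f d j hj, a2_pi_rename f hf]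
    have h1 : a2_pi f d (C c) = C c := by
      rw [a2_pi, aeval_C, algebraMap_eq]
    rw [h1, hd]
    linear_combination (-y0) * hcc
  have hdvd : y ∣ X j - rename f (a2_pi f d (X j)) := by
    rw [a2_pi_j f d j hj]
    refine ⟨C c⁻¹, ?_⟩
    have h1 : rename f d = -(C c⁻¹ * rename f y0) := by
      rw [hd, map_neg, map_mul, rename_C]
    rw [h1]
    nth_rewrite 1 [hlin]
    linear_combination (-X j) * hcc'
  refine ⟨{ y := y, π := a2_pi f d, ι := rename f, y_ne := hy0, y_mem := hy, π_y := hπy,
            π_ι := a2_pi_rename f hf d, π_mem := ?_, ι_mem := ?_, ker := ?_ },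
    rfl, fun i => a2_pi_f f hf d i, fun i => rename_X _ _⟩
  · intro σ s r hr
    rcases eq_or_ne r 0 with h0 | h0
    · rw [h0, map_zero]
      exact Submodule.zero_mem _
    · obtain ⟨b, hb1, hb2, hb3⟩ := exists_of_mem_HR hr h0
      rw [← hb1, ← hb2]
      exact HR_of_hom (a2_pi_hom f d hdh r b hb3)
  · intro σ s r hr
    rcases eq_or_ne r 0 with h0 | h0
    · rw [h0, map_zero]
      exact Submodule.zero_mem _
    · obtain ⟨b, hb1, hb2, hb3⟩ := exists_of_mem_HR hr h0
      rw [← hb1, ← hb2]
      exact HR_of_hom hb3.rename_isHomogeneous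
  · intro σ s r hr hπ
    have h1 := a2_dvd f hf j hj' d y hdvd r
    rw [hπ, map_zero, sub_zero] at h1
    obtain ⟨g0, hg0⟩ := h1
    exact a2_homog p y g0 r hy1 σ s hr hg0

end Pool.Agent.H443R2.AB
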