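import Mathlib
import Pool.Agent.H443R2.AB.Deg

set_option autoImplicit false
set_option linter.unusedSectionVars false

namespace Pool.Agent.H443R2.AB

open MvPolynomial SF

universe u

variable {X : Type} [DecidableEq X] [Fintype X] {F : Type u} [Field F]

theorem a3_mem {τ : Type} (p n : ℕ) (σ t : ℤ) (z : Mn (SF X (MvPolynomial τ F)) n)
    (hz : z ∈ Gd X F τ p n σ t) (S : Fin n → Bool) (T : Finset X) :
    cf (z S) T ∈ restrictTotalDegree τ F σ.toNat := by
  rw [mem_restrictTotalDegree]
  refine Finset.sup_le fun u hu => ?_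
  rw [mem_support_iff] at hu
  have h1 := (hz S T u hu).1
  have h2 := cS_nonneg S
  have h3 : (u.sum fun _ e => e) = u.degree := by
    rw [Finsupp.degree_apply]; rfl
  rw [h3]
  omega

theorem Gd_finite {τ : Type} [Finite τ] (p n : ℕ) (σ t : ℤ) :
    Module.Finite F (Gd X F τ p n σ t) := by
  let f : Gd X F τ p n σ t →ₗ[F]
      ((Fin n → Bool) → Finset X → restrictTotalDegree τ F σ.toNat) :=
    { toFun := fun z S T => ⟨cf (z.1 S) T, a3_mem p n σ t z.1 z.2 S T⟩
      map_add' := fun z w => rfl
      map_smul' := fun c z => rfl }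
  refine Module.Finite.of_injective f ?_
  intro z w h
  apply Subtype.ext
  funext S
  refine SF.ext fun T => ?_
  have h1 := congrFun (congrFun h S) T
  exact congrArg Subtype.val h1

end Pool.Agent.H443R2.AB
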