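import Mathlib

set_option autoImplicit false

/-! # Task A4: the filtration lemma (helper605) -/

namespace Pool.Agent.H443R2.AB

universe u

/-- If `D₀` (homogeneous of degree `d` for the grading given by the projections `P w`) is exact,
then so is `D₀ + N` where `N` is homogeneous of a strictly bigger degree `d + k`. -/
theorem filtration_exact {V : Type u} [AddCommGroup V] (P : ℤ → V →+ V)
    (hPP : ∀ w w' z, P w (P w' z) = if w = w' then P w' z else 0)
    (lo hi : ℤ) (hfin : ∀ z, z = ∑ w ∈ Finset.Icc lo hi, P w z)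
    (D₀ N : V →+ V) (d k : ℤ) (hk : 0 < k)
    (hD : ∀ w z, P (w + d) (D₀ z) = D₀ (P w z)) (hN : ∀ w z, P (w + d + k) (N z) = N (P w z))
    (G G' : AddSubgroup V) (hG : ∀ w, ∀ z ∈ G, P w z ∈ G) (hG' : ∀ w, ∀ z ∈ G', P w z ∈ G')
    (hDG : ∀ u ∈ G', D₀ u + N u ∈ G) (hDD : ∀ u, D₀ (D₀ u + N u) + N (D₀ u + N u) = 0)
    (hex : ∀ z ∈ G, D₀ z = 0 → ∃ u ∈ G', D₀ u = z) :
    ∀ z ∈ G, D₀ z + N z = 0 → ∃ u ∈ G', D₀ u + N u = z := by
  have claim : ∀ m : ℕ, ∀ z ∈ G, D₀ z + N z = 0 → (∀ w : ℤ, w < hi + 1 - m → P w z = 0) →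
      ∃ u ∈ G', D₀ u + N u = z := by
    intro m
    induction m with
    | zero =>
      intro z _ _ hz
      have h0 : z = 0 := by
        rw [hfin z]
        refine Finset.sum_eq_zero fun w hw => hz w ?_
        have := (Finset.mem_Icc.1 hw).2
        push_cast
        omega
      exact ⟨0, G'.zero_mem, by rw [map_zero, map_zero, add_zero, h0]⟩
    | succ m ih =>
      intro z hzG hz0 hz
      set w0 : ℤ := hi - m with hw0
      have hz' : ∀ w : ℤ, w < w0 → P w z = 0 := by
        intro w hw
        apply hz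
        push_cast
        omega
      have e1 : D₀ (P w0 z) = 0 := by
        have h1 : D₀ z = -N z := eq_neg_of_add_eq_zero_left hz0
        have h2 := hN (w0 - k) z
        rw [hz' (w0 - k) (by omega), map_zero,
          show w0 - k + d + k = w0 + d by ring] at h2
        rw [← hD, h1, map_neg, h2, neg_zero]
      obtain ⟨u0, hu0, hu0'⟩ := hex _ (hG w0 z hzG) e1
      have e2 : D₀ (P (w0 - d) u0) = P w0 z := by
        rw [← hD, sub_add_cancel, hu0', hPP, if_pos rfl]
      have e3 : ∀ w : ℤ, w ≤ w0 → P w (N (P (w0 - d) u0)) = 0 := by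
        intro w hw
        have h2 := hN (w - d - k) (P (w0 - d) u0)
        rw [show w - d - k + d + k = w by ring, hPP, if_neg (by omega), map_zero] at h2
        exact h2
      have huG := hG' (w0 - d) u0 hu0
      set u := P (w0 - d) u0 with hu
      obtain ⟨v, hv, hv'⟩ := ih (z - (D₀ u + N u)) (G.sub_mem hzG (hDG u huG))
        (by
          rw [map_sub, map_sub]
          have h3 := hDD u
          have : D₀ z - D₀ (D₀ u + N u) + (N z - N (D₀ u + N u)) =
              (D₀ z + N z) - (D₀ (D₀ u + N u) + N (D₀ u + N u)) := by abel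
          rw [this, hz0, h3, sub_zero])
        (by
          intro w hw
          have hw' : w ≤ w0 := by omega
          rw [map_sub, map_add, e2, e3 w hw', add_zero, hPP]
          by_cases h4 : w = w0
          · rw [if_pos h4, h4, sub_self]
          · rw [if_neg h4, hz' w (by omega), sub_zero])
      refine ⟨u + v, G'.add_mem huG hv, ?_⟩
      rw [map_add, map_add]
      have : D₀ u + D₀ v + (N u + N v) = (D₀ u + N u) + (D₀ v + N v) := by abel
      rw [this, hv', add_sub_cancel]
  intro z hzG hz0
  refine claim (hi + 1 - lo).toNat z hzG hz0 ?_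
  intro w hw
  have hw' : w < lo ∨ hi < w := by
    rcases le_or_gt lo (hi + 1) with h | h
    · left
      rw [Int.toNat_of_nonneg (by omega)] at hw
      omega
    · by_cases h5 : w < lo
      · exact Or.inl h5
      · exact Or.inr (by omega)
  rw [hfin z, map_sum]
  refine Finset.sum_eq_zero fun w' hw'' => ?_
  have h6 := Finset.mem_Icc.1 hw''
  rw [hPP, if_neg (by omega)]

end Pool.Agent.H443R2.AB
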