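import Mathlib
import Pool.Agent.H443R2.AB.Ring

set_option autoImplicit false
set_option linter.unusedSectionVars false

/-!
# Task A5: from a nonzero coefficient to subset sums (Combinatorial Nullstellensatz)
(helper354)
-/

namespace Pool.Agent.H443R2.AB

open SF MvPolynomial

section A5

/-- all monomials of degree at least `d` have coefficient `0`. -/
private def a5_Q {X F : Type} [Field F] (d : ℕ) (f : MvPolynomial X F) : Prop :=
  ∀ m : X →₀ ℕ, d ≤ m.degree → coeff m f = 0

private theorem a5_Q_add {X F : Type} [Field F] {d : ℕ} {f g : MvPolynomial X F}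
    (hf : a5_Q d f) (hg : a5_Q d g) : a5_Q d (f + g) := by
  intro m hm
  rw [coeff_add, hf m hm, hg m hm, add_zero]

private theorem a5_Q_mul {X F : Type} [Field F] {a b : ℕ} {f g : MvPolynomial X F}
    (hf : a5_Q (a + 1) f) (hg : a5_Q b g) : a5_Q (a + b) (f * g) := by
  classical
  intro m hm
  rw [coeff_mul]
  refine Finset.sum_eq_zero fun x hx => ?_
  rw [Finset.HasAntidiagonal.mem_antidiagonal] at hx
  have hd : x.1.degree + x.2.degree = m.degree := by rw [← hx, map_add]
  by_cases h : b ≤ x.2.degree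
  · rw [hg _ h, mul_zero]
  · rw [hf _ (by omega), zero_mul]

private theorem a5_Q_mono {X F : Type} [Field F] {a b : ℕ} (hab : a ≤ b) {f : MvPolynomial X F}
    (hf : a5_Q a f) : a5_Q b f := fun m hm => hf m (hab.trans hm)

private theorem a5_Q_C {X F : Type} [Field F] (c : F) : a5_Q 1 (C c : MvPolynomial X F) := by
  classical
  intro m hm
  rw [coeff_C, if_neg]
  rintro rfl
  simp at hm

private theorem a5_Q_hom {X F : Type} [Field F] {d : ℕ} {f : MvPolynomial X F}
    (hf : f.IsHomogeneous d) : a5_Q (d + 1) f := by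
  intro m hm
  exact hf.coeff_eq_zero (by omega)

private theorem a5_Q_pow {X F : Type} [Field F] {f : MvPolynomial X F} (hf : a5_Q 2 f) (n : ℕ) :
    a5_Q (n + 1) (f ^ n) := by
  induction n with
  | zero => rw [pow_zero, ← C_1]; exact a5_Q_C 1
  | succ n ih =>
    rw [pow_succ']
    have := a5_Q_mul (a := 1) (b := n + 1) hf ih
    exact a5_Q_mono (by omega) this

private theorem a5_Q_sum {X F ι : Type} [Field F] {d : ℕ} (s : Finset ι)
    (f : ι → MvPolynomial X F) (hf : ∀ i ∈ s, a5_Q d (f i)) : a5_Q d (∑ i ∈ s, f i) := by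
  intro m hm
  rw [coeff_sum]
  exact Finset.sum_eq_zero fun i hi => hf i hi m hm

/-- powers of a shifted linear form. -/
private theorem a5_Q_diff {X F : Type} [Field F] {f : MvPolynomial X F} (hf : a5_Q 2 f) (c : F)
    (n : ℕ) : a5_Q n ((f - C c) ^ n - f ^ n) := by
  have hg : a5_Q 2 (f - C c) := by
    rw [sub_eq_add_neg, ← map_neg]
    exact a5_Q_add hf (a5_Q_mono (by omega) (a5_Q_C _))
  induction n with
  | zero =>
    intro m _
    simp
  | succ n ih =>
    have e : (f - C c) ^ (n + 1) - f ^ (n + 1) =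
        f * ((f - C c) ^ n - f ^ n) + C (-c) * (f - C c) ^ n := by
      rw [map_neg]
      ring
    rw [e]
    refine a5_Q_add ?_ ?_
    · have := a5_Q_mul (a := 1) (b := n) hf ih
      exact a5_Q_mono (by omega) this
    · have := a5_Q_mul (a := 0) (b := n + 1) (a5_Q_C (-c)) (a5_Q_pow hg n)
      exact a5_Q_mono (by omega) this

private theorem a5_Q_prod {X F : Type} [Field F] {d : ℕ} {n : ℕ} (s : Finset (Fin n))
    (f h : Fin n → MvPolynomial X F) (hf : ∀ i, a5_Q (d + 1) (f i)) (hh : ∀ i, a5_Q (d + 1) (h i))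
    (hd : ∀ i, a5_Q d (f i - h i)) :
    a5_Q (d * s.card + 1) (∏ i ∈ s, f i) ∧ a5_Q (d * s.card + 1) (∏ i ∈ s, h i) ∧
      a5_Q (d * s.card) (∏ i ∈ s, f i - ∏ i ∈ s, h i) := by
  induction s using Finset.induction_on with
  | empty =>
    refine ⟨?_, ?_, ?_⟩
    · rw [Finset.prod_empty, ← C_1]; exact a5_Q_mono (by omega) (a5_Q_C 1)
    · rw [Finset.prod_empty, ← C_1]; exact a5_Q_mono (by omega) (a5_Q_C 1)
    · intro m _
      simp
  | insert i s hi ih =>
    obtain ⟨h1, h2, h3⟩ := ih
    rw [Finset.prod_insert hi, Finset.prod_insert hi, Finset.card_insert_of_notMem hi]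
    refine ⟨?_, ?_, ?_⟩
    · exact a5_Q_mono (by ring_nf; omega) (a5_Q_mul (hf i) h1)
    · exact a5_Q_mono (by ring_nf; omega) (a5_Q_mul (hh i) h2)
    · have e : f i * ∏ i ∈ s, f i - h i * ∏ i ∈ s, h i =
          f i * (∏ i ∈ s, f i - ∏ i ∈ s, h i) + (∏ i ∈ s, h i) * (f i - h i) := by ring
      rw [e]
      refine a5_Q_add ?_ ?_
      · exact a5_Q_mono (by ring_nf; omega) (a5_Q_mul (hf i) h3)
      · exact a5_Q_mono (by ring_nf; omega) (a5_Q_mul h2 (hd i))

/-- the indicator exponent of a set. -/
private noncomputable def a5_ind {X : Type} [DecidableEq X] [Fintype X] (T : Finset X) :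
    X →₀ ℕ := Finsupp.equivFunOnFinite.symm (fun x => if x ∈ T then 1 else 0)

private theorem a5_ind_apply {X : Type} [DecidableEq X] [Fintype X] (T : Finset X) (x : X) :
    a5_ind T x = if x ∈ T then 1 else 0 := rfl

private theorem a5_ind_degree {X : Type} [DecidableEq X] [Fintype X] (T : Finset X) :
    (a5_ind T).degree = T.card := by
  rw [Finsupp.degree_eq_sum]
  simp [a5_ind_apply]

/-- the coefficient of `t_T` of the image of a polynomial. -/
private theorem a5_cf {X F : Type} [Field F] [DecidableEq X] [Fintype X] (f : MvPolynomial X F)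
    (T : Finset X) :
    cf (aeval (fun x => (tt x : SF X F)) f) T = coeff (a5_ind T) f := by
  induction f using MvPolynomial.induction_on generalizing T with
  | C c =>
    rw [aeval_C, SF.algebraMap_apply, coeff_C]
    by_cases hT : T = ∅
    · subst hT
      rw [if_pos rfl, if_pos]
      · rfl
      · ext x
        simp [a5_ind_apply]
    · rw [if_neg hT, if_neg]
      intro h
      apply hT
      rw [Finset.eq_empty_iff_forall_notMem]
      intro x hx
      have := DFunLike.congr_fun h x
      rw [a5_ind_apply, if_pos hx] at this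
      simp at this
  | add f g hf hg =>
    rw [map_add, SF.add_apply, hf, hg, coeff_add]
  | mul_X f x hf =>
    rw [map_mul, aeval_X, mul_comm, tt_mul_apply, coeff_mul_X']
    have : x ∈ (a5_ind T).support ↔ x ∈ T := by
      rw [Finsupp.mem_support_iff, a5_ind_apply]
      split_ifs with h <;> simp [h]
    by_cases hx : x ∈ T
    · rw [if_pos hx, if_pos (this.2 hx), hf]
      congr 1
      ext y
      rw [Finsupp.tsub_apply, a5_ind_apply, a5_ind_apply, Finsupp.single_apply]
      by_cases hy : y = x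
      · subst hy
        simp [hx]
      · simp [hy, Ne.symm hy]
    · rw [if_neg hx, if_neg (fun h => hx (this.1 h))]

theorem subset_sums_of_coeff (p : ℕ) [Fact p.Prime] {X : Type} [DecidableEq X] [Fintype X] {n : ℕ}
    (a : Fin n → X → ZMod p) (T : Finset X)
    (hT : cf (∏ i, (L (a i) : SF X (ZMod p)) ^ (p - 1)) T ≠ 0) (v : Fin n → ZMod p) :
    ∃ S ⊆ T, ∀ i, ∑ x ∈ S, a i x = v i := by
  -- the linear forms
  let ℓ : Fin n → MvPolynomial X (ZMod p) := fun i => ∑ x, C (a i x) * MvPolynomial.X x
  have hℓ : ∀ i, aeval (fun x => (tt x : SF X (ZMod p))) (ℓ i) = L (a i) := by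
    intro i
    simp only [ℓ, map_sum, map_mul, aeval_C, aeval_X, L]
    refine Finset.sum_congr rfl fun x _ => ?_
    rw [Algebra.smul_def]
  have hℓh : ∀ i, (ℓ i).IsHomogeneous 1 := by
    intro i
    refine IsHomogeneous.sum _ _ _ fun x _ => ?_
    have := (isHomogeneous_C X (a i x)).mul (isHomogeneous_X (ZMod p) x)
    simpa using this
  have hℓQ : ∀ i, a5_Q 2 (ℓ i) := fun i => a5_Q_hom (hℓh i)
  let h : Fin n → MvPolynomial X (ZMod p) := fun i => -(ℓ i) ^ (p - 1)
  let f : Fin n → MvPolynomial X (ZMod p) := fun i => 1 - (ℓ i - C (v i)) ^ (p - 1)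
  have hp2 : 2 ≤ p := (Fact.out : p.Prime).two_le
  have hd : ∀ i, a5_Q (p - 1) (f i - h i) := by
    intro i
    have e : f i - h i = C 1 + C (-1) * ((ℓ i - C (v i)) ^ (p - 1) - (ℓ i) ^ (p - 1)) := by
      simp only [f, h, map_neg, C_1]
      ring
    rw [e]
    refine a5_Q_add (a5_Q_mono (by omega) (a5_Q_C _)) ?_
    have := a5_Q_mul (a := 0) (a5_Q_C (X := X) (-1 : ZMod p)) (a5_Q_diff (hℓQ i) (v i) (p - 1))
    exact a5_Q_mono (by omega) this
  have hhQ : ∀ i, a5_Q (p - 1 + 1) (h i) := by
    intro i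
    have := a5_Q_pow (hℓQ i) (p - 1)
    intro m hm
    simp only [h]
    rw [coeff_neg, this m hm, neg_zero]
  have hfQ : ∀ i, a5_Q (p - 1 + 1) (f i) := by
    intro i
    have := a5_Q_add (a5_Q_mono (Nat.le_succ _) (hd i)) (hhQ i)
    simpa using this
  obtain ⟨q1, q2, q3⟩ := a5_Q_prod Finset.univ f h hfQ hhQ hd
  rw [Finset.card_univ, Fintype.card_fin] at q1 q2 q3
  -- the coefficient
  have hcoef : coeff (a5_ind T) (∏ i, (ℓ i) ^ (p - 1)) ≠ 0 := by
    rw [← a5_cf]
    simpa only [map_prod, map_pow, hℓ] using hT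
  have hcard : T.card = (p - 1) * n := by
    by_contra hne
    apply hcoef
    have hh : (∏ i, (ℓ i) ^ (p - 1)).IsHomogeneous (∑ _i : Fin n, 1 * (p - 1)) :=
      IsHomogeneous.prod _ _ _ fun i _ => (hℓh i).pow (p - 1)
    refine hh.coeff_eq_zero ?_
    rw [a5_ind_degree]
    simp only [one_mul, Finset.sum_const, Finset.card_univ, Fintype.card_fin, smul_eq_mul]
    rw [mul_comm]
    exact hne
  have hne : coeff (a5_ind T) (∏ i, f i) ≠ 0 := by
    have e1 := q3 (a5_ind T) (by rw [a5_ind_degree, hcard])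
    rw [coeff_sub, sub_eq_zero] at e1
    rw [e1]
    have e2 : ∏ i, h i = C ((-1) ^ n) * ∏ i, (ℓ i) ^ (p - 1) := by
      simp only [h]
      rw [Finset.prod_neg, Finset.card_univ, Fintype.card_fin]
      simp
    rw [e2, coeff_C_mul]
    exact mul_ne_zero (pow_ne_zero _ (by simp)) hcoef
  have htot : (∏ i, f i).totalDegree = (a5_ind T).degree := by
    apply le_antisymm
    · unfold totalDegree
      refine Finset.sup_le fun m hm => ?_
      rw [mem_support_iff] at hm
      by_contra hlt
      apply hm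
      apply q1
      rw [a5_ind_degree, hcard] at hlt
      have : m.degree = m.sum fun _ e => e := rfl
      omega
    · exact le_totalDegree (mem_support_iff.2 hne)
  obtain ⟨s, hs, hev⟩ := combinatorial_nullstellensatz_exists_eval_nonzero (∏ i, f i) (a5_ind T)
    hne htot (fun x => if x ∈ T then {0, 1} else {0}) (by
      intro x
      rw [a5_ind_apply]
      by_cases hx : x ∈ T
      · simp [hx]
      · simp [hx])
  refine ⟨T.filter (fun x => s x = 1), Finset.filter_subset _ _, fun i => ?_⟩
  rw [map_prod, Finset.prod_ne_zero_iff] at hev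
  have hi := hev i (Finset.mem_univ i)
  simp only [f, map_sub, map_one, map_pow, eval_C] at hi
  have hval : eval s (ℓ i) = ∑ x ∈ T.filter (fun x => s x = 1), a i x := by
    simp only [ℓ, map_sum, map_mul, eval_C, eval_X]
    rw [Finset.sum_filter, ← Finset.sum_subset (Finset.subset_univ T)]
    · refine Finset.sum_congr rfl fun x hx => ?_
      have := hs x
      rw [if_pos hx] at this
      simp only [Finset.mem_insert, Finset.mem_singleton] at this
      rcases this with h | h <;> simp [h]
    · intro x _ hx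
      have := hs x
      rw [if_neg hx] at this
      simp only [Finset.mem_singleton] at this
      rw [this, mul_zero]
  rw [hval] at hi
  by_contra hneq
  apply hi
  rw [ZMod.pow_card_sub_one_eq_one (sub_ne_zero.2 hneq), sub_self]

end A5

end Pool.Agent.H443R2.AB
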