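import Mathlib
import Pool.Agent.H443R2.AB.Deg

set_option autoImplicit false
set_option linter.unusedSectionVars false

namespace Pool.Agent.H443R2.AB

open MvPolynomial SF

universe u

variable {X : Type} [DecidableEq X] [Fintype X] {F : Type u} [Field F]

/-- an additive map commuting with the `L a` commutes with `wedge` -/
theorem a8_wedge {R R' : Type u} [CommRing R] [CommRing R'] [Algebra F R] [Algebra F R']
    (φ : SF X R →+ SF X R')
    (hφ : ∀ (a : X → F) (f : SF X R), φ ((L a : SF X R) * f) = (L a : SF X R') * φ f) :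
    ∀ (n : ℕ) (a : Fin n → X → F) (z : Mn (SF X R) n),
      (fun S => φ (wedge n (fun i => (L (a i) : SF X R)) z S)) =
        wedge n (fun i => (L (a i) : SF X R')) (fun S => φ (z S))
  | 0, _, _ => by
    funext S
    simp
  | n+1, a, z => by
    apply ext_fs_sn
    · rw [fs_wedge]
      have h := a8_wedge φ hφ n (fun i => a i.succ) (fs z)
      have e1 : fs (fun S => φ (wedge (n+1) (fun i => (L (a i) : SF X R)) z S)) =
          fun S => φ (wedge n (fun i => (L (a i.succ) : SF X R)) (fs z) S) := by
        funext S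
        have := congrFun (fs_wedge n (fun i => (L (a i) : SF X R)) z) S
        exact congrArg φ this
      rw [e1, h]; rfl
    · rw [sn_wedge]
      have h := a8_wedge φ hφ n (fun i => a i.succ) (sn z)
      have e1 : sn (fun S => φ (wedge (n+1) (fun i => (L (a i) : SF X R)) z S)) =
          fun S => (L (a 0) : SF X R') * φ (fs z S) -
            φ (wedge n (fun i => (L (a i.succ) : SF X R)) (sn z) S) := by
        funext S
        have := congrFun (sn_wedge n (fun i => (L (a i) : SF X R)) z) S
        have h2 : sn (fun S => φ (wedge (n+1) (fun i => (L (a i) : SF X R)) z S)) S =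
          φ (sn (wedge (n+1) (fun i => (L (a i) : SF X R)) z) S) := rfl
        rw [h2, this, Pi.sub_apply, map_sub, Pi.smul_apply, smul_eq_mul, hφ]
      rw [e1]
      have h3 : wedge n (fun i => (L (a i.succ) : SF X R')) (sn fun S => φ (z S)) =
          fun S => φ (wedge n (fun i => (L (a i.succ) : SF X R)) (sn z) S) := h.symm
      rw [h3]
      rfl

/-- extraction of the coefficient of `u` -/
noncomputable def a8_ex {τ : Type} (u : τ →₀ ℕ) :
    SF X (MvPolynomial τ F) →+ SF X (MvPolynomial Empty F) where
  toFun f := mkSF fun T => C (coeff u (cf f T))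
  map_zero' := by refine SF.ext fun T => ?_; simp
  map_add' f g := by refine SF.ext fun T => ?_; simp

theorem a8_ex_cf {τ : Type} (u : τ →₀ ℕ) (f : SF X (MvPolynomial τ F)) (T : Finset X) :
    cf (a8_ex u f) T = C (coeff u (cf f T)) := rfl

/-- insertion at the exponent `u` -/
noncomputable def a8_in {τ : Type} (u : τ →₀ ℕ) :
    SF X (MvPolynomial Empty F) →+ SF X (MvPolynomial τ F) where
  toFun f := mkSF fun T => monomial u (coeff 0 (cf f T))
  map_zero' := by refine SF.ext fun T => ?_; simp
  map_add' f g := by refine SF.ext fun T => ?_; simp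

theorem a8_in_cf {τ : Type} (u : τ →₀ ℕ) (f : SF X (MvPolynomial Empty F)) (T : Finset X) :
    cf (a8_in u f) T = monomial u (coeff 0 (cf f T)) := rfl

theorem a8_ex_L {τ : Type} (u : τ →₀ ℕ) (a : X → F) (f : SF X (MvPolynomial τ F)) :
    a8_ex u ((L a : SF X (MvPolynomial τ F)) * f) = (L a : SF X (MvPolynomial Empty F)) * a8_ex u f := by
  refine SF.ext fun T => ?_
  rw [a8_ex_cf, L_mul_apply, L_mul_apply, coeff_sum, map_sum]
  refine Finset.sum_congr rfl fun x _ => ?_
  rw [a8_ex_cf, coeff_smul, smul_eq_mul, C_mul, C_mul']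

theorem a8_in_L {τ : Type} (u : τ →₀ ℕ) (a : X → F) (f : SF X (MvPolynomial Empty F)) :
    a8_in u ((L a : SF X (MvPolynomial Empty F)) * f) = (L a : SF X (MvPolynomial τ F)) * a8_in u f := by
  refine SF.ext fun T => ?_
  rw [a8_in_cf, L_mul_apply, L_mul_apply, coeff_sum, map_sum]
  refine Finset.sum_congr rfl fun x _ => ?_
  rw [a8_in_cf, coeff_smul, map_smul]

theorem a8_DT {τ : Type} (p : ℕ) {n : ℕ} (a : Fin n → X → F) (z : Mn (SF X (MvPolynomial τ F)) n) :
    DT p a 0 z = wedge n (fun i => (L (a i) : SF X (MvPolynomial τ F))) z := by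
  rw [DT, DD_apply]
  have h : bK p a (0 : Fin n → MvPolynomial τ F) = fun _ => 0 := by
    funext i
    simp [bK]
  rw [h, contr_zero, add_zero]
  rfl

/-- If the Koszul complex over `F` (no variables) is exact in the degrees `(σ - 2b, t + p b)` for all `b`
then the Koszul complex over `F[τ]` (with `β = 0`) is exact in degree `(σ, t)`. -/
theorem Ex_zero_of_Ex {τ : Type} [Finite τ] (p : ℕ) [Fact p.Prime] {n : ℕ} (a : Fin n → X → F) (σ t : ℤ)
    (h : ∀ b : ℕ, Ex (τ := Empty) p a 0 (σ - 2 * b) (t + p * b)) :
    Ex (τ := τ) p a 0 σ t := by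
  classical
  intro z hz hDz
  rw [a8_DT] at hDz
  -- extraction
  have hex : ∀ u : τ →₀ ℕ, ∃ v ∈ Gd X F Empty p n (σ - 2 * (u.degree : ℤ) - 1) (t + p * (u.degree : ℤ)),
      DT p a 0 v = (fun S => a8_ex u (z S)) := by
    intro u
    refine h u.degree _ ?_ ?_
    · intro S T v hv
      have hv0 : v = 0 := Subsingleton.elim _ _
      rw [a8_ex_cf, hv0, coeff_zero_C] at hv
      have := hz S T u hv
      rw [hv0]
      simp only [map_zero, Nat.cast_zero, mul_zero, neg_zero]
      constructor
      · linarith [this.1]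
      · linarith [this.2]
    · rw [a8_DT, ← a8_wedge (a8_ex u) (a8_ex_L u) n a z, hDz]
      funext S
      simp
  choose v hv hDv using hex
  let U : Finset (τ →₀ ℕ) := Finset.univ.biUnion fun S : Fin n → Bool =>
    Finset.univ.biUnion fun T : Finset X => (cf (z S) T).support
  refine ⟨∑ u ∈ U, (fun S => a8_in u (v u S)), ?_, ?_⟩
  · refine Submodule.sum_mem _ fun u _ => ?_
    intro S T w hw
    rw [a8_in_cf, coeff_monomial] at hw
    split_ifs at hw with huw
    · subst huw
      have := hv u S T 0 hw
      simp only [map_zero, Nat.cast_zero, mul_zero, neg_zero] at this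
      constructor
      · linarith [this.1]
      · linarith [this.2]
    · exact absurd rfl hw
  · rw [map_sum]
    have h1 : ∀ u, DT p a 0 (fun S => a8_in u (v u S)) = fun S => a8_in u (a8_ex u (z S)) := by
      intro u
      rw [a8_DT, ← a8_wedge (a8_in u) (a8_in_L u) n a (v u), ← a8_DT, hDv u]
    rw [Finset.sum_congr rfl fun u _ => h1 u]
    funext S
    rw [Finset.sum_apply]
    refine SF.ext fun T => ?_
    rw [SF.sum_apply]
    have h2 : ∀ u, cf (a8_in u (a8_ex u (z S))) T = monomial u (coeff u (cf (z S) T)) := by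
      intro u
      rw [a8_in_cf, a8_ex_cf, coeff_zero_C]
    rw [Finset.sum_congr rfl fun u _ => h2 u]
    have h3 : (cf (z S) T).support ⊆ U := by
      intro u hu
      simp only [U, Finset.mem_biUnion, Finset.mem_univ, true_and]
      exact ⟨S, T, hu⟩
    conv_rhs => rw [← support_sum_monomial_coeff (cf (z S) T)]
    symm
    refine Finset.sum_subset h3 fun u _ hu => ?_
    rw [notMem_support_iff] at hu
    rw [hu, monomial_zero]

end Pool.Agent.H443R2.AB
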