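import Mathlib
import Pool.Agent.H443R2.AB.Deg

set_option autoImplicit false
set_option linter.unusedSectionVars false

/-!
# Task A9: the complexes `T_k` (diagram chase, induction over columns)
-/

namespace Pool.Agent.H443R2.AB

open MvPolynomial SF

universe u



section
variable {K : Type*} [CommRing K] {V : Type*} [AddCommGroup V] [Module K V]

theorem a9_chase1 (d : V →ₗ[K] V) (del : V →+ V) (A B C T Y s : K)
    (hT : T * T = 0) (hdd : ∀ v, del (d v) = d (del v))
    (hA : ∀ v, del (A • v) = A • del v) (hB : ∀ v, del (B • v) = B • del v)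
    (hC : ∀ v, del (C • v) = C • del v) (hY : ∀ v, del (Y • v) = Y • del v)
    (hs : ∀ v, del (s • v) = s • del v)
    (x z : V) (h1 : d x + (Y * (A * C - s * C * T)) • z = 0)
    (h2 : (A * B + s * B * T) • x - d z = 0) :
    (d (del x) + (Y * A * C) • del z - (Y * s * C) • del (T • z) = 0) ∧
    (d (del (T • x)) + (Y * A * C) • del (T • z) = 0) ∧
    ((A * B) • del x + (s * B) • del (T • x) - d (del z) = 0) ∧
    ((A * B) • del (T • x) - d (del (T • z)) = 0) := by
  have key : ∀ v, del ((Y * (A * C - s * C * T)) • v) =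
      (Y * A * C) • del v - (Y * s * C) • del (T • v) := by
    intro v
    have e : (Y * (A * C - s * C * T)) • v = Y • A • C • v - Y • s • C • (T • v) := by module
    rw [e, map_sub, hY, hA, hC, hY, hs, hC]
    module
  have key2 : ∀ v, del ((A * B + s * B * T) • v) =
      (A * B) • del v + (s * B) • del (T • v) := by
    intro v
    have e : (A * B + s * B * T) • v = A • B • v + s • B • (T • v) := by module
    rw [e, map_add, hA, hB, hs, hB]
    module
  refine ⟨?_, ?_, ?_, ?_⟩
  · have := congrArg del h1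
    rw [map_add, map_zero, hdd, key] at this
    rw [← this]; module
  · have h3 : T • (d x + (Y * (A * C - s * C * T)) • z) = 0 := by rw [h1, smul_zero]
    have h4 : T • (d x + (Y * (A * C - s * C * T)) • z) = d (T • x) + Y • A • C • (T • z) := by
      rw [map_smul]
      have e : T • (d x + (Y * (A * C - s * C * T)) • z) =
        T • d x + (Y * A * C * T) • z - (Y * s * C * (T * T)) • z := by module
      rw [e, hT]; module
    rw [h4] at h3
    have := congrArg del h3
    rw [map_add, map_zero, hdd, hY, hA, hC] at this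
    rw [← this]; module
  · have := congrArg del h2
    rw [map_sub, map_zero, hdd, key2] at this
    rw [← this]
  · have h3 : T • ((A * B + s * B * T) • x - d z) = 0 := by rw [h2, smul_zero]
    have h4 : T • ((A * B + s * B * T) • x - d z) = A • B • (T • x) - d (T • z) := by
      rw [map_smul]
      have e : T • ((A * B + s * B * T) • x - d z) =
        (A * B * T) • x + (s * B * (T * T)) • x - T • d z := by module
      rw [e, hT]; module
    rw [h4] at h3
    have := congrArg del h3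
    rw [map_sub, map_zero, hdd, hA, hB] at this
    rw [← this]; module

end


section
variable {K : Type*} [CommRing K] {V : Type*} [AddCommGroup V] [Module K V]

/-- second step of the chase: `x0, x1, z0, z1` are the components of the cocycle -/
theorem a9_chase2 (d : V →ₗ[K] V) (del : V →+ V) (A B C T Y s s' : K)
    (hss : s * s' = 1) (hdd : ∀ v, del (d v) = d (del v))
    (hA : ∀ v, del (A • v) = A • del v) (hB : ∀ v, del (B • v) = B • del v)
    (hC : ∀ v, del (C • v) = C • del v) (hY : ∀ v, del (Y • v) = Y • del v)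
    (hs : ∀ v, del (s • v) = s • del v)
    (hTd : ∀ v, del (T • v) + T • del v = v)
    (x0 x1 z0 z1 X Z : V) (hx1 : del x1 = 0) (hz0 : del z0 = 0) (hz1 : del z1 = 0)
    (e1 : d x0 + (Y * A * C) • z0 = 0)
    (e4 : (A * B) • x1 + (s * B) • x0 - d z1 = 0)
    (f1 : d X + (Y * C) • Z = x1) (f2 : (A * A * B) • X - d Z = A • z1 - s • z0) :
    (d (del (T • X)) + (Y * C) • del (T • Z) = x1) ∧
    (A • (z1 - (A * B) • del (T • X)) = s • (z0 - s' • d (del (T • Z)))) ∧
    (d (x0 + (s' * Y * A * C) • del (T • Z)) +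
      (Y * A * A * C) • (s' • (z1 - (A * B) • del (T • X))) = 0) ∧
    (B • (x0 + (s' * Y * A * C) • del (T • Z)) -
      d (s' • (z1 - (A * B) • del (T • X))) = 0) := by
  have fix : ∀ v, del v = 0 → del (T • v) = v := by
    intro v hv
    have := hTd v
    rwa [hv, smul_zero, add_zero] at this
  have g1 : d (del (T • X)) + (Y * C) • del (T • Z) = x1 := by
    have h3 : T • (d X + (Y * C) • Z) = d (T • X) + Y • C • (T • Z) := by
      rw [map_smul]; module
    have h4 := congrArg (fun v => del (T • v)) f1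
    rw [h3, map_add, hdd, hY, hC, fix x1 hx1] at h4
    rw [← h4]; module
  have g2 : (A * A * B) • del (T • X) - d (del (T • Z)) = A • z1 - s • z0 := by
    have h3 : T • ((A * A * B) • X - d Z) = A • A • B • (T • X) - d (T • Z) := by
      rw [map_smul]; module
    have h5 : T • (A • z1 - s • z0) = A • (T • z1) - s • (T • z0) := by module
    have h4 := congrArg (fun v => del (T • v)) f2
    rw [h3, h5, map_sub, map_sub, hdd, hA, hA, hB, hA, hs, fix z1 hz1, fix z0 hz0] at h4
    rw [← h4]; module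
  set X' := del (T • X) with hX'
  set Z' := del (T • Z) with hZ'
  have g3 : A • (z1 - (A * B) • X') = s • (z0 - s' • d Z') := by
    have h1 : A • (z1 - (A * B) • X') = A • z1 - (A * A * B) • X' := by module
    have h2 : s • (z0 - s' • d Z') = s • z0 - (s * s') • d Z' := by module
    rw [h1, h2, hss, one_smul]
    have h3 : (A * A * B) • X' = A • z1 - s • z0 + d Z' := by rw [← g2]; module
    rw [h3]; module
  refine ⟨g1, g3, ?_, ?_⟩
  · have h1 : (Y * A * A * C) • (s' • (z1 - (A * B) • X')) =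
        (Y * A * C * s') • (A • (z1 - (A * B) • X')) := by module
    have h2 : (Y * A * C * s') • (s • (z0 - s' • d Z')) =
        (Y * A * C * (s * s')) • (z0 - s' • d Z') := by module
    rw [h1, g3, h2, hss, map_add, map_smul]
    have h3 : d x0 + (s' * Y * A * C) • d Z' + (Y * A * C * 1) • (z0 - s' • d Z') =
        d x0 + (Y * A * C) • z0 := by module
    rw [h3, e1]
  · have h1 : s' • d z1 = s' • (A * B) • x1 + (s * s') • (B • x0) := by
      have h2 : d z1 = (A * B) • x1 + (s * B) • x0 := (sub_eq_zero.mp e4).symm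
      rw [h2]; module
    rw [hss, one_smul] at h1
    rw [map_smul, map_sub, map_smul]
    have h2 : B • (x0 + (s' * Y * A * C) • Z') - s' • (d z1 - (A * B) • d X') =
        B • x0 + (B * (s' * Y * A * C)) • Z' - s' • d z1 + (s' * (A * B)) • d X' := by module
    rw [h2, h1, ← g1]
    module

/-- third step of the chase -/
theorem a9_chase3 (d : V →ₗ[K] V) (A B C T Y s s' : K)
    (hT : T * T = 0) (hss : s * s' = 1)
    (x0 x1 z0 z1 X' Z' X2 Z2 : V)
    (g1 : d X' + (Y * C) • Z' = x1)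
    (g3 : A • (z1 - (A * B) • X') = s • (z0 - s' • d Z'))
    (k1 : d X2 + (Y * A * A * C) • Z2 = x0 + (s' * Y * A * C) • Z')
    (k2 : B • X2 - d Z2 = s' • (z1 - (A * B) • X')) :
    (d (X2 + T • X') + (Y * (A * C - s * C * T)) • (A • Z2 + (s * T) • Z2 - s' • Z') =
      x0 + T • x1) ∧
    ((A * B + s * B * T) • (X2 + T • X') - d (A • Z2 + (s * T) • Z2 - s' • Z') =
      z0 + T • z1) := by
  constructor
  · rw [map_add, map_smul]
    have h1 : d X2 + T • d X' + (Y * (A * C - s * C * T)) • (A • Z2 + (s * T) • Z2 - s' • Z') =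
        (d X2 + (Y * A * A * C) • Z2) + T • (d X' + (Y * C * (s * s')) • Z')
          - (s' * Y * A * C) • Z' - (Y * s * s * C * (T * T)) • Z2 := by module
    rw [h1, hT, hss, mul_one, g1, k1]
    module
  · rw [map_sub, map_add, map_smul, map_smul, map_smul]
    have h1 : (A * B + s * B * T) • (X2 + T • X') - (A • d Z2 + (s * T) • d Z2 - s' • d Z') =
        A • (B • X2 - d Z2) + (s * T) • (B • X2 - d Z2) + (A * B * T) • X' + s' • d Z' +
        (s * B * (T * T)) • X' := by module
    rw [h1, k2, hT]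
    have h2 : A • s' • (z1 - (A * B) • X') = s' • (A • (z1 - (A * B) • X')) := by module
    have h3 : s' • s • (z0 - s' • d Z') = (s * s') • (z0 - s' • d Z') := by module
    have h4 : (s * T) • s' • (z1 - (A * B) • X') = ((s * s') * T) • (z1 - (A * B) • X') := by module
    rw [h2, g3, h3, h4, hss]
    module

end

section
variable {K : Type*} [CommRing K] {V : Type*} [AddCommGroup V] [Module K V]

/-- the abstract step -/
theorem a9_step (d : V →ₗ[K] V) (del : V →+ V) (A B C T Y s s' : K)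
    (hT : T * T = 0) (hss : s * s' = 1) (hdd : ∀ v, del (d v) = d (del v))
    (hA : ∀ v, del (A • v) = A • del v) (hB : ∀ v, del (B • v) = B • del v)
    (hC : ∀ v, del (C • v) = C • del v) (hY : ∀ v, del (Y • v) = Y • del v)
    (hs : ∀ v, del (s • v) = s • del v)
    (hTd : ∀ v, del (T • v) + T • del v = v) (hdel : ∀ v, del (del v) = 0)
    (G : ℤ → ℤ → AddSubgroup V) (σ t k : ℤ)
    (gT : ∀ σ t : ℤ, ∀ v ∈ G σ t, T • v ∈ G σ (t + 1))
    (gdel : ∀ σ t : ℤ, ∀ v ∈ G σ t, del v ∈ G σ (t - 1))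
    (gA : ∀ σ t : ℤ, ∀ v ∈ G σ t, A • v ∈ G σ (t + 1))
    (gAB : ∀ σ t : ℤ, ∀ v ∈ G σ t, (A * B) • v ∈ G σ (t + k))
    (gs : ∀ σ t : ℤ, ∀ v ∈ G σ t, s • v ∈ G σ t)
    (gs' : ∀ σ t : ℤ, ∀ v ∈ G σ t, s' • v ∈ G σ t)
    (gY : ∀ σ t : ℤ, ∀ v ∈ G σ t, (Y * A * C) • v ∈ G (σ + 2) (t - k))
    (q1 : ∀ x ∈ G σ (t - 1), ∀ z ∈ G (σ - 1) (t + k),
      d x + (Y * C) • z = 0 → (A * A * B) • x - d z = 0 →
      ∃ x' ∈ G (σ - 1) (t - 1), ∃ z' ∈ G (σ - 2) (t + k),
        d x' + (Y * C) • z' = x ∧ (A * A * B) • x' - d z' = z)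
    (q2 : ∀ x ∈ G σ t, ∀ z ∈ G (σ - 1) (t + k - 1),
      d x + (Y * A * A * C) • z = 0 → B • x - d z = 0 →
      ∃ x' ∈ G (σ - 1) t, ∃ z' ∈ G (σ - 2) (t + k - 1),
        d x' + (Y * A * A * C) • z' = x ∧ B • x' - d z' = z)
    (x : V) (hx : x ∈ G σ t) (z : V) (hz : z ∈ G (σ - 1) (t + k))
    (h1 : d x + (Y * (A * C - s * C * T)) • z = 0)
    (h2 : (A * B + s * B * T) • x - d z = 0) :
    ∃ x' ∈ G (σ - 1) t, ∃ z' ∈ G (σ - 2) (t + k),
      d x' + (Y * (A * C - s * C * T)) • z' = x ∧ (A * B + s * B * T) • x' - d z' = z := by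
  have gc : ∀ (σ t σ' t' : ℤ) (v : V), σ = σ' → t = t' → v ∈ G σ t → v ∈ G σ' t' := by
    rintro σ t _ _ v rfl rfl h
    exact h
  obtain ⟨c1, c2, c3, c4⟩ := a9_chase1 d del A B C T Y s hT hdd hA hB hC hY hs x z h1 h2
  have gx1 : del x ∈ G σ (t - 1) := gdel _ _ _ hx
  have gx0 : del (T • x) ∈ G σ t := gc _ _ _ _ _ rfl (by ring) (gdel _ _ _ (gT _ _ _ hx))
  have gz1 : del z ∈ G (σ - 1) (t + k - 1) := gdel _ _ _ hz
  have gz0 : del (T • z) ∈ G (σ - 1) (t + k) := gc _ _ _ _ _ rfl (by ring) (gdel _ _ _ (gT _ _ _ hz))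
  obtain ⟨X', gX', Z', gZ', f1, f2⟩ := q1 (del x) gx1 (A • del z - s • del (T • z))
    (sub_mem (gc _ _ _ _ _ rfl (by ring) (gA _ _ _ gz1)) (gs _ _ _ gz0))
    (by rw [← c1]; module)
    (by
      rw [map_sub, map_smul, map_smul]
      have e2 : (A * A * B) • del x - (A • d (del z) - s • d (del (T • z))) =
        A • ((A * B) • del x + (s * B) • del (T • x) - d (del z)) -
        s • ((A * B) • del (T • x) - d (del (T • z))) := by module
      rw [e2, c3, c4, smul_zero, smul_zero, sub_zero])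
  obtain ⟨g1, g3, g4, g5⟩ := a9_chase2 d del A B C T Y s s' hss hdd
      hA hB hC hY hs hTd (del (T • x)) (del x) (del (T • z)) (del z) X' Z' (hdel x) (hdel _) (hdel z)
      c2 c3 f1 f2
  have gX2 : del (T • X') ∈ G (σ - 1) (t - 1) :=
    gc _ _ _ _ _ rfl (by ring) (gdel _ _ _ (gT _ _ _ gX'))
  have gZ2 : del (T • Z') ∈ G (σ - 2) (t + k) :=
    gc _ _ _ _ _ rfl (by ring) (gdel _ _ _ (gT _ _ _ gZ'))
  obtain ⟨X3, gX3, Z3, gZ3, k1, k2⟩ := q2
    (del (T • x) + (s' * Y * A * C) • del (T • Z'))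
    (by
      refine add_mem gx0 ?_
      have e : (s' * Y * A * C) • del (T • Z') = s' • ((Y * A * C) • del (T • Z')) := by module
      rw [e]
      exact gs' _ _ _ (gc _ _ _ _ _ (by ring) (by ring) (gY _ _ _ gZ2)))
    (s' • (del z - (A * B) • del (T • X')))
    (by
      refine gs' _ _ _ (sub_mem gz1 ?_)
      exact gc _ _ _ _ _ rfl (by ring) (gAB _ _ _ gX2))
    g4 g5
  obtain ⟨j1, j2⟩ := a9_chase3 d A B C T Y s s' hT hss (del (T • x)) (del x) (del (T • z)) (del z)
    (del (T • X')) (del (T • Z')) X3 Z3 g1 g3 k1 k2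
  refine ⟨X3 + T • del (T • X'), ?_, A • Z3 + (s * T) • Z3 - s' • del (T • Z'), ?_, ?_, ?_⟩
  · exact add_mem gX3 (gc _ _ _ _ _ rfl (by ring) (gT _ _ _ gX2))
  · refine sub_mem (add_mem ?_ ?_) (gs' _ _ _ gZ2)
    · exact gc _ _ _ _ _ rfl (by ring) (gA _ _ _ gZ3)
    · have e : (s * T) • Z3 = s • (T • Z3) := by module
      rw [e]
      exact gs _ _ _ (gc _ _ _ _ _ rfl (by ring) (gT _ _ _ gZ3))
  · rw [j1]; exact hTd x
  · rw [j2]; exact hTd z

end

section A9
variable {X : Type} [DecidableEq X] [Fintype X] {F : Type u} [Field F]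

/-- Exactness of `T_k(α)`: pairs `(x, z)` with `D(x,z) = (d x + y L_α^(p-k) z, L_α^k x - d z)`, `d = wedge n (aK τ r)`. -/
def ExT (p : ℕ) {τ : Type} {n : ℕ} (r : Fin n → X → F) (α : X → F) (y : MvPolynomial τ F) (k : ℕ)
    (σ t : ℤ) : Prop :=
  ∀ x ∈ Gd X F τ p n σ t, ∀ z ∈ Gd X F τ p n (σ - 1) (t + k),
    wedge n (aK τ r) x + (y • (L α : SF X (MvPolynomial τ F)) ^ (p - k)) • z = 0 →
    (L α : SF X (MvPolynomial τ F)) ^ k • x - wedge n (aK τ r) z = 0 →
    ∃ x' ∈ Gd X F τ p n (σ - 1) t, ∃ z' ∈ Gd X F τ p n (σ - 2) (t + k),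
      wedge n (aK τ r) x' + (y • (L α : SF X (MvPolynomial τ F)) ^ (p - k)) • z' = x ∧
      (L α : SF X (MvPolynomial τ F)) ^ k • x' - wedge n (aK τ r) z' = z

/-- entrywise derivative in direction `x` -/
noncomputable def a9_del {τ : Type} {n : ℕ} (x : X) :
    Mn (SF X (MvPolynomial τ F)) n →+ Mn (SF X (MvPolynomial τ F)) n where
  toFun v := fun S => SF.dd x (v S)
  map_zero' := by funext S; exact map_zero _
  map_add' v w := by funext S; exact map_add _ _ _

/-- multiplication by `g` commutes with the derivative -/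
def A9Comm {τ : Type} (x : X) (g : SF X (MvPolynomial τ F)) : Prop :=
  ∀ f, SF.dd x (g * f) = g * SF.dd x f

theorem a9_comm_mul {τ : Type} {x : X} {g g' : SF X (MvPolynomial τ F)} (h : A9Comm x g)
    (h' : A9Comm x g') : A9Comm x (g * g') := by
  intro f
  rw [mul_assoc, h, h', mul_assoc]

theorem a9_comm_one {τ : Type} {x : X} : A9Comm x (1 : SF X (MvPolynomial τ F)) := by
  intro f
  rw [one_mul, one_mul]

theorem a9_comm_pow {τ : Type} {x : X} {g : SF X (MvPolynomial τ F)} (h : A9Comm x g) (m : ℕ) :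
    A9Comm x (g ^ m) := by
  induction m with
  | zero => rw [pow_zero]; exact a9_comm_one
  | succ m ih => rw [pow_succ]; exact a9_comm_mul ih h

theorem a9_comm_R {τ : Type} (x : X) (y : MvPolynomial τ F) :
    A9Comm x (y • (1 : SF X (MvPolynomial τ F))) := by
  intro f
  rw [smul_mul_assoc, one_mul, smul_mul_assoc, one_mul, map_smul]

theorem a9_comm_F {τ : Type} (x : X) (c : F) :
    A9Comm x (c • (1 : SF X (MvPolynomial τ F))) := by
  intro f
  rw [smul_mul_assoc, one_mul, smul_mul_assoc, one_mul]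
  refine SF.ext fun T => ?_
  rw [dd_apply, SF.smul_apply, SF.smul_apply, dd_apply]
  split_ifs
  · rw [smul_zero]
  · rfl

theorem a9_comm_L {τ : Type} {x : X} {a : X → F} (ha : a x = 0) :
    A9Comm x (L a : SF X (MvPolynomial τ F)) := fun f => dd_L_mul x a ha f

theorem a9_del_smul {τ : Type} {n : ℕ} {x : X} {g : SF X (MvPolynomial τ F)} (h : A9Comm x g)
    (v : Mn (SF X (MvPolynomial τ F)) n) : a9_del x (g • v) = g • a9_del x v := by
  funext S
  exact h (v S)

theorem a9_del_tt {τ : Type} {n : ℕ} (x : X) (v : Mn (SF X (MvPolynomial τ F)) n) :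
    a9_del x ((tt x : SF X (MvPolynomial τ F)) • v) + (tt x : SF X (MvPolynomial τ F)) • a9_del x v
      = v := by
  funext S
  exact dd_tt x (v S)

theorem a9_del_del {τ : Type} {n : ℕ} (x : X) (v : Mn (SF X (MvPolynomial τ F)) n) :
    a9_del x (a9_del x v) = 0 := by
  funext S
  exact dd_dd x (v S)

theorem a9_del_wedge {τ : Type} (x : X) : ∀ (n : ℕ) (a : Fin n → SF X (MvPolynomial τ F))
    (_ : ∀ i, A9Comm x (a i)) (z : Mn (SF X (MvPolynomial τ F)) n),
    a9_del x (wedge n a z) = wedge n a (a9_del x z)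
  | 0, a, _, z => by rw [wedge_0, wedge_0, map_zero]
  | n+1, a, ha, z => by
    have hfs : ∀ w : Mn (SF X (MvPolynomial τ F)) (n+1), fs (a9_del x w) = a9_del x (fs w) :=
      fun _ => rfl
    have hsn : ∀ w : Mn (SF X (MvPolynomial τ F)) (n+1), sn (a9_del x w) = a9_del x (sn w) :=
      fun _ => rfl
    apply ext_fs_sn
    · rw [hfs, fs_wedge, fs_wedge, hfs, a9_del_wedge x n _ (fun i => ha i.succ)]
    · rw [hsn, sn_wedge, sn_wedge, hsn, hfs, map_sub, a9_del_wedge x n _ (fun i => ha i.succ),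
        a9_del_smul (ha 0)]

theorem a9_del_Gd {τ : Type} {p n : ℕ} {σ t : ℤ} {z : Mn (SF X (MvPolynomial τ F)) n} (x : X)
    (hz : z ∈ Gd X F τ p n σ t) : a9_del x z ∈ Gd X F τ p n σ (t - 1) := by
  intro S T
  have h := hz S
  show cf (SF.dd x (z S)) T ∈ _
  rw [dd_apply]
  split_ifs with hx
  · exact Submodule.zero_mem _
  · have := h (insert x T)
    rw [Finset.card_insert_of_notMem hx] at this
    exact HR_congr rfl (by push_cast; ring) this

theorem a9_homMul_tt {τ : Type} {p : ℕ} (x : X) :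
    HomMul p (tt x : SF X (MvPolynomial τ F)) 0 1 := by
  have h := homMul_L (τ := τ) (p := p) (Pi.single x (1 : F))
  have e : (L (Pi.single x (1 : F)) : SF X (MvPolynomial τ F)) = tt x := by
    rw [L, Finset.sum_eq_single x]
    · rw [Pi.single_eq_same, one_smul]
    · intro b _ hb
      rw [Pi.single_eq_of_ne hb, zero_smul]
    · intro h'
      exact absurd (Finset.mem_univ x) h'
  rwa [e] at h

theorem a9_pow {K : Type*} [CommRing K] (A w : K) (hw : w * w = 0) (m : ℕ) :
    (A + w) ^ (m + 1) = A * A ^ m + ((m + 1 : ℕ) : K) * A ^ m * w := by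
  induction m with
  | zero => simp
  | succ m ih =>
    rw [pow_succ, ih, pow_succ]
    push_cast
    linear_combination ((m : K) + 1) * A ^ m * hw

theorem a9_pow_smul {F K : Type*} [Field F] [CommRing K] [Algebra F K] (A T : K) (c : F)
    (hT : T * T = 0) (m : ℕ) :
    (A + c • T) ^ (m + 1) = A * A ^ m + ((((m + 1 : ℕ) : F) * c) • (1 : K)) * A ^ m * T := by
  have h : (c • T) * (c • T) = 0 := by
    rw [smul_mul_assoc, mul_smul_comm, hT, smul_zero, smul_zero]
  rw [a9_pow _ _ h]
  simp only [Algebra.smul_def, map_mul, map_natCast, mul_one]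
  ring

theorem a9_L_split {τ : Type} (α : X → F) (x : X) :
    (L α : SF X (MvPolynomial τ F)) = L (Function.update α x 0) + α x • tt x := by
  rw [L, L, ← Finset.add_sum_erase Finset.univ (fun y => α y • tt y) (Finset.mem_univ x),
    ← Finset.add_sum_erase Finset.univ (fun y => Function.update α x 0 y • tt y)
      (Finset.mem_univ x)]
  rw [Function.update_self, zero_smul, zero_add, add_comm]
  congr 1
  refine Finset.sum_congr rfl fun y hy => ?_
  rw [Function.update_of_ne (Finset.ne_of_mem_erase hy)]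

theorem a9_Gd_d {τ : Type} {p n : ℕ} {σ t : ℤ} (r : Fin n → X → F)
    {z : Mn (SF X (MvPolynomial τ F)) n} (hz : z ∈ Gd X F τ p n σ t) :
    wedge n (aK τ r) z ∈ Gd X F τ p n (σ + 1) t :=
  Gd_congr (by ring) (by ring) (Gd_wedge (fun l => homMul_L (τ := τ) (p := p) (r l)) hz)

/-- `k = 0` -/
theorem a9_case0 (p : ℕ) {τ : Type} {n : ℕ} (r : Fin n → X → F) (α : X → F)
    (y : MvPolynomial τ F) (σ t : ℤ) : ExT p r α y 0 σ t := by
  intro x hx z hz h1 h2
  rw [pow_zero, one_smul] at h2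
  refine ⟨z, Gd_congr rfl (by simp) hz, 0, Submodule.zero_mem _, ?_, ?_⟩
  · rw [smul_zero, add_zero]
    exact (sub_eq_zero.mp h2).symm
  · rw [pow_zero, one_smul, map_zero, sub_zero]

/-- `k = p` -/
theorem a9_casep (p : ℕ) [Fact p.Prime] [CharP F p] {τ : Type} {n : ℕ} (r : Fin n → X → F)
    (α : X → F) (y : MvPolynomial τ F) (hy0 : y ≠ 0)
    (hdiv : ∀ (σ s : ℤ) (g : MvPolynomial τ F), 0 < σ → g ∈ HR F τ p σ s →
      ∃ g' ∈ HR F τ p (σ - 2) (s + p), g = y * g')
    (σ t : ℤ) (hσ : (n : ℤ) < σ) : ExT p r α y p σ t := by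
  intro x hx z hz h1 h2
  rw [Nat.sub_self, pow_zero] at h1
  rw [L_pow_char, zero_smul, zero_sub, neg_eq_zero] at h2
  have hch : ∀ (S : Fin n → Bool) (T : Finset X), ∃ g' ∈ HR F τ p (σ - cS S - 2)
      (t + cS S - T.card + p), cf (x S) T = y * g' := by
    intro S T
    have h3 := cS_le S
    exact hdiv _ _ _ (by linarith) (hx S T)
  choose g hg hg2 using hch
  let x1 : Mn (SF X (MvPolynomial τ F)) n := fun S => mkSF fun T => g S T
  have hx1 : x1 ∈ Gd X F τ p n (σ - 2) (t + p) := by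
    intro S T
    exact HR_congr (by ring) (by ring) (hg S T)
  have hxx : x = (y • (1 : SF X (MvPolynomial τ F))) • x1 := by
    funext S
    refine SF.ext fun T => ?_
    rw [hg2 S T]
    show _ = cf ((y • (1 : SF X (MvPolynomial τ F))) * x1 S) T
    rw [smul_mul_assoc, one_mul, SF.smul_apply]
    rfl
  have hzz : z = - wedge n (aK τ r) x1 := by
    rw [hxx, map_smul, ← smul_add] at h1
    have h3 : wedge n (aK τ r) x1 + z = 0 := by
      funext S
      refine SF.ext fun T => ?_
      have h4 := congrFun h1 S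
      have h5 := congrArg (fun f => cf f T) h4
      change cf ((y • (1 : SF X (MvPolynomial τ F))) * ((wedge n (aK τ r) x1 + z) S)) T =
        cf ((0 : Mn (SF X (MvPolynomial τ F)) n) S) T at h5
      rw [smul_mul_assoc, one_mul, SF.smul_apply] at h5
      change y * cf ((wedge n (aK τ r) x1 + z) S) T = 0 at h5
      exact (mul_eq_zero.mp h5).resolve_left hy0
    rw [eq_neg_iff_add_eq_zero, add_comm]
    exact h3
  refine ⟨0, Submodule.zero_mem _, x1, hx1, ?_, ?_⟩
  · rw [map_zero, zero_add, Nat.sub_self, pow_zero]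
    exact hxx.symm
  · rw [smul_zero, zero_sub]
    exact hzz.symm

set_option maxHeartbeats 4000000 in
/-- the induction over the support of `α` -/
theorem a9_main (p : ℕ) [hp : Fact p.Prime] [CharP F p] {τ : Type} {n : ℕ} (r : Fin n → X → F)
    (y : MvPolynomial τ F) (hy0 : y ≠ 0) (hy : y ∈ HR F τ p 2 (-p))
    (hdiv : ∀ (σ s : ℤ) (g : MvPolynomial τ F), 0 < σ → g ∈ HR F τ p σ s →
      ∃ g' ∈ HR F τ p (σ - 2) (s + p), g = y * g')
    (θ : ℤ) (hK : ∀ σ t : ℤ, 2 * t + p * σ < θ → Ex (τ := τ) p r 0 σ t) (w : ℕ) :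
    ∀ (α : X → F), (∀ x, α x ≠ 0 → ∀ i, r i x = 0) → 
      (∃ s : Finset X, s.card = w ∧ ∀ x, x ∈ s ↔ α x ≠ 0) →
      ∀ k : ℕ, k ≤ p → ∀ σ t : ℤ, (n : ℤ) < σ →
      (k = 0 ∨ k = p ∨ 2 * t + p * σ < θ + (w : ℤ) - ((k : ℤ) - 1)) → ExT p r α y k σ t := by
  induction w with
  | zero =>
    rintro α hα ⟨s, hs, hsα⟩ k hkp σ t hσ hk
    rcases Nat.eq_zero_or_pos k with rfl | hk0
    · exact a9_case0 p r α y σ t
    rcases eq_or_lt_of_le hkp with rfl | hkp'
    · exact a9_casep k r α y hy0 hdiv σ t hσ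
    have hE : 2 * t + p * σ < θ - ((k : ℤ) - 1) := by
      rcases hk with h | h | h
      · omega
      · omega
      · push_cast at h; linarith
    have hα0 : α = 0 := by
      funext x
      by_contra hx
      have := (hsα x).mpr hx
      rw [Finset.card_eq_zero.mp hs] at this
      exact absurd this (Finset.notMem_empty x)
    subst hα0
    intro x hx z hz h1 h2
    have hDT : ∀ v : Mn (SF X (MvPolynomial τ F)) n, DT p r 0 v = wedge n (aK τ r) v := by
      intro v
      have hb : bK p r (0 : Fin n → MvPolynomial τ F) = fun _ => 0 := by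
        funext i
        show (0 : MvPolynomial τ F) • _ = _
        rw [zero_smul]
      rw [DT, DD_apply, hb, contr_zero, add_zero]
    rw [L_zero, zero_pow (by omega), smul_zero, zero_smul, add_zero] at h1
    rw [L_zero, zero_pow (by omega), zero_smul, zero_sub, neg_eq_zero] at h2
    have hk1 : (1 : ℤ) ≤ k := by exact_mod_cast hk0
    have hk2 : (k : ℤ) + 1 ≤ p := by exact_mod_cast hkp'
    obtain ⟨x', hx', hx'e⟩ := hK σ t (by linarith) x hx (by rw [hDT]; exact h1)
    obtain ⟨z', hz', hz'e⟩ := hK (σ - 1) (t + k) (by linarith) z hz (by rw [hDT]; exact h2)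
    rw [hDT] at hx'e hz'e
    refine ⟨x', hx', -z', ?_, ?_, ?_⟩
    · exact Submodule.neg_mem _ (Gd_congr (by ring) rfl hz')
    · rw [L_zero, zero_pow (by omega), smul_zero, zero_smul, add_zero, hx'e]
    · rw [L_zero, zero_pow (by omega), zero_smul, zero_sub, map_neg, neg_neg, hz'e]
  | succ w ih =>
    rintro α hα ⟨s, hs, hsα⟩ k hkp σ t hσ hk
    rcases Nat.eq_zero_or_pos k with rfl | hk0
    · exact a9_case0 p r α y σ t
    rcases eq_or_lt_of_le hkp with rfl | hkp'
    · exact a9_casep k r α y hy0 hdiv σ t hσ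
    have hE : 2 * t + p * σ < θ + (w + 1) - ((k : ℤ) - 1) := by
      rcases hk with h | h | h
      · omega
      · omega
      · push_cast at h; linarith
    obtain ⟨k', rfl⟩ : ∃ k', k = k' + 1 := ⟨k - 1, by omega⟩
    obtain ⟨m', hm'⟩ : ∃ m', p = k' + 1 + (m' + 1) := ⟨p - (k' + 1) - 1, by omega⟩
    have hpk : p - (k' + 1) = m' + 1 := by omega
    -- the column
    obtain ⟨x₀, hx₀⟩ : s.Nonempty := Finset.card_pos.mp (by omega)
    have hc0 : α x₀ ≠ 0 := (hsα x₀).mp hx₀
    set α' : X → F := Function.update α x₀ 0 with hα'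
    have hα'0 : α' x₀ = 0 := Function.update_self _ _ _
    have hα'r : ∀ x, α' x ≠ 0 → ∀ i, r i x = 0 := by
      intro x hx
      apply hα x
      intro h
      apply hx
      rw [hα']
      by_cases hxx : x = x₀
      · rw [hxx, Function.update_self]
      · rw [Function.update_of_ne hxx, h]
    have hs' : ∃ s : Finset X, s.card = w ∧ ∀ x, x ∈ s ↔ α' x ≠ 0 := by
      refine ⟨s.erase x₀, by rw [Finset.card_erase_of_mem hx₀, hs]; rfl, fun x => ?_⟩
      rw [Finset.mem_erase, hsα, hα']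
      by_cases hxx : x = x₀
      · rw [hxx, Function.update_self]
        simp
      · rw [Function.update_of_ne hxx]
        simp [hxx]
    -- ring elements
    set A : SF X (MvPolynomial τ F) := L α' with hA
    set B : SF X (MvPolynomial τ F) := A ^ k' with hB
    set C : SF X (MvPolynomial τ F) := A ^ m' with hC
    set T : SF X (MvPolynomial τ F) := tt x₀ with hT
    set Y : SF X (MvPolynomial τ F) := y • (1 : SF X (MvPolynomial τ F)) with hY
    set κ : F := ((k' + 1 : ℕ) : F) * α x₀ with hκ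
    have hκ0 : κ ≠ 0 := by
      apply mul_ne_zero _ hc0
      intro h
      have h2 := (CharP.cast_eq_zero_iff F p (k' + 1)).mp h
      exact absurd (Nat.le_of_dvd (by omega) h2) (by omega)
    set s₁ : SF X (MvPolynomial τ F) := κ • (1 : SF X (MvPolynomial τ F)) with hs₁
    set s₂ : SF X (MvPolynomial τ F) := κ⁻¹ • (1 : SF X (MvPolynomial τ F)) with hs₂
    have hTT : T * T = 0 := tt_mul_tt x₀
    have hss : s₁ * s₂ = 1 := by
      rw [hs₁, hs₂, smul_mul_assoc, one_mul, smul_smul, mul_inv_cancel₀ hκ0, one_smul]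
    have hLk : (L α : SF X (MvPolynomial τ F)) ^ (k' + 1) = A * B + s₁ * B * T := by
      rw [a9_L_split α x₀]
      exact a9_pow_smul A T (α x₀) hTT k'
    have hLm : (L α : SF X (MvPolynomial τ F)) ^ (m' + 1) = A * C - s₁ * C * T := by
      have e1 : ((m' + 1 : ℕ) : F) * α x₀ = -κ := by
        have e2 : ((m' + 1 : ℕ) : F) = -((k' + 1 : ℕ) : F) := by
          rw [eq_neg_iff_add_eq_zero, ← Nat.cast_add, add_comm, ← hm']
          exact CharP.cast_eq_zero F p
        rw [e2, hκ, neg_mul]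
      have e3 := a9_pow_smul A T (α x₀) hTT m'
      rw [e1, neg_smul, neg_mul, neg_mul, ← sub_eq_add_neg] at e3
      rw [a9_L_split α x₀]
      exact e3
    -- commutation with the derivative
    have cA : A9Comm x₀ A := a9_comm_L hα'0
    have cB : A9Comm x₀ B := a9_comm_pow cA _
    have cC : A9Comm x₀ C := a9_comm_pow cA _
    have cY : A9Comm x₀ Y := a9_comm_R x₀ y
    have cs : A9Comm x₀ s₁ := a9_comm_F x₀ κ
    have hdd : ∀ v : Mn (SF X (MvPolynomial τ F)) n,
        a9_del x₀ (wedge n (aK τ r) v) = wedge n (aK τ r) (a9_del x₀ v) :=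
      a9_del_wedge x₀ n _ fun i => a9_comm_L (hα x₀ hc0 i)
    have dA := fun v => a9_del_smul (n := n) cA v
    have dB := fun v => a9_del_smul (n := n) cB v
    have dC := fun v => a9_del_smul (n := n) cC v
    have dY := fun v => a9_del_smul (n := n) cY v
    have ds := fun v => a9_del_smul (n := n) cs v
    have hTd := fun v => a9_del_tt (n := n) (F := F) (τ := τ) x₀ v
    -- degrees
    have mA : HomMul p A 0 1 := homMul_L α'
    have mB : HomMul p B 0 k' := (mA.pow k').congr (by ring) (by ring)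
    have mC : HomMul p C 0 m' := (mA.pow m').congr (by ring) (by ring)
    have mT : HomMul p T 0 1 := a9_homMul_tt x₀
    have mY : HomMul p Y 2 (-p) := (homMul_smul_R hy HomMul.one).congr (by ring) (by ring)
    have ms₁ : HomMul p s₁ 0 0 := HomMul.one.smul κ
    have ms₂ : HomMul p s₂ 0 0 := HomMul.one.smul κ⁻¹
    have hpz : (p : ℤ) = k' + 1 + (m' + 1) := by rw [hm']; push_cast; ring
    have eY : ∀ g : SF X (MvPolynomial τ F), y • g = Y * g := by
      intro g
      rw [hY, smul_mul_assoc, one_mul]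
    -- the induction hypotheses
    have q1 : ExT p r α' y (k' + 1 + 1) σ (t - 1) := by
      refine ih α' hα'r hs' (k' + 1 + 1) (by omega) σ (t - 1) hσ ?_
      right
      right
      push_cast at hE ⊢
      linarith
    have q2 : ExT p r α' y k' σ t := by
      refine ih α' hα'r hs' k' (by omega) σ t hσ ?_
      right
      right
      push_cast at hE ⊢
      linarith
    have e1 : p - (k' + 1 + 1) = m' := by omega
    have e2 : A ^ (k' + 1 + 1) = A * A * B := by rw [hB]; ring
    have e3 : p - k' = m' + 1 + 1 := by omega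
    have e4 : Y * A ^ (m' + 1 + 1) = Y * A * A * C := by rw [hC]; ring
    unfold ExT at q1 q2 ⊢
    rw [← hA, e1, e2, eY, ← hC] at q1
    rw [← hA, e3, eY, e4, ← hB] at q2
    rw [hpk, hLm, hLk, eY]
    intro x hx z hz h1 h2
    have main := a9_step (wedge n (aK τ r)) (a9_del x₀) A B C T Y s₁ s₂ hTT hss hdd
      dA dB dC dY ds hTd (a9_del_del x₀) (fun σ t => (Gd X F τ p n σ t).toAddSubgroup) σ t (k' + 1)
      (fun σ t v hv => Gd_congr (by ring) (by ring) (Gd_smul mT hv))
      (fun σ t v hv => a9_del_Gd x₀ hv)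
      (fun σ t v hv => Gd_congr (by ring) (by ring) (Gd_smul mA hv))
      (fun σ t v hv => Gd_congr (by ring) (by ring) (Gd_smul (mA.mul mB) hv))
      (fun σ t v hv => Gd_congr (by ring) (by ring) (Gd_smul ms₁ hv))
      (fun σ t v hv => Gd_congr (by ring) (by ring) (Gd_smul ms₂ hv))
      (fun σ t v hv => Gd_congr (by ring) (by rw [hpz]; ring) (Gd_smul ((mY.mul mA).mul mC) hv))
      (fun x hx z hz h1 h2 => by
        obtain ⟨x', hx', z', hz', a1, a2⟩ := q1 x hx z
          (Gd_congr rfl (by push_cast; ring) hz) h1 h2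
        exact ⟨x', hx', z', Gd_congr rfl (by push_cast; ring) hz', a1, a2⟩)
      (fun x hx z hz h1 h2 => by
        obtain ⟨x', hx', z', hz', a1, a2⟩ := q2 x hx z
          (Gd_congr rfl (by ring) hz) h1 h2
        exact ⟨x', hx', z', Gd_congr rfl (by ring) hz', a1, a2⟩)
      x hx z (Gd_congr rfl (by push_cast; ring) hz) h1 h2
    obtain ⟨x', hx', z', hz', a1, a2⟩ := main
    exact ⟨x', hx', z', Gd_congr rfl (by push_cast; ring) hz', a1, a2⟩

open Classical in
theorem ExT_of (p : ℕ) [Fact p.Prime] [CharP F p] {τ : Type} {n : ℕ} (r : Fin n → X → F)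
    (y : MvPolynomial τ F) (hy0 : y ≠ 0) (hy : y ∈ HR F τ p 2 (-p))
    (hdiv : ∀ (σ s : ℤ) (g : MvPolynomial τ F), 0 < σ → g ∈ HR F τ p σ s →
      ∃ g' ∈ HR F τ p (σ - 2) (s + p), g = y * g')
    (θ : ℤ) (hK : ∀ σ t : ℤ, 2 * t + p * σ < θ → Ex (τ := τ) p r 0 σ t)
    (α : X → F) (hα : ∀ x, α x ≠ 0 → ∀ i, r i x = 0) (k : ℕ) (hk1 : 1 ≤ k) (hk2 : k ≤ p - 1)
    (σ t : ℤ) (hσ : (n : ℤ) < σ)
    (hE : 2 * t + p * σ < θ + ((Finset.univ.filter (fun x => α x ≠ 0)).card : ℤ) - ((k : ℤ) - 1)) :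
    ExT p r α y k σ t := by
  have hp := (Fact.out : p.Prime).pos
  exact a9_main p r y hy0 hy hdiv θ hK _ α hα
    ⟨Finset.univ.filter (fun x => α x ≠ 0), rfl, fun x => by simp⟩ k (by omega) σ t hσ
    (Or.inr (Or.inr hE))

end A9

end Pool.Agent.H443R2.AB
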