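import Mathlib
import Pool.Agent.H443R2.AB.Val

set_option autoImplicit false
set_option linter.unusedSectionVars false

/-!
# Invariance of exactness under row operations
-/

namespace Pool.Agent.H443R2.AB

open MvPolynomial SF

universe u

/-- `∑_{j<p} w^j v^(p-1-j) = (w - v)^(p-1)` in characteristic `p`. -/
theorem geom_char (p : ℕ) [hp : Fact p.Prime] {K : Type u} [CommRing K] [Algebra (ZMod p) K] (w v : K) :
    ∑ j ∈ Finset.range p, w ^ j * v ^ (p - 1 - j) = (w - v) ^ (p - 1) := by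
  have key : ∑ j ∈ Finset.range p, (X 0 : MvPolynomial (Fin 2) (ZMod p)) ^ j * (X 1) ^ (p - 1 - j) =
      (X 0 - X 1) ^ (p - 1) := by
    have hne : (X 0 - X 1 : MvPolynomial (Fin 2) (ZMod p)) ≠ 0 := by
      intro h
      have := (MvPolynomial.X_injective (σ := Fin 2) (R := ZMod p)) (sub_eq_zero.1 h)
      exact absurd this (by decide)
    apply mul_right_cancel₀ hne
    rw [(Commute.all _ _).geom_sum₂_mul, ← pow_succ, Nat.sub_add_cancel hp.out.pos, sub_pow_char]
  have := congrArg (MvPolynomial.aeval (R := ZMod p) ![w, v]) key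
  simpa [map_sum] using this

/-- `R = c ∑_{j<p-1} w^j v^(p-2-j)` -/
def RR {K : Type u} [CommRing K] (p : ℕ) (c v w : K) : K :=
  c * ∑ j ∈ Finset.range (p - 1), w ^ j * v ^ (p - 2 - j)

theorem RR_mul_u {K : Type u} [CommRing K] (p : ℕ) (c v u : K) :
    u * RR p c v (v + c * u) = (v + c * u) ^ (p - 1) - v ^ (p - 1) := by
  have := (Commute.all (v + c * u) v).geom_sum₂_mul (p - 1)
  rw [← this, RR]
  have : p - 1 - 1 = p - 2 := by omega
  simp only [this]
  ring

theorem RR_mul_w {K : Type u} [CommRing K] (p : ℕ) [hp : Fact p.Prime] [Algebra (ZMod p) K] (c v u : K) :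
    (v + c * u) * RR p c v (v + c * u) = c ^ p * u ^ (p - 1) - c * v ^ (p - 1) := by
  have h := geom_char p (v + c * u) v
  have h2 : (v + c * u - v) ^ (p - 1) = c ^ (p - 1) * u ^ (p - 1) := by
    rw [add_sub_cancel_left, mul_pow]
  rw [h2] at h
  have h3 : ∑ j ∈ Finset.range p, (v + c * u) ^ j * v ^ (p - 1 - j) =
      (v + c * u) * (∑ j ∈ Finset.range (p - 1), (v + c * u) ^ j * v ^ (p - 2 - j)) + v ^ (p - 1) := by
    obtain ⟨q, rfl⟩ : ∃ q, p = q + 1 := ⟨p - 1, by have := hp.out.pos; omega⟩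
    rw [Finset.sum_range_succ']
    simp only [Nat.add_sub_cancel, pow_zero, one_mul, Nat.sub_zero, Finset.mul_sum]
    congr 1
    refine Finset.sum_congr rfl fun j hj => ?_
    have : q - (j + 1) = q + 1 - 2 - j := by omega
    rw [this]; ring
  rw [h3] at h
  rw [RR]
  have h4 : c ^ p = c * c ^ (p - 1) := by
    rw [← pow_succ', Nat.sub_add_cancel hp.out.pos]
  rw [h4]
  linear_combination c * h

section

variable {X : Type} [DecidableEq X] {F : Type u} [Field F] {τ : Type}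

/-- Two complexes are isomorphic (by degree preserving maps). -/
def IsoC (p n : ℕ) (a b a' b' : Fin n → SF X (MvPolynomial τ F)) : Prop :=
  ∃ θ θ' : Mn (SF X (MvPolynomial τ F)) n → Mn (SF X (MvPolynomial τ F)) n,
    (∀ z, θ' (θ z) = z) ∧ (∀ z, θ (θ' z) = z) ∧ θ 0 = 0 ∧
    (∀ z, θ (DD n a b z) = DD n a' b' (θ z)) ∧
    (∀ σ t z, z ∈ Gd X F τ p n σ t → θ z ∈ Gd X F τ p n σ t) ∧
    (∀ σ t z, z ∈ Gd X F τ p n σ t → θ' z ∈ Gd X F τ p n σ t)

theorem IsoC.trans {p n : ℕ} {a b a' b' a'' b'' : Fin n → SF X (MvPolynomial τ F)}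
    (h : IsoC p n a b a' b') (h' : IsoC p n a' b' a'' b'') : IsoC p n a b a'' b'' := by
  obtain ⟨θ, θ', h1, h2, h3, h4, h5, h6⟩ := h
  obtain ⟨φ, φ', g1, g2, g3, g4, g5, g6⟩ := h'
  refine ⟨fun z => φ (θ z), fun z => θ' (φ' z), ?_, ?_, ?_, ?_, ?_, ?_⟩
  · intro z; simp only [g1, h1]
  · intro z; simp only [g2, h2]
  · simp only [g3, h3]
  · intro z; simp only [g4, h4]
  · intro σ t z hz; exact g5 _ _ _ (h5 _ _ _ hz)
  · intro σ t z hz; exact h6 _ _ _ (g6 _ _ _ hz)

theorem IsoC.symm {p n : ℕ} {a b a' b' : Fin n → SF X (MvPolynomial τ F)}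
    (h : IsoC p n a b a' b') : IsoC p n a' b' a b := by
  obtain ⟨θ, θ', h1, h2, h3, h4, h5, h6⟩ := h
  refine ⟨θ', θ, h2, h1, ?_, ?_, h6, h5⟩
  · have := h1 0
    rwa [h3] at this
  · intro z
    rw [← h1 (DD n a b (θ' z)), h4, h2]

theorem IsoC.moveI {p n : ℕ} (a b : Fin (n+1) → SF X (MvPolynomial τ F))
    (c : Fin n → SF X (MvPolynomial τ F)) (hc : ∀ i, HomMul p (c i) 0 0) :
    IsoC p (n+1) a b (Fin.cons (a 0) (fun i => a i.succ + a 0 * c i))
      (Fin.cons (b 0 - ∑ i, c i * b i.succ) (fun i => b i.succ)) := by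
  have hw : ∀ σ t (z : Mn (SF X (MvPolynomial τ F)) n), z ∈ Gd X F τ p n (σ - 1) (t + 1) →
      wedge n c z ∈ Gd X F τ p n σ t := fun σ t z hz =>
    Gd_congr (by ring) (by ring) (Gd_wedge hc hz)
  refine ⟨fun z => pr (fs z + wedge n c (sn z)) (sn z), fun z => pr (fs z - wedge n c (sn z)) (sn z),
    ?_, ?_, ?_, ?_, ?_, ?_⟩
  · intro z; apply ext_fs_sn <;> simp
  · intro z; apply ext_fs_sn <;> simp
  · apply ext_fs_sn <;> simp
  · intro z; exact AB.moveI n a b c z
  · intro σ t z hz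
    rw [mem_Gd_succ] at hz ⊢
    rw [fs_pr, sn_pr]
    exact ⟨Submodule.add_mem _ hz.1 (hw _ _ _ hz.2), hz.2⟩
  · intro σ t z hz
    rw [mem_Gd_succ] at hz ⊢
    rw [fs_pr, sn_pr]
    exact ⟨Submodule.sub_mem _ hz.1 (hw _ _ _ hz.2), hz.2⟩

theorem IsoC.moveII {p n : ℕ} (a b : Fin (n+1) → SF X (MvPolynomial τ F))
    (c : Fin n → SF X (MvPolynomial τ F)) (hc : ∀ i, HomMul p (c i) 0 0) :
    IsoC p (n+1) a b (Fin.cons (a 0 + ∑ i, a i.succ * c i) (fun i => a i.succ))
      (Fin.cons (b 0) (fun i => b i.succ + -(b 0) * c i)) := by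
  have hw : ∀ σ t (z : Mn (SF X (MvPolynomial τ F)) n), z ∈ Gd X F τ p n σ t →
      contr n c z ∈ Gd X F τ p n (σ - 1) (t + 1) := fun σ t z hz =>
    Gd_congr (by ring) (by ring) (Gd_contr hc hz)
  refine ⟨fun z => pr (fs z) (sn z + contr n c (fs z)), fun z => pr (fs z) (sn z - contr n c (fs z)),
    ?_, ?_, ?_, ?_, ?_, ?_⟩
  · intro z; apply ext_fs_sn <;> simp
  · intro z; apply ext_fs_sn <;> simp
  · apply ext_fs_sn <;> simp
  · intro z; exact AB.moveII n a b c z
  · intro σ t z hz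
    rw [mem_Gd_succ] at hz ⊢
    rw [fs_pr, sn_pr]
    exact ⟨hz.1, Submodule.add_mem _ hz.2 (hw _ _ _ hz.1)⟩
  · intro σ t z hz
    rw [mem_Gd_succ] at hz ⊢
    rw [fs_pr, sn_pr]
    exact ⟨hz.1, Submodule.sub_mem _ hz.2 (hw _ _ _ hz.1)⟩

theorem IsoC.moveB {p n : ℕ} (a b : Fin (n+1) → SF X (MvPolynomial τ F))
    (r : Fin n → SF X (MvPolynomial τ F)) (hr : ∀ i, HomMul p (r i) 2 (-2)) :
    IsoC p (n+1) a b a
      (Fin.cons (b 0 - ∑ i, a i.succ * r i) (fun i => b i.succ + a 0 * r i)) := by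
  have hw : ∀ σ t (z : Mn (SF X (MvPolynomial τ F)) n), z ∈ Gd X F τ p n (σ - 1) (t + 1) →
      contr n r z ∈ Gd X F τ p n σ t := fun σ t z hz =>
    Gd_congr (by ring) (by ring) (Gd_contr hr hz)
  refine ⟨fun z => pr (fs z + contr n r (sn z)) (sn z), fun z => pr (fs z - contr n r (sn z)) (sn z),
    ?_, ?_, ?_, ?_, ?_, ?_⟩
  · intro z; apply ext_fs_sn <;> simp
  · intro z; apply ext_fs_sn <;> simp
  · apply ext_fs_sn <;> simp
  · intro z; exact AB.moveB n a b r z
  · intro σ t z hz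
    rw [mem_Gd_succ] at hz ⊢
    rw [fs_pr, sn_pr]
    exact ⟨Submodule.add_mem _ hz.1 (hw _ _ _ hz.2), hz.2⟩
  · intro σ t z hz
    rw [mem_Gd_succ] at hz ⊢
    rw [fs_pr, sn_pr]
    exact ⟨Submodule.sub_mem _ hz.1 (hw _ _ _ hz.2), hz.2⟩

theorem Ex_of_IsoC [Fintype X] {p n : ℕ} {a a' : Fin n → X → F} {β β' : Fin n → MvPolynomial τ F}
    (h : IsoC p n (aK τ a) (bK p a β) (aK τ a') (bK p a' β')) {σ t : ℤ} (hE : Ex p a' β' σ t) :
    Ex p a β σ t := by
  obtain ⟨θ, θ', h1, h2, h3, h4, h5, h6⟩ := h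
  intro z hz hDz
  obtain ⟨u, hu, hDu⟩ := hE (θ z) (h5 _ _ _ hz) (by rw [DT, ← h4]; rw [DT] at hDz; rw [hDz, h3])
  refine ⟨θ' u, h6 _ _ _ hu, ?_⟩
  rw [DT] at hDu ⊢
  rw [← h1 (DD n (aK τ a) (bK p a β) (θ' u)), h4, h2, hDu, h1]

theorem homMul_algebraMap {p : ℕ} (c : F) :
    HomMul p (algebraMap F (SF X (MvPolynomial τ F)) c) 0 0 := by
  rw [Algebra.algebraMap_eq_smul_one]
  exact (HomMul.one).smul c

theorem homMul_RR {p : ℕ} (hp : 2 ≤ p) (c : F) {v w : SF X (MvPolynomial τ F)} (hv : HomMul p v 0 1)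
    (hw : HomMul p w 0 1) : HomMul p (RR p (algebraMap F _ c) v w) 0 (p - 2) := by
  rw [RR]
  refine ((homMul_algebraMap c).mul (HomMul.sum _ (i := 0) (j := (p:ℤ) - 2) fun j hj => ?_)).congr
    (by ring) (by ring)
  refine ((hw.pow j).mul (hv.pow (p - 2 - j))).congr (by ring) ?_
  have : j ≤ p - 2 := by have := Finset.mem_range.1 hj; omega
  push_cast [Nat.cast_sub this, Nat.cast_sub hp]; ring

/-- Type I: `c_i • (row 0)` is added to row `i+1`. -/
theorem isoC_I [Fintype X] {p : ℕ} [hp : Fact p.Prime] [CharP F p] {n : ℕ} (a : Fin (n+1) → X → F)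
    (β : Fin (n+1) → MvPolynomial τ F) (hβ : ∀ i, β i ∈ HR F τ p 2 (-p)) (c : Fin n → F) :
    IsoC p (n+1) (aK τ a) (bK p a β)
      (aK τ (Fin.cons (a 0) (fun i => a i.succ + c i • a 0) : Fin (n+1) → X → F))
      (bK p (Fin.cons (a 0) (fun i => a i.succ + c i • a 0) : Fin (n+1) → X → F)
        (Fin.cons (β 0 - ∑ i, (c i) ^ p • β i.succ) (fun i => β i.succ))) := by
  let _ : Algebra (ZMod p) F := ZMod.algebra F p
  let _ : Algebra (ZMod p) (SF X (MvPolynomial τ F)) :=
    ((algebraMap F (SF X (MvPolynomial τ F))).comp (algebraMap (ZMod p) F)).toAlgebra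
  set cc : Fin n → SF X (MvPolynomial τ F) := fun i => algebraMap F _ (c i) with hcc
  set r : Fin n → SF X (MvPolynomial τ F) := fun i =>
    β i.succ • RR p (cc i) (L (a i.succ)) (L (a i.succ) + cc i * L (a 0)) with hr
  have hL : ∀ i : Fin n, (L (a i.succ + c i • a 0) : SF X (MvPolynomial τ F)) =
      L (a i.succ) + cc i * L (a 0) := by
    intro i
    rw [L_add, L_smul, Algebra.smul_def]
  have h1 := IsoC.moveI (p := p) (aK τ a) (bK p a β) cc (fun i => homMul_algebraMap (c i))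
  have h2 := IsoC.moveB (p := p)
    (Fin.cons (aK τ a 0) (fun i => aK τ a i.succ + aK τ a 0 * cc i))
    (Fin.cons (bK p a β 0 - ∑ i, cc i * bK p a β i.succ) (fun i => bK p a β i.succ)) r
    (fun i => by
      have hv := homMul_L (τ := τ) (p := p) (a i.succ)
      have hw : HomMul p (L (a i.succ) + cc i * L (a 0) : SF X (MvPolynomial τ F)) 0 1 := by
        rw [← hL]; exact homMul_L _
      exact (homMul_smul_R (hβ i.succ) (homMul_RR hp.out.two_le (c i) hv hw)).congr (by ring) (by ring))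
  have h3 := h1.trans h2
  have e1 : (Fin.cons (aK τ a 0) (fun i => aK τ a i.succ + aK τ a 0 * cc i) :
      Fin (n+1) → SF X (MvPolynomial τ F)) =
      aK τ (Fin.cons (a 0) (fun i => a i.succ + c i • a 0) : Fin (n+1) → X → F) := by
    funext i
    refine Fin.cases ?_ (fun i => ?_) i
    · rfl
    · simp only [Fin.cons_succ, aK]
      rw [hL, mul_comm]
  have e2 : (Fin.cons ((Fin.cons (bK p a β 0 - ∑ i, cc i * bK p a β i.succ)
        (fun i => bK p a β i.succ) : Fin (n+1) → SF X (MvPolynomial τ F)) 0 -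
        ∑ i, (Fin.cons (aK τ a 0) (fun i => aK τ a i.succ + aK τ a 0 * cc i) :
          Fin (n+1) → SF X (MvPolynomial τ F)) (Fin.succ i) * r i)
        (fun i => (Fin.cons (bK p a β 0 - ∑ i, cc i * bK p a β i.succ)
        (fun i => bK p a β i.succ) : Fin (n+1) → SF X (MvPolynomial τ F)) (Fin.succ i) +
        (Fin.cons (aK τ a 0) (fun i => aK τ a i.succ + aK τ a 0 * cc i) :
          Fin (n+1) → SF X (MvPolynomial τ F)) 0 * r i) : Fin (n+1) → SF X (MvPolynomial τ F)) =
      bK p (Fin.cons (a 0) (fun i => a i.succ + c i • a 0) : Fin (n+1) → X → F)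
        (Fin.cons (β 0 - ∑ i, (c i) ^ p • β i.succ) (fun i => β i.succ)) := by
    funext i
    refine Fin.cases ?_ (fun i => ?_) i
    · simp only [Fin.cons_zero, Fin.cons_succ, bK, aK, hr]
      rw [sub_sub, ← Finset.sum_add_distrib, sub_smul, Finset.sum_smul]
      congr 1
      refine Finset.sum_congr rfl fun i _ => ?_
      have := RR_mul_w p (cc i) (L (a i.succ)) (L (a 0) : SF X (MvPolynomial τ F))
      rw [mul_comm (L (a 0)) (cc i), mul_smul_comm, mul_smul_comm, this, ← smul_add, smul_assoc,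
        smul_comm]
      congr 1
      rw [hcc, Algebra.smul_def, map_pow]; ring
    · simp only [Fin.cons_zero, Fin.cons_succ, bK, aK, hr]
      have := RR_mul_u p (cc i) (L (a i.succ)) (L (a 0) : SF X (MvPolynomial τ F))
      rw [mul_smul_comm, this, hL, ← smul_add]
      congr 1
      ring
  rw [e1] at h3
  rw [e1] at e2
  rw [e2] at h3
  exact h3

/-- Type II: `c • (row k+1)` is added to row `0`. -/
theorem isoC_II [Fintype X] {p : ℕ} [hp : Fact p.Prime] [CharP F p] {n : ℕ} (a : Fin (n+1) → X → F)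
    (β : Fin (n+1) → MvPolynomial τ F) (hβ : ∀ i, β i ∈ HR F τ p 2 (-p)) (k : Fin n) (c : F) :
    IsoC p (n+1) (aK τ a) (bK p a β)
      (aK τ (Fin.cons (a 0 + c • a k.succ) (fun i => a i.succ) : Fin (n+1) → X → F))
      (bK p (Fin.cons (a 0 + c • a k.succ) (fun i => a i.succ) : Fin (n+1) → X → F)
        (Fin.cons (β 0) (fun i => if i = k then β i.succ - c ^ p • β 0 else β i.succ))) := by
  let _ : Algebra (ZMod p) F := ZMod.algebra F p
  let _ : Algebra (ZMod p) (SF X (MvPolynomial τ F)) :=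
    ((algebraMap F (SF X (MvPolynomial τ F))).comp (algebraMap (ZMod p) F)).toAlgebra
  set c1 : SF X (MvPolynomial τ F) := algebraMap F _ c with hc1
  set cc : Fin n → SF X (MvPolynomial τ F) := fun i => if i = k then c1 else 0 with hcc
  set r : Fin n → SF X (MvPolynomial τ F) := fun i => if i = k then
    -(β 0 • RR p c1 (L (a 0)) (L (a 0) + c1 * L (a k.succ))) else 0 with hr
  have hL : (L (a 0 + c • a k.succ) : SF X (MvPolynomial τ F)) =
      L (a 0) + c1 * L (a k.succ) := by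
    rw [L_add, L_smul, Algebra.smul_def]
  have h1 := IsoC.moveII (p := p) (aK τ a) (bK p a β) cc (fun i => by
    simp only [hcc]
    split_ifs
    · exact homMul_algebraMap c
    · exact HomMul.zero)
  have h2 := IsoC.moveB (p := p)
    (Fin.cons (aK τ a 0 + ∑ i, aK τ a i.succ * cc i) (fun i => aK τ a i.succ))
    (Fin.cons (bK p a β 0) (fun i => bK p a β i.succ + -(bK p a β 0) * cc i)) r
    (fun i => by
      have hv := homMul_L (τ := τ) (p := p) (a 0)
      have hw : HomMul p (L (a 0) + c1 * L (a k.succ) : SF X (MvPolynomial τ F)) 0 1 := by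
        rw [← hL]; exact homMul_L _
      simp only [hr]
      split_ifs
      · exact ((homMul_smul_R (hβ 0) (homMul_RR hp.out.two_le c hv hw)).congr (by ring) (by ring)).neg
      · exact HomMul.zero)
  have h3 := h1.trans h2
  have e1 : (Fin.cons (aK τ a 0 + ∑ i, aK τ a i.succ * cc i) (fun i => aK τ a i.succ) :
      Fin (n+1) → SF X (MvPolynomial τ F)) =
      aK τ (Fin.cons (a 0 + c • a k.succ) (fun i => a i.succ) : Fin (n+1) → X → F) := by
    funext i
    refine Fin.cases ?_ (fun i => ?_) i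
    · simp only [Fin.cons_zero, aK, hcc, mul_ite, mul_zero, Finset.sum_ite_eq', Finset.mem_univ, if_true]
      rw [hL, mul_comm]
    · rfl
  have e2 : (Fin.cons ((Fin.cons (bK p a β 0)
        (fun i => bK p a β i.succ + -(bK p a β 0) * cc i) : Fin (n+1) → SF X (MvPolynomial τ F)) 0 -
        ∑ i, (Fin.cons (aK τ a 0 + ∑ i, aK τ a i.succ * cc i) (fun i => aK τ a i.succ) :
          Fin (n+1) → SF X (MvPolynomial τ F)) (Fin.succ i) * r i)
        (fun i => (Fin.cons (bK p a β 0)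
        (fun i => bK p a β i.succ + -(bK p a β 0) * cc i) : Fin (n+1) → SF X (MvPolynomial τ F))
        (Fin.succ i) +
        (Fin.cons (aK τ a 0 + ∑ i, aK τ a i.succ * cc i) (fun i => aK τ a i.succ) :
          Fin (n+1) → SF X (MvPolynomial τ F)) 0 * r i) : Fin (n+1) → SF X (MvPolynomial τ F)) =
      bK p (Fin.cons (a 0 + c • a k.succ) (fun i => a i.succ) : Fin (n+1) → X → F)
        (Fin.cons (β 0) (fun i => if i = k then β i.succ - c ^ p • β 0 else β i.succ)) := by
    rw [e1]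
    funext i
    refine Fin.cases ?_ (fun i => ?_) i
    · simp only [Fin.cons_zero, Fin.cons_succ, bK, aK, hr, mul_ite, mul_zero, Finset.sum_ite_eq',
        Finset.mem_univ, if_true]
      have := RR_mul_u p c1 (L (a 0)) (L (a k.succ) : SF X (MvPolynomial τ F))
      rw [mul_neg, mul_smul_comm, this, hL, sub_neg_eq_add, ← smul_add]
      congr 1
      ring
    · simp only [Fin.cons_zero, Fin.cons_succ, bK, aK, hr, hcc]
      by_cases hik : i = k
      · subst hik
        simp only [if_true]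
        have := RR_mul_w p c1 (L (a 0)) (L (a i.succ) : SF X (MvPolynomial τ F))
        rw [hL, mul_neg, mul_smul_comm, this, sub_smul, smul_sub, smul_assoc]
        rw [hc1, ← map_pow, ← Algebra.smul_def, ← Algebra.smul_def, smul_comm (c ^ p) (β 0), neg_mul,
          mul_comm (β 0 • (L (a 0) : SF X (MvPolynomial τ F)) ^ (p - 1)), ← Algebra.smul_def,
          smul_comm c (β 0)]
        abel
      · simp only [if_neg hik, mul_zero, add_zero]
  rw [e2] at h3
  rw [e1] at h3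
  exact h3

end

end Pool.Agent.H443R2.AB
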