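import Mathlib
import Pool.Agent.H443R2.AB.Inv

set_option autoImplicit false
set_option linter.unusedSectionVars false

/-!
# Diagram chases for the reduction modulo a linear form
-/

namespace Pool.Agent.H443R2.AB

open MvPolynomial SF

universe u

section mapM

variable {K K' : Type u} [CommRing K] [CommRing K'] (φ : K →+* K')

/-- entrywise map -/
def mapM {n : ℕ} (z : Mn K n) : Mn K' n := fun S => φ (z S)

theorem fs_mapM {n : ℕ} (z : Mn K (n+1)) : fs (mapM φ z) = mapM φ (fs z) := rfl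
theorem sn_mapM {n : ℕ} (z : Mn K (n+1)) : sn (mapM φ z) = mapM φ (sn z) := rfl
theorem mapM_add {n : ℕ} (z w : Mn K n) : mapM φ (z + w) = mapM φ z + mapM φ w := by
  funext S; simp [mapM]
theorem mapM_sub {n : ℕ} (z w : Mn K n) : mapM φ (z - w) = mapM φ z - mapM φ w := by
  funext S; simp [mapM]
theorem mapM_neg {n : ℕ} (z : Mn K n) : mapM φ (-z) = -mapM φ z := by
  funext S; simp [mapM]
theorem mapM_zero {n : ℕ} : mapM φ (0 : Mn K n) = 0 := by
  funext S; simp [mapM]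
theorem mapM_smul {n : ℕ} (k : K) (z : Mn K n) : mapM φ (k • z) = φ k • mapM φ z := by
  funext S; simp [mapM]

theorem mapM_wedge : ∀ (n : ℕ) (a : Fin n → K) (z : Mn K n),
    mapM φ (wedge n a z) = wedge n (fun i => φ (a i)) (mapM φ z)
  | 0, _, _ => by rw [wedge_0, wedge_0, mapM_zero]
  | n+1, a, z => by
    apply ext_fs_sn
    · rw [fs_mapM, fs_wedge, fs_wedge, mapM_wedge n, fs_mapM]
    · rw [sn_mapM, sn_wedge, sn_wedge, mapM_sub, mapM_wedge n, mapM_smul, sn_mapM, fs_mapM]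

theorem mapM_contr : ∀ (n : ℕ) (a : Fin n → K) (z : Mn K n),
    mapM φ (contr n a z) = contr n (fun i => φ (a i)) (mapM φ z)
  | 0, _, _ => by rw [contr_0, contr_0, mapM_zero]
  | n+1, a, z => by
    apply ext_fs_sn
    · rw [fs_mapM, fs_contr, fs_contr, mapM_add, mapM_contr n, mapM_smul, fs_mapM, sn_mapM]
    · rw [sn_mapM, sn_contr, sn_contr, mapM_neg, mapM_contr n, sn_mapM]

theorem mapM_DD (n : ℕ) (a b : Fin n → K) (z : Mn K n) :
    mapM φ (DD n a b z) = DD n (fun i => φ (a i)) (fun i => φ (b i)) (mapM φ z) := by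
  rw [DD_apply, DD_apply, mapM_add, mapM_wedge, mapM_contr]

end mapM

section red

variable {X : Type} [DecidableEq X] [Fintype X] {F : Type u} [Field F] {p : ℕ} {τ τ' : Type}

/-- reduction modulo `y` -/
noncomputable def Red.rho (r : Red F p τ τ') {n : ℕ} (z : Mn (SF X (MvPolynomial τ F)) n) :
    Mn (SF X (MvPolynomial τ' F)) n := mapM (SF.map (r.π : MvPolynomial τ F →+* MvPolynomial τ' F)) z

/-- lift -/
noncomputable def Red.lift (r : Red F p τ τ') {n : ℕ} (z : Mn (SF X (MvPolynomial τ' F)) n) :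
    Mn (SF X (MvPolynomial τ F)) n := mapM (SF.map (r.ι : MvPolynomial τ' F →+* MvPolynomial τ F)) z

theorem Red.rho_lift (r : Red F p τ τ') {n : ℕ} (z : Mn (SF X (MvPolynomial τ' F)) n) :
    r.rho (r.lift z) = z := by
  funext S
  refine SF.ext fun T => ?_
  exact r.π_ι _

theorem Red.rho_sub (r : Red F p τ τ') {n : ℕ} (z w : Mn (SF X (MvPolynomial τ F)) n) :
    r.rho (z - w) = r.rho z - r.rho w := mapM_sub _ _ _

theorem Red.rho_zero (r : Red F p τ τ') {n : ℕ} :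
    r.rho (0 : Mn (SF X (MvPolynomial τ F)) n) = 0 := mapM_zero _

theorem Red.rho_smul (r : Red F p τ τ') {n : ℕ} (z : Mn (SF X (MvPolynomial τ F)) n) :
    r.rho (r.y • z) = 0 := by
  funext S
  refine SF.ext fun T => ?_
  change r.π (cf (r.y • z S) T) = 0
  rw [SF.smul_apply, smul_eq_mul, map_mul, r.π_y, zero_mul]

theorem Red.rho_DT (r : Red F p τ τ') {n : ℕ} (a : Fin n → X → F) (β : Fin n → MvPolynomial τ F)
    (z : Mn (SF X (MvPolynomial τ F)) n) :
    r.rho (DT p a β z) = DT p a (fun i => r.π (β i)) (r.rho z) := by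
  rw [Red.rho, DT, mapM_DD, DT]
  have e1 : (fun i => SF.map (r.π : MvPolynomial τ F →+* MvPolynomial τ' F) (aK τ a i)) = aK τ' a := by
    funext i
    exact map_L r.π (a i)
  have e2 : (fun i => SF.map (r.π : MvPolynomial τ F →+* MvPolynomial τ' F) (bK p a β i)) =
      bK p a (fun i => r.π (β i)) := by
    funext i
    rw [bK, bK, ← map_L r.π (a i), ← map_pow]
    refine SF.ext fun T => ?_
    rw [SF.map_apply, SF.smul_apply, SF.smul_apply, SF.map_apply, smul_eq_mul, smul_eq_mul, map_mul]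
    rfl
  rw [e1, e2]
  rfl

theorem Red.rho_mem (r : Red F p τ τ') {n : ℕ} {σ t : ℤ} {z : Mn (SF X (MvPolynomial τ F)) n}
    (hz : z ∈ Gd X F τ p n σ t) : r.rho z ∈ Gd X F τ' p n σ t :=
  fun S T => r.π_mem _ _ _ (hz S T)

theorem Red.lift_mem (r : Red F p τ τ') {n : ℕ} {σ t : ℤ} {z : Mn (SF X (MvPolynomial τ' F)) n}
    (hz : z ∈ Gd X F τ' p n σ t) : r.lift z ∈ Gd X F τ p n σ t :=
  fun S T => r.ι_mem _ _ _ (hz S T)

theorem Red.ker_mem (r : Red F p τ τ') {n : ℕ} {σ t : ℤ} {z : Mn (SF X (MvPolynomial τ F)) n}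
    (hz : z ∈ Gd X F τ p n (σ + 2) (t - p)) (h0 : r.rho z = 0) :
    ∃ w ∈ Gd X F τ p n σ t, z = r.y • w := by
  have h : ∀ S T, ∃ g ∈ HR F τ p (σ - cS S) (t + cS S - T.card), cf (z S) T = r.y * g := by
    intro S T
    have h1 := hz S T
    have h2 : cf (z S) T ∈ HR F τ p (σ - cS S + 2) (t + cS S - T.card - p) :=
      HR_congr (by ring) (by ring) h1
    refine r.ker _ _ _ h2 ?_
    have := congrFun h0 S
    exact congrArg (fun f => cf f T) this
  choose g hg1 hg2 using h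
  refine ⟨fun S => mkSF (g S), fun S T => hg1 S T, ?_⟩
  funext S
  refine SF.ext fun T => ?_
  rw [Pi.smul_apply, SF.smul_apply, cf_mkSF, smul_eq_mul, hg2]

theorem smul_y_inj {y : MvPolynomial τ F} (hy : y ≠ 0) {n : ℕ} {z w : Mn (SF X (MvPolynomial τ F)) n}
    (h : y • z = y • w) : z = w := by
  funext S
  refine SF.ext fun T => ?_
  have := congrArg (fun f => cf (f S) T) h
  simp only [Pi.smul_apply, SF.smul_apply, smul_eq_mul] at this
  exact mul_left_cancel₀ hy this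

theorem DT_smul_R {n : ℕ} (a : Fin n → X → F) (β : Fin n → MvPolynomial τ F) (y : MvPolynomial τ F)
    (z : Mn (SF X (MvPolynomial τ F)) n) : DT p a β (y • z) = y • DT p a β z :=
  (DT p a β).map_smul_of_tower y z

theorem Gd_smul_y {y : MvPolynomial τ F} (hy : y ∈ HR F τ p 2 (-p)) {n : ℕ} {σ t : ℤ}
    {z : Mn (SF X (MvPolynomial τ F)) n} (hz : z ∈ Gd X F τ p n σ t) :
    y • z ∈ Gd X F τ p n (σ + 2) (t - p) := by
  intro S T
  have := HR_mul hy (hz S T)
  exact HR_congr (by ring) (by ring) this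

variable [hp : Fact p.Prime] [CharP F p]

theorem chaseA (r : Red F p τ τ') {n : ℕ} (a : Fin n → X → F) (β : Fin n → MvPolynomial τ F)
    (hβ : ∀ i, β i ∈ HR F τ p 2 (-p)) {σ t : ℤ}
    (hE : Ex p a (fun i => r.π (β i)) (σ + 1) (t - p))
    {z u : Mn (SF X (MvPolynomial τ F)) n}
    (hu : u ∈ Gd X F τ p n (σ + 1) (t - p)) (hzu : DT p a β u = r.y • z) :
    ∃ v ∈ Gd X F τ p n (σ - 1) t, DT p a β v = z := by
  obtain ⟨v', hv', hDv'⟩ := hE (r.rho u) (r.rho_mem hu) (by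
    rw [← r.rho_DT, hzu, r.rho_smul])
  have hv : r.lift v' ∈ Gd X F τ p n (σ + 1 - 1) (t - p) := r.lift_mem hv'
  have h1 : r.rho (u - DT p a β (r.lift v')) = 0 := by
    rw [r.rho_sub, r.rho_DT, r.rho_lift, hDv', sub_self]
  obtain ⟨w, hw, hw2⟩ := r.ker_mem (σ := σ - 1) (t := t)
    (Gd_congr (by ring) rfl (Submodule.sub_mem _ hu (Gd_congr (by ring) rfl (Gd_DT hp.out.pos hβ hv)))) h1
  refine ⟨w, hw, ?_⟩
  apply smul_y_inj r.y_ne
  rw [← DT_smul_R, ← hw2, map_sub, DT_DT, sub_zero, hzu]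

theorem chaseB (r : Red F p τ τ') {n : ℕ} (a : Fin n → X → F) (β : Fin n → MvPolynomial τ F)
    (hβ : ∀ i, β i ∈ HR F τ p 2 (-p)) {σ t : ℤ}
    (hE : Ex p a (fun i => r.π (β i)) (σ + 2) (t - p))
    {z : Mn (SF X (MvPolynomial τ F)) n}
    (hz : z ∈ Gd X F τ p n (σ + 2) (t - p)) (hDz : DT p a β z = 0) :
    ∃ w ∈ Gd X F τ p n σ t, DT p a β w = 0 ∧
      ∃ v ∈ Gd X F τ p n (σ + 1) (t - p), z = r.y • w + DT p a β v := by
  obtain ⟨v', hv', hDv'⟩ := hE (r.rho z) (r.rho_mem hz) (by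
    rw [← r.rho_DT, hDz, r.rho_zero])
  have hv : r.lift v' ∈ Gd X F τ p n (σ + 2 - 1) (t - p) := r.lift_mem hv'
  have h1 : r.rho (z - DT p a β (r.lift v')) = 0 := by
    rw [r.rho_sub, r.rho_DT, r.rho_lift, hDv', sub_self]
  obtain ⟨w, hw, hw2⟩ := r.ker_mem (σ := σ) (t := t)
    (Submodule.sub_mem _ hz (Gd_congr (by ring) rfl (Gd_DT hp.out.pos hβ hv))) h1
  refine ⟨w, hw, ?_, r.lift v', Gd_congr (by ring) rfl hv, ?_⟩
  · apply smul_y_inj r.y_ne
    rw [← DT_smul_R, ← hw2, map_sub, DT_DT, hDz, sub_zero, smul_zero]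
  · rw [← hw2]; abel

theorem chaseC (r : Red F p τ τ') {n : ℕ} (a : Fin n → X → F) (β : Fin n → MvPolynomial τ F)
    (hβ : ∀ i, β i ∈ HR F τ p 2 (-p)) {σ t : ℤ}
    (hE1 : Ex p a β (σ - 1) (t + p)) (hE2 : Ex p a β σ t) :
    Ex p a (fun i => r.π (β i)) σ t := by
  intro z' hz' hDz'
  have hz : r.lift z' ∈ Gd X F τ p n σ t := r.lift_mem hz'
  have h1 : r.rho (DT p a β (r.lift z')) = 0 := by
    rw [r.rho_DT, r.rho_lift, hDz']
  obtain ⟨w, hw, hw2⟩ := r.ker_mem (σ := σ - 1) (t := t + p)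
    (Gd_congr (by ring) (by ring) (Gd_DT hp.out.pos hβ hz)) h1
  have hDw : DT p a β w = 0 := by
    apply smul_y_inj r.y_ne
    rw [← DT_smul_R, ← hw2, DT_DT, smul_zero]
  obtain ⟨v, hv, hDv⟩ := hE1 w hw hDw
  have h2 : DT p a β (r.lift z' - r.y • v) = 0 := by
    rw [map_sub, DT_smul_R, hDv, hw2, sub_self]
  obtain ⟨u, hu, hDu⟩ := hE2 (r.lift z' - r.y • v)
    (Submodule.sub_mem _ hz (Gd_congr (by ring) (by ring) (Gd_smul_y r.y_mem hv))) h2
  refine ⟨r.rho u, r.rho_mem hu, ?_⟩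
  rw [← r.rho_DT, hDu, r.rho_sub, r.rho_lift, r.rho_smul, sub_zero]

end red

end Pool.Agent.H443R2.AB
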