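import Mathlib
import Pool.Agent.H443R2.AB.Chase
import Pool.Agent.H443R2.AB.A1
import Pool.Agent.H443R2.AB.A2
import Pool.Agent.H443R2.AB.A3

set_option autoImplicit false
set_option linter.unusedSectionVars false

/-!
# The induction step (m ≥ 2)
-/

namespace Pool.Agent.H443R2.AB

open MvPolynomial SF

universe u

section eig

variable {F : Type u} [Field F] [IsAlgClosed F] {V : Type u} [AddCommGroup V] [Module F V]

/-- eigenvalue argument -/
theorem eig_lemma (Z B Z' B' : Submodule F V) (hZ : Module.Finite F Z) (f0 f1 : V →ₗ[F] V)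
    (hf0 : ∀ z ∈ Z, f0 z ∈ Z') (hf1 : ∀ z ∈ Z, f1 z ∈ Z')
    (hb0 : ∀ z ∈ B, f0 z ∈ B') (hb1 : ∀ z ∈ B, f1 z ∈ B')
    (inj0 : ∀ z ∈ Z, f0 z ∈ B' → z ∈ B)
    (inj : ∀ l : F, ∀ z ∈ Z, f1 z - l • f0 z ∈ B' → z ∈ B)
    (surj : ∀ z' ∈ Z', ∃ w ∈ Z, z' - f0 w ∈ B') : Z ≤ B := by
  classical
  set b : Submodule F Z := B.comap Z.subtype with hb
  set b' : Submodule F Z' := B'.comap Z'.subtype with hb'
  let g0 : Z →ₗ[F] Z' := f0.restrict hf0
  let g1 : Z →ₗ[F] Z' := f1.restrict hf1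
  have hg0 : b ≤ b'.comap g0 := fun z hz => hb0 z hz
  have hg1 : b ≤ b'.comap g1 := fun z hz => hb1 z hz
  let q0 : (Z ⧸ b) →ₗ[F] (Z' ⧸ b') := b.mapQ b' g0 hg0
  let q1 : (Z ⧸ b) →ₗ[F] (Z' ⧸ b') := b.mapQ b' g1 hg1
  have hinj : Function.Injective q0 := by
    rw [injective_iff_map_eq_zero]
    intro x hx
    obtain ⟨z, rfl⟩ := b.mkQ_surjective x
    simp only [q0, Submodule.mkQ_apply, Submodule.mapQ_apply, Submodule.Quotient.mk_eq_zero] at hx ⊢
    exact inj0 z z.2 hx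
  have hsurj : Function.Surjective q0 := by
    intro x
    obtain ⟨z', rfl⟩ := b'.mkQ_surjective x
    obtain ⟨w, hw, hw2⟩ := surj z' z'.2
    refine ⟨b.mkQ ⟨w, hw⟩, ?_⟩
    simp only [q0, Submodule.mkQ_apply, Submodule.mapQ_apply]
    symm
    rw [Submodule.Quotient.eq]
    exact hw2
  let e := LinearEquiv.ofBijective q0 ⟨hinj, hsurj⟩
  let T : Module.End F (Z ⧸ b) := e.symm.toLinearMap ∘ₗ q1
  by_contra hne
  have hnt : Nontrivial (Z ⧸ b) := by
    rw [Submodule.Quotient.nontrivial_iff]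
    intro htop
    apply hne
    intro z hz
    have : (⟨z, hz⟩ : Z) ∈ b := by rw [htop]; trivial
    exact this
  obtain ⟨l, hl⟩ := Module.End.exists_eigenvalue T
  obtain ⟨v, hv⟩ := hl.exists_hasEigenvector
  have hv1 : T v = l • v := hv.apply_eq_smul
  have hv2 : q1 v = l • q0 v := by
    have := congrArg e hv1
    simp only [T, LinearMap.comp_apply, LinearEquiv.coe_coe, LinearEquiv.apply_symm_apply, map_smul] at this
    exact this
  obtain ⟨z, rfl⟩ := b.mkQ_surjective v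
  apply hv.2
  rw [Submodule.mkQ_apply, Submodule.Quotient.mk_eq_zero]
  refine inj l z z.2 ?_
  rw [← sub_eq_zero] at hv2
  simp only [q0, q1, Submodule.mkQ_apply, Submodule.mapQ_apply] at hv2
  rw [← Submodule.Quotient.mk_smul, ← Submodule.Quotient.mk_sub, Submodule.Quotient.mk_eq_zero] at hv2
  exact hv2

end eig

variable {X : Type} [DecidableEq X] [Fintype X] {F : Type u} [Field F]

theorem cone_Ex {p : ℕ} {τ : Type} {n : ℕ} (a : Fin (n+1) → X → F)
    (β : Fin (n+1) → MvPolynomial τ F) (h0 : β 0 = 0) {σ t : ℤ}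
    (h1 : Ex p (fun i => a i.succ) (fun i => β i.succ) σ t)
    (h2 : Ex p (fun i => a i.succ) (fun i => β i.succ) (σ - 1) (t + 1)) :
    Ex p a β σ t := by
  intro z hz hDz
  rw [mem_Gd_succ] at hz
  have hf := congrArg fs hDz
  have hs := congrArg sn hDz
  rw [DT, fs_DD, fs_zero] at hf
  rw [DT, sn_DD, sn_zero] at hs
  have hb0 : bK p a β 0 = 0 := by rw [bK, h0, zero_smul]
  rw [hb0, zero_smul, add_zero] at hf
  have hK : DD n (fun i => aK τ a i.succ) (fun i => bK p a β i.succ) =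
    DT p (fun i => a i.succ) (fun i => β i.succ) := rfl
  rw [hK] at hf hs
  obtain ⟨w, hw, hDw⟩ := h1 _ hz.1 hf
  have hLw : aK τ a 0 • w ∈ Gd X F τ p n (σ - 1) (t + 1) :=
    Gd_congr (by ring) (by ring) (Gd_smul (homMul_L (τ := τ) (p := p) (a 0)) hw)
  obtain ⟨w', hw', hDw'⟩ := h2 (sn z - aK τ a 0 • w) (Submodule.sub_mem _ hz.2 hLw) (by
    rw [map_sub, map_smul, hDw, ← sub_eq_zero.1 hs, sub_self])
  refine ⟨pr w (-w'), ?_, ?_⟩
  · rw [mem_Gd_succ, fs_pr, sn_pr]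
    exact ⟨hw, Submodule.neg_mem _ hw'⟩
  · apply ext_fs_sn
    · rw [DT, fs_DD, fs_pr, sn_pr, hb0, zero_smul, add_zero, hK, hDw]
    · rw [DT, sn_DD, fs_pr, sn_pr, hK, map_neg, hDw']
      abel

theorem coeff_of_lin {p : ℕ} {τ : Type} {y : MvPolynomial τ F} (hy : y ∈ HR F τ p 2 (-p)) (h0 : y ≠ 0) :
    ∃ j, coeff (Finsupp.single j 1) y ≠ 0 := by
  obtain ⟨u, hu⟩ := MvPolynomial.exists_coeff_ne_zero h0
  have h1 := (hy u hu).1
  have h2 : u.degree = 1 := by omega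
  obtain ⟨j, hj⟩ : ∃ j, u = Finsupp.single j 1 := by
    have hu0 : u ≠ 0 := by rintro rfl; simp at h2
    obtain ⟨j, hj⟩ := Finsupp.ne_iff.1 hu0
    refine ⟨j, ?_⟩
    have h3 : Finsupp.single j 1 ≤ u := by
      rw [Finsupp.single_le_iff]
      exact Nat.one_le_iff_ne_zero.2 hj
    obtain ⟨v, rfl⟩ := le_iff_exists_add.1 h3
    have h4 : v.degree = 0 := by
      rw [map_add, Finsupp.degree_single] at h2; omega
    rw [Finsupp.degree_eq_zero_iff] at h4
    rw [h4, add_zero]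
  exact ⟨j, hj ▸ hu⟩

theorem X_mem_lin {p : ℕ} {τ : Type} (j : τ) : (MvPolynomial.X j : MvPolynomial τ F) ∈ HR F τ p 2 (-p) := by
  have := HR_of_hom (p := p) (MvPolynomial.isHomogeneous_X F j)
  exact HR_congr (by ring) (by ring) this

/-- Proposition for `n` rows and variables `τ` -/
def PropAt (X : Type) [DecidableEq X] [Fintype X] (F : Type u) [Field F] (p n : ℕ) (τ : Type) [Fintype τ] :
    Prop :=
  ∀ (a : Fin n → X → F) (β : Fin n → MvPolynomial τ F), (∀ i, β i ∈ HR F τ p 2 (-p)) →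
    HR F τ p 2 (-p) ≤ Submodule.span F (Set.range β) →
    ∀ σ t : ℤ, (n : ℤ) - Fintype.card τ + 1 ≤ σ →
      Good p a (2 * t + p * σ + p * ((n : ℤ) - Fintype.card τ)) → Ex p a β σ t

theorem Red.span {p : ℕ} {τ τ' : Type} (r : Red F p τ τ') {n : ℕ} {β : Fin n → MvPolynomial τ F}
    (h : HR F τ p 2 (-p) ≤ Submodule.span F (Set.range β)) :
    HR F τ' p 2 (-p) ≤ Submodule.span F (Set.range fun i => r.π (β i)) := by
  intro x hx
  have h1 := h (r.ι_mem _ _ _ hx)
  have h2 : r.π (r.ι x) ∈ (Submodule.span F (Set.range β)).map (r.π : MvPolynomial τ F →ₐ[F] MvPolynomial τ' F).toLinearMap :=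
    Submodule.mem_map_of_mem h1
  rw [Submodule.map_span, ← Set.range_comp, r.π_ι] at h2
  exact h2

theorem Good_mono {p : ℕ} {n : ℕ} {a : Fin n → X → F} {e e' : ℤ} (h : Good p a e) (he : e' ≤ e) :
    Good p a e' := fun W hW => lt_of_le_of_lt he (h W hW)

/-- the reduction modulo a linear form -/
theorem exists_red' (p : ℕ) {τ : Type} [Fintype τ] (y : MvPolynomial τ F)
    (hy : y ∈ HR F τ p 2 (-p)) (h0 : y ≠ 0) :
    ∃ (τ' : Type) (_ : Fintype τ'), Fintype.card τ' + 1 = Fintype.card τ ∧ ∃ r : Red F p τ τ', r.y = y := by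
  classical
  obtain ⟨j, hj⟩ := coeff_of_lin hy h0
  obtain ⟨r, hr, -⟩ := exists_red p (τ' := {i : τ // i ≠ j}) (fun i => i.1) Subtype.val_injective j
    (by rintro ⟨i, hi⟩; exact i.2 hi) (fun i => by
      by_cases h : i = j
      · exact Or.inl h
      · exact Or.inr ⟨⟨i, h⟩, rfl⟩) y hy hj
  refine ⟨{i : τ // i ≠ j}, inferInstance, ?_, r, hr⟩
  rw [Fintype.card_subtype_compl, Fintype.card_subtype_eq]
  have : 0 < Fintype.card τ := Fintype.card_pos_iff.2 ⟨j⟩
  omega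

theorem step_m {p : ℕ} [hp : Fact p.Prime] [CharP F p] [IsAlgClosed F] (n m : ℕ) (hm : 1 ≤ m)
    (ih1 : ∀ (τ : Type) [Fintype τ], Fintype.card τ = m → PropAt X F p (n+1) τ)
    (ih2 : ∀ (τ : Type) [Fintype τ], Fintype.card τ = m → PropAt X F p n τ)
    (τ : Type) [Fintype τ] (hτ : Fintype.card τ = m + 1) : PropAt X F p (n+1) τ := by
  classical
  intro a β hβ hspan σ t hσ hG
  rw [hτ] at hσ hG
  -- (a) injectivity
  have hA : ∀ y : MvPolynomial τ F, y ∈ HR F τ p 2 (-p) → y ≠ 0 → ∀ z u : Mn (SF X (MvPolynomial τ F)) (n+1),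
      u ∈ Gd X F τ p (n+1) (σ + 1) (t - p) → DT p a β u = y • z →
      ∃ v ∈ Gd X F τ p (n+1) (σ - 1) t, DT p a β v = z := by
    intro y hy hy0 z u hu hzu
    obtain ⟨τ', _, hcard, r, rfl⟩ := exists_red' p y hy hy0
    refine chaseA r a β hβ ?_ hu hzu
    have hc : Fintype.card τ' = m := by omega
    refine ih1 τ' hc a _ (fun i => r.π_mem _ _ _ (hβ i)) (r.span hspan) _ _ ?_ ?_
    · rw [hc]; push_cast at hσ ⊢; linarith
    · rw [hc]; refine Good_mono hG (le_of_eq ?_); push_cast; ring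
  -- the generic direction
  have hne : β ≠ 0 := by
    rintro rfl
    obtain ⟨j⟩ : Nonempty τ := Fintype.card_pos_iff.1 (by omega)
    have h1 := hspan (X_mem_lin j)
    have h2 : Set.range (0 : Fin (n+1) → MvPolynomial τ F) = {0} := by
      ext x; simp [eq_comm]
    rw [h2, Submodule.span_zero_singleton, Submodule.mem_bot] at h1
    exact MvPolynomial.X_ne_zero j h1
  have : Infinite F := IsAlgClosed.instInfinite
  obtain ⟨c, hc0, hcG⟩ := exists_generic p a β hne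
  set y0 : MvPolynomial τ F := β 0 - ∑ i, (c i) ^ p • β i.succ with hy0
  have hy0mem : y0 ∈ HR F τ p 2 (-p) :=
    Submodule.sub_mem _ (hβ 0) (Submodule.sum_mem _ fun i _ => Submodule.smul_mem _ _ (hβ i.succ))
  -- (b) surjectivity
  have hB : ∀ z ∈ Gd X F τ p (n+1) (σ + 2) (t - p), DT p a β z = 0 →
      ∃ w ∈ Gd X F τ p (n+1) σ t, DT p a β w = 0 ∧
      ∃ v ∈ Gd X F τ p (n+1) (σ + 1) (t - p), z = y0 • w + DT p a β v := by
    intro z hz hDz
    obtain ⟨τ', _, hcard, r, hr⟩ := exists_red' p y0 hy0mem hc0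
    rw [← hr]
    refine chaseB r a β hβ ?_ hz hDz
    have hc : Fintype.card τ' = m := by omega
    have hβ' : ∀ i, r.π (β i) ∈ HR F τ' p 2 (-p) := fun i => r.π_mem _ _ _ (hβ i)
    have hiso := isoC_I a (fun i => r.π (β i)) hβ' c
    refine Ex_of_IsoC hiso ?_
    have hz0 : r.π (β 0) - ∑ i, (c i) ^ p • r.π (β i.succ) = 0 := by
      have := r.π_y
      rw [hr, hy0, map_sub, map_sum] at this
      simpa using this
    have hspan' : HR F τ' p 2 (-p) ≤ Submodule.span F (Set.range fun i : Fin n => r.π (β i.succ)) := by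
      refine (r.span hspan).trans ?_
      rw [Submodule.span_le]
      rintro x ⟨i, rfl⟩
      refine Fin.cases ?_ (fun i => ?_) i
      · simp only [SetLike.mem_coe]
        rw [sub_eq_zero.1 hz0]
        exact Submodule.sum_mem _ fun i _ => Submodule.smul_mem _ _ (Submodule.subset_span ⟨i, rfl⟩)
      · exact Submodule.subset_span ⟨i, rfl⟩
    refine cone_Ex _ _ (by simpa using hz0) ?_ ?_
    · refine ih2 τ' hc (fun i => a i.succ + c i • a 0) (fun i => r.π (β i.succ)) (fun i => hβ' _) hspan' _ _ ?_ ?_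
      · rw [hc]; push_cast at hσ ⊢; linarith
      · rw [hc]; refine Good_mono (hcG _ hG) (le_of_eq ?_); push_cast; ring
    · refine ih2 τ' hc (fun i => a i.succ + c i • a 0) (fun i => r.π (β i.succ)) (fun i => hβ' _) hspan' _ _ ?_ ?_
      · rw [hc]; push_cast at hσ ⊢; linarith
      · rw [hc]; refine Good_mono (hcG _ hG) ?_
        have : (2:ℤ) ≤ p := by exact_mod_cast hp.out.two_le
        push_cast; nlinarith
  -- a second linear form, independent of y0
  obtain ⟨y1, hy1mem, hy1⟩ : ∃ y1 : MvPolynomial τ F, y1 ∈ HR F τ p 2 (-p) ∧ ∀ l : F, y1 - l • y0 ≠ 0 := by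
    obtain ⟨i, j, hij⟩ : ∃ i j : τ, i ≠ j := by
      have : 1 < Fintype.card τ := by omega
      exact Fintype.exists_pair_of_one_lt_card this
    by_contra hcon
    push Not at hcon
    obtain ⟨l, hl⟩ := hcon (MvPolynomial.X i) (X_mem_lin i)
    obtain ⟨l', hl'⟩ := hcon (MvPolynomial.X j) (X_mem_lin j)
    rw [sub_eq_zero] at hl hl'
    have hl0 : l ≠ 0 := by
      rintro rfl
      rw [zero_smul] at hl
      exact MvPolynomial.X_ne_zero i hl
    have h3 : (MvPolynomial.X j : MvPolynomial τ F) = (l' * l⁻¹) • MvPolynomial.X i := by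
      rw [hl, hl', smul_smul, mul_assoc, inv_mul_cancel₀ hl0, mul_one]
    have h4 := congrArg (coeff (Finsupp.single j 1)) h3
    rw [coeff_smul, coeff_X, coeff_X'] at h4
    rw [if_neg (fun h => hij (Finsupp.single_left_injective one_ne_zero h))] at h4
    simp at h4
  -- conclusion by the eigenvalue argument
  set D : Mn (SF X (MvPolynomial τ F)) (n+1) →ₗ[F] Mn (SF X (MvPolynomial τ F)) (n+1) :=
    (DT p a β).restrictScalars F with hD
  set Z : Submodule F (Mn (SF X (MvPolynomial τ F)) (n+1)) := Gd X F τ p (n+1) σ t ⊓ LinearMap.ker D with hZ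
  set B := (Gd X F τ p (n+1) (σ - 1) t).map D with hBdef
  set Z' : Submodule F (Mn (SF X (MvPolynomial τ F)) (n+1)) :=
    Gd X F τ p (n+1) (σ + 2) (t - p) ⊓ LinearMap.ker D with hZ'
  set B' := (Gd X F τ p (n+1) (σ + 1) (t - p)).map D with hB'
  let f : MvPolynomial τ F → (Mn (SF X (MvPolynomial τ F)) (n+1) →ₗ[F] Mn (SF X (MvPolynomial τ F)) (n+1)) :=
    fun y => (LinearMap.lsmul (MvPolynomial τ F) (Mn (SF X (MvPolynomial τ F)) (n+1)) y).restrictScalars F
  have hf : ∀ y z, f y z = y • z := fun y z => rfl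
  have hDf : ∀ y z, D (f y z) = f y (D z) := fun y z => DT_smul_R a β y z
  have hfin : Module.Finite F Z := by
    have := Gd_finite (X := X) (F := F) (τ := τ) p (n+1) σ t
    exact Submodule.finiteDimensional_of_le (inf_le_left (a := Gd X F τ p (n+1) σ t) (b := LinearMap.ker D))
  have hZZ : ∀ y ∈ HR F τ p 2 (-p), ∀ z ∈ Z, f y z ∈ Z' := by
    intro y hy z hz
    refine ⟨Gd_smul_y hy hz.1, LinearMap.mem_ker.2 ?_⟩
    rw [hDf, LinearMap.mem_ker.1 hz.2, map_zero]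
  have hBB : ∀ y ∈ HR F τ p 2 (-p), ∀ z ∈ B, f y z ∈ B' := by
    rintro y hy z ⟨u, hu, rfl⟩
    refine ⟨f y u, ?_, hDf y u⟩
    exact Gd_congr (by ring) (by ring) (Gd_smul_y hy hu)
  have hinj : ∀ y ∈ HR F τ p 2 (-p), y ≠ 0 → ∀ z ∈ Z, f y z ∈ B' → z ∈ B := by
    rintro y hy hyne z hz ⟨u, hu, hDu⟩
    obtain ⟨v, hv, hDv⟩ := hA y hy hyne z u hu hDu
    exact ⟨v, hv, hDv⟩
  have key := eig_lemma Z B Z' B' hfin (f y0) (f y1) (hZZ y0 hy0mem) (hZZ y1 hy1mem)
    (hBB y0 hy0mem) (hBB y1 hy1mem) (hinj y0 hy0mem hc0)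
    (fun l z hz h => by
      refine hinj (y1 - l • y0) (Submodule.sub_mem _ hy1mem (Submodule.smul_mem _ _ hy0mem)) (hy1 l) z hz ?_
      rw [hf, sub_smul, smul_assoc]
      exact h)
    (fun z' hz' => by
      obtain ⟨w, hw, hDw, v, hv, hzv⟩ := hB z' hz'.1 hz'.2
      refine ⟨w, ⟨hw, hDw⟩, v, hv, ?_⟩
      rw [hzv, hf, add_sub_cancel_left]; rfl)
  intro z hz hDz
  obtain ⟨u, hu, hDu⟩ := key (show z ∈ Z from ⟨hz, hDz⟩)
  exact ⟨u, hu, hDu⟩

end Pool.Agent.H443R2.AB
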