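import Mathlib
import Pool.Agent.H443R2.AB.Step
import Pool.Agent.H443R2.AB.A4
import Pool.Agent.H443R2.AB.A8
import Pool.Agent.H443R2.AB.A9

set_option autoImplicit false
set_option linter.unusedSectionVars false

/-!
# The case m = 1
-/

namespace Pool.Agent.H443R2.AB

open MvPolynomial SF

universe u

section proj

variable {X : Type} [DecidableEq X] {R : Type u} [CommRing R]

/-- weight projection on `SF X R` (weight of `t_T` is `2 |T ∩ D|`) -/
def PK (D : Finset X) (w : ℤ) (f : SF X R) : SF X R :=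
  mkSF fun T => if 2 * ((T ∩ D).card : ℤ) = w then cf f T else 0

theorem PK_apply (D : Finset X) (w : ℤ) (f : SF X R) (T : Finset X) :
    cf (PK D w f) T = if 2 * ((T ∩ D).card : ℤ) = w then cf f T else 0 := rfl

theorem PK_add (D : Finset X) (w : ℤ) (f g : SF X R) : PK D w (f + g) = PK D w f + PK D w g := by
  refine SF.ext fun T => ?_
  simp only [PK_apply, SF.add_apply]; split_ifs <;> simp

theorem PK_neg (D : Finset X) (w : ℤ) (f : SF X R) : PK D w (-f) = -PK D w f := by
  refine SF.ext fun T => ?_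
  simp only [PK_apply, SF.neg_apply]; split_ifs <;> simp

theorem PK_smul (D : Finset X) (w : ℤ) (c : R) (f : SF X R) : PK D w (c • f) = c • PK D w f := by
  refine SF.ext fun T => ?_
  simp only [PK_apply, SF.smul_apply]; split_ifs <;> simp

/-- multiplication by `k` has weight `j` -/
def HomP (D : Finset X) (k : SF X R) (j : ℤ) : Prop := ∀ w f, PK D (w + j) (k * f) = k * PK D w f

theorem HomP.mul {D : Finset X} {k k' : SF X R} {j j' : ℤ} (h : HomP D k j) (h' : HomP D k' j') :
    HomP D (k * k') (j + j') := by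
  intro w f
  rw [mul_assoc, mul_assoc, ← h', ← h]
  congr 1; ring

theorem HomP.one {D : Finset X} : HomP D (1 : SF X R) 0 := by
  intro w f; rw [one_mul, one_mul, add_zero]

theorem HomP.pow {D : Finset X} {k : SF X R} {j : ℤ} (h : HomP D k j) : ∀ m : ℕ, HomP D (k ^ m) (m * j)
  | 0 => by simpa using HomP.one
  | m+1 => by
    rw [pow_succ]
    have := (HomP.pow h m).mul h
    have e : ((m + 1 : ℕ) : ℤ) * j = m * j + j := by push_cast; ring
    rw [e]; exact this

theorem HomP.smul {D : Finset X} {k : SF X R} {j : ℤ} (c : R) (h : HomP D k j) : HomP D (c • k) j := by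
  intro w f
  rw [smul_mul_assoc, PK_smul, h, smul_mul_assoc]

variable [Fintype X] {F : Type u} [Field F] [Algebra F R]

theorem homP_L_in {D : Finset X} (a : X → F) (ha : ∀ x, x ∉ D → a x = 0) :
    HomP D (L a : SF X R) 2 := by
  intro w f
  refine SF.ext fun T => ?_
  rw [PK_apply, L_mul_apply, L_mul_apply]
  have key : ∀ x ∈ T, a x • cf (PK D w f) (T.erase x) =
      if 2 * ((T ∩ D).card : ℤ) = w + 2 then a x • cf f (T.erase x) else 0 := by
    intro x hx
    rw [PK_apply]
    by_cases hxD : x ∈ D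
    · have h1 : (T.erase x) ∩ D = (T ∩ D).erase x := by
        rw [Finset.erase_inter]
      have h2 : x ∈ T ∩ D := Finset.mem_inter.2 ⟨hx, hxD⟩
      have h3 : ((T.erase x) ∩ D).card + 1 = (T ∩ D).card := by
        rw [h1, Finset.card_erase_add_one h2]
      have h4 : (2 * (((T.erase x) ∩ D).card : ℤ) = w) ↔ (2 * ((T ∩ D).card : ℤ) = w + 2) := by
        rw [← h3]; push_cast; constructor <;> intro h <;> linarith
      simp only [h4]
      split_ifs <;> simp
    · rw [ha x hxD]; simp
  rw [Finset.sum_congr rfl key]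
  split_ifs <;> simp

theorem homP_L_out {D : Finset X} (a : X → F) (ha : ∀ x, x ∈ D → a x = 0) :
    HomP D (L a : SF X R) 0 := by
  intro w f
  refine SF.ext fun T => ?_
  rw [PK_apply, L_mul_apply, L_mul_apply]
  have key : ∀ x ∈ T, a x • cf (PK D w f) (T.erase x) =
      if 2 * ((T ∩ D).card : ℤ) = w + 0 then a x • cf f (T.erase x) else 0 := by
    intro x hx
    rw [PK_apply]
    by_cases hxD : x ∈ D
    · rw [ha x hxD]; simp
    · have h1 : (T.erase x) ∩ D = T ∩ D := by
        rw [Finset.erase_inter, Finset.erase_eq_of_notMem]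
        intro h; exact hxD (Finset.mem_inter.1 h).2
      rw [h1, add_zero]
      split_ifs <;> simp
  rw [Finset.sum_congr rfl key]
  split_ifs <;> simp

/-- weight projection on `Mn` (each `η` has weight `p`) -/
def Pn (p : ℕ) (D : Finset X) {n : ℕ} (w : ℤ) (z : Mn (SF X R) n) : Mn (SF X R) n :=
  fun S => PK D (w - p * cS S) (z S)

theorem fs_Pn (p : ℕ) (D : Finset X) {n : ℕ} (w : ℤ) (z : Mn (SF X R) (n+1)) :
    fs (Pn p D w z) = Pn p D w (fs z) := by
  funext S
  simp only [fs, Pn, cS_cons]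
  congr 1; simp

theorem sn_Pn (p : ℕ) (D : Finset X) {n : ℕ} (w : ℤ) (z : Mn (SF X R) (n+1)) :
    sn (Pn p D w z) = Pn p D (w - p) (sn z) := by
  funext S
  simp only [sn, Pn, cS_cons]
  congr 1
  simp only [if_true]; ring

theorem Pn_add (p : ℕ) (D : Finset X) {n : ℕ} (w : ℤ) (z z' : Mn (SF X R) n) :
    Pn p D w (z + z') = Pn p D w z + Pn p D w z' := by
  funext S; exact PK_add _ _ _ _

theorem Pn_neg (p : ℕ) (D : Finset X) {n : ℕ} (w : ℤ) (z : Mn (SF X R) n) :
    Pn p D w (-z) = -Pn p D w z := by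
  funext S; exact PK_neg _ _ _

theorem Pn_sub (p : ℕ) (D : Finset X) {n : ℕ} (w : ℤ) (z z' : Mn (SF X R) n) :
    Pn p D w (z - z') = Pn p D w z - Pn p D w z' := by
  rw [sub_eq_add_neg, Pn_add, Pn_neg, sub_eq_add_neg]

theorem Pn_smul (p : ℕ) {D : Finset X} {k : SF X R} {j : ℤ} (h : HomP D k j) {n : ℕ} (w : ℤ)
    (z : Mn (SF X R) n) : Pn p D (w + j) (k • z) = k • Pn p D w z := by
  funext S
  have := h (w - p * cS S) (z S)
  rw [Pi.smul_apply, smul_eq_mul, Pn, Pn, ← this, Pi.smul_apply, smul_eq_mul]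
  congr 1; ring

theorem Pn_wedge (p : ℕ) {D : Finset X} {j : ℤ} : ∀ {n : ℕ} {a : Fin n → SF X R}
    (_ : ∀ i, HomP D (a i) j) (w : ℤ) (z : Mn (SF X R) n),
    Pn p D (w + j + p) (wedge n a z) = wedge n a (Pn p D w z)
  | 0, a, _, w, z => by
    rw [wedge_0, wedge_0]
    funext S
    refine SF.ext fun T => ?_
    change cf (PK _ _ 0) T = 0
    rw [PK_apply]; split_ifs <;> rfl
  | n+1, a, ha, w, z => by
    apply ext_fs_sn
    · rw [fs_Pn, fs_wedge, fs_wedge, Pn_wedge p (fun i => ha i.succ), fs_Pn]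
    · rw [sn_Pn, sn_wedge, sn_wedge, Pn_sub, fs_Pn, sn_Pn]
      have e1 : w + j + p - p = w + j := by ring
      have e2 : w + j = (w - p) + j + p := by ring
      rw [e1, Pn_smul p (ha 0), e2, Pn_wedge p (fun i => ha i.succ)]

/-- weight of a basis element -/
def om (p : ℕ) (D : Finset X) {n : ℕ} (S : Fin (n+1) → Bool) (T : Finset X) : ℤ :=
  2 * ((T ∩ D).card : ℤ) - (if S 0 then 2 else 0) + p * cS S

/-- weight projections on `Mn (SF X R) (n+1)`, where `η_0` has weight `p - 2`. -/
def PW (p : ℕ) (D : Finset X) {n : ℕ} (w : ℤ) : Mn (SF X R) (n+1) →+ Mn (SF X R) (n+1) where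
  toFun z := fun S => mkSF fun T => if om p D S T = w then cf (z S) T else 0
  map_zero' := by
    funext S
    refine SF.ext fun T => ?_
    simp only [cf_mkSF, Pi.zero_apply, SF.zero_apply, ite_self]
  map_add' z z' := by
    funext S
    refine SF.ext fun T => ?_
    simp only [cf_mkSF, Pi.add_apply, SF.add_apply]; split_ifs <;> simp

theorem PW_apply (p : ℕ) (D : Finset X) {n : ℕ} (w : ℤ) (z : Mn (SF X R) (n+1)) (S : Fin (n+1) → Bool)
    (T : Finset X) : cf (PW p D w z S) T = if om p D S T = w then cf (z S) T else 0 := rfl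

theorem fs_PW (p : ℕ) (D : Finset X) {n : ℕ} (w : ℤ) (z : Mn (SF X R) (n+1)) :
    fs (PW p D w z) = Pn p D w (fs z) := by
  funext S
  refine SF.ext fun T => ?_
  change cf (PW p D w z (Fin.cons false S)) T = cf (PK D (w - p * cS S) (z (Fin.cons false S))) T
  rw [PW_apply, PK_apply]
  have : (om p D (Fin.cons false S : Fin (n+1) → Bool) T = w) ↔ (2 * ((T ∩ D).card : ℤ) = w - p * cS S) := by
    rw [om, cS_cons, Fin.cons_zero]
    simp only [Bool.false_eq_true, if_false]
    constructor <;> intro h <;> linarith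
  simp only [this]

theorem sn_PW (p : ℕ) (D : Finset X) {n : ℕ} (w : ℤ) (z : Mn (SF X R) (n+1)) :
    sn (PW p D w z) = Pn p D (w + 2 - p) (sn z) := by
  funext S
  refine SF.ext fun T => ?_
  change cf (PW p D w z (Fin.cons true S)) T = cf (PK D (w + 2 - p - p * cS S) (z (Fin.cons true S))) T
  rw [PW_apply, PK_apply]
  have : (om p D (Fin.cons true S : Fin (n+1) → Bool) T = w) ↔
      (2 * ((T ∩ D).card : ℤ) = w + 2 - p - p * cS S) := by
    rw [om, cS_cons, Fin.cons_zero]
    simp only [if_true]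
    constructor <;> intro h <;> linarith
  simp only [this]

theorem PW_PW (p : ℕ) (D : Finset X) {n : ℕ} (w w' : ℤ) (z : Mn (SF X R) (n+1)) :
    PW p D w (PW p D w' z) = if w = w' then PW p D w' z else 0 := by
  funext S
  refine SF.ext fun T => ?_
  rw [PW_apply, PW_apply]
  by_cases h : w = w'
  · subst h
    rw [if_pos rfl, PW_apply]; split_ifs <;> rfl
  · rw [if_neg h]
    by_cases h1 : om p D S T = w
    · rw [if_pos h1, if_neg (fun h2 => h (h1.symm.trans h2))]; rfl
    · rw [if_neg h1]; rfl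

theorem PW_sum (p : ℕ) (D : Finset X) {n : ℕ} (z : Mn (SF X R) (n+1)) :
    z = ∑ w ∈ Finset.Icc (-2 : ℤ) (2 * Fintype.card X + p * (n+1)), PW p D w z := by
  funext S
  refine SF.ext fun T => ?_
  rw [Finset.sum_apply, SF.sum_apply]
  simp only [PW_apply]
  rw [Finset.sum_ite_eq, if_pos]
  rw [Finset.mem_Icc, om]
  have h1 : (0:ℤ) ≤ ((T ∩ D).card : ℤ) := Int.natCast_nonneg _
  have h2 : ((T ∩ D).card : ℤ) ≤ Fintype.card X := by exact_mod_cast Finset.card_le_univ _
  have h3 := cS_nonneg S
  have h4 := cS_le S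
  have h5 : (0:ℤ) ≤ p := Int.natCast_nonneg _
  have h6 : (p:ℤ) * cS S ≤ p * (n + 1) := by
    apply mul_le_mul_of_nonneg_left _ h5
    push_cast at h4; exact h4
  have h7 : (0:ℤ) ≤ p * cS S := mul_nonneg h5 h3
  split_ifs <;> constructor <;> linarith

end proj

section

theorem PW_mem {X : Type} [DecidableEq X] [Fintype X] {F : Type u} [Field F] {τ : Type} (p : ℕ) (D : Finset X)
    {n : ℕ} (w : ℤ) {σ t : ℤ} {z : Mn (SF X (MvPolynomial τ F)) (n+1)}
    (hz : z ∈ Gd X F τ p (n+1) σ t) : PW p D w z ∈ Gd X F τ p (n+1) σ t := by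
  intro S T
  rw [PW_apply]
  split_ifs
  · exact hz S T
  · exact Submodule.zero_mem _

variable {X : Type} [DecidableEq X] [Fintype X] {F : Type u} [Field F]

theorem HR_empty {p : ℕ} {τ : Type} [IsEmpty τ] {σ s : ℤ} (hσ : 0 < σ) {r : MvPolynomial τ F}
    (h : r ∈ HR F τ p σ s) : r = 0 := by
  by_contra h0
  obtain ⟨u, hu⟩ := MvPolynomial.exists_coeff_ne_zero h0
  have h1 := (h u hu).1
  have h2 : u = 0 := Subsingleton.elim _ _
  rw [h2, map_zero] at h1
  simp at h1
  omega

theorem hdiv_one {p : ℕ} {τ : Type} [Fintype τ] (hτ : Fintype.card τ = 1) {y : MvPolynomial τ F}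
    (hy : y ∈ HR F τ p 2 (-p)) (h0 : y ≠ 0) (σ s : ℤ) (g : MvPolynomial τ F) (hσ : 0 < σ)
    (hg : g ∈ HR F τ p σ s) : ∃ g' ∈ HR F τ p (σ - 2) (s + p), g = y * g' := by
  obtain ⟨τ', _, hcard, r, rfl⟩ := exists_red' p y hy h0
  have : IsEmpty τ' := Fintype.card_eq_zero_iff.1 (by omega)
  exact r.ker _ _ g (HR_congr (by ring) (by ring) hg) (HR_empty hσ (r.π_mem _ _ _ hg))

theorem Ex_congr {p n : ℕ} {τ : Type} {a : Fin n → X → F} {β : Fin n → MvPolynomial τ F} {σ t σ' t' : ℤ}
    (h1 : σ = σ') (h2 : t = t') (h : Ex p a β σ t) : Ex p a β σ' t' := by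
  subst h1; subst h2; exact h

/-- Koszul exactness for `n` rows -/
def KAt (X : Type) [DecidableEq X] [Fintype X] (F : Type u) [Field F] (p n : ℕ) : Prop :=
  ∀ (a : Fin n → X → F) (σ t : ℤ), Good p a (2 * t + p * σ + p * n) →
    2 * t + p * σ + p * n < 2 * ((p : ℤ) - 1) * n → Ex (τ := Empty) p a 0 σ t

open Classical in
/-- zero out the columns in `D` -/
noncomputable def zo (D : Finset X) (a : X → F) : X → F := fun x => if x ∈ D then 0 else a x

open Classical in
theorem Good_tail {p : ℕ} {n : ℕ} (a : Fin (n+1) → X → F) (e : ℤ) (hG : Good p a e) (D : Finset X)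
    (hD : D = Finset.univ.filter (fun x => a 0 x ≠ 0)) :
    Good p (fun i : Fin n => zo D (a i.succ)) (e - D.card) ∧ e - D.card < 2 * ((p : ℤ) - 1) * n := by
  -- embedding F^n → F^{n+1}
  let ι : (Fin n → F) →ₗ[F] (Fin (n+1) → F) :=
    { toFun := fun v => Fin.cons 0 v
      map_add' := fun v w => by
        funext i; refine Fin.cases ?_ (fun i => ?_) i <;> simp
      map_smul' := fun c v => by
        funext i; refine Fin.cases ?_ (fun i => ?_) i <;> simp }
  have hι : Function.Injective ι := fun v w h => by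
    funext i
    have := congrFun h i.succ
    simpa [ι] using this
  have key : ∀ W : Submodule F (Fin n → F),
      e - D.card < (cnt (fun i : Fin n => zo D (a i.succ)) W : ℤ) +
        2 * ((p : ℤ) - 1) * (Module.finrank F W : ℤ) := by
    intro W
    have hne : W.map ι ≠ ⊤ := by
      intro h
      have : (Fin.cons 1 0 : Fin (n+1) → F) ∈ W.map ι := by rw [h]; trivial
      obtain ⟨v, -, hv⟩ := this
      have := congrFun hv 0
      simp [ι] at this
    have h1 := hG _ hne
    have h2 : Module.finrank F (W.map ι) = Module.finrank F W :=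
      (LinearEquiv.finrank_eq (Submodule.equivMapOfInjective ι hι W)).symm
    have h3 : cnt a (W.map ι) = D.card + cnt (fun i : Fin n => zo D (a i.succ)) W := by
      rw [cnt, cnt, ← Finset.card_union_of_disjoint]
      · congr 1
        ext x
        simp only [Finset.mem_filter, Finset.mem_univ, true_and, Finset.mem_union, hD]
        by_cases hx : a 0 x = 0
        · simp only [hx, ne_eq, not_true_eq_false, false_or]
          have hxD : x ∉ D := by rw [hD]; simp [hx]
          rw [not_iff_not]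
          constructor
          · rintro ⟨v, hv, hv2⟩
            have : (fun i : Fin n => zo (Finset.univ.filter (fun x => ¬ a 0 x = 0)) (a i.succ) x) = v := by
              funext i
              have := congrFun hv2 i.succ
              simp [ι] at this
              rw [zo, ← hD, if_neg hxD]; exact this.symm
            rw [this]; exact hv
          · intro h
            refine ⟨_, h, ?_⟩
            funext i
            refine Fin.cases ?_ (fun i => ?_) i
            · simp [ι, hx]
            · simp only [ι, LinearMap.coe_mk, AddHom.coe_mk, Fin.cons_succ]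
              rw [zo, ← hD, if_neg hxD]
        · simp only [ne_eq, hx, not_false_eq_true, true_or, iff_true]
          rintro ⟨v, hv, hv2⟩
          have := congrFun hv2 0
          simp [ι] at this
          exact hx this.symm
      · rw [Finset.disjoint_left]
        intro x hx hx'
        simp only [Finset.mem_filter, Finset.mem_univ, true_and] at hx'
        apply hx'
        have : (fun i : Fin n => zo D (a i.succ) x) = 0 := by
          funext i; simp [zo, hx]
        rw [this]; exact Submodule.zero_mem _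
    rw [h2, h3] at h1
    push_cast at h1
    linarith
  refine ⟨fun W _ => key W, ?_⟩
  have := key ⊤
  rw [finrank_top, Module.finrank_fin_fun] at this
  have h0 : cnt (fun i : Fin n => zo D (a i.succ)) (⊤ : Submodule F (Fin n → F)) = 0 := by
    rw [cnt]; simp
  rw [h0] at this
  simpa using this

open Classical in
/-- the T-row lemma -/
theorem T_row {p : ℕ} [hp : Fact p.Prime] [CharP F p] {τ : Type} [Fintype τ] (hτ : Fintype.card τ = 1)
    {n : ℕ} (hKn : KAt X F p n) (a : Fin (n+1) → X → F) (β : Fin (n+1) → MvPolynomial τ F)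
    (hy : β 0 ∈ HR F τ p 2 (-p)) (hy0 : β 0 ≠ 0) (hβ : ∀ i : Fin n, β i.succ = 0) (σ t : ℤ)
    (hσ : (n : ℤ) < σ) (hG : Good p a (2 * t + p * σ + p * n)) : Ex p a β σ t := by
  have hp2 := hp.out.two_le
  have hβlin : ∀ i, β i ∈ HR F τ p 2 (-p) := by
    intro i
    refine Fin.cases hy (fun i => ?_) i
    rw [hβ i]; exact Submodule.zero_mem _
  set D : Finset X := Finset.univ.filter (fun x => a 0 x ≠ 0) with hD
  obtain ⟨hG1, hG2⟩ := Good_tail a _ hG D hD
  set r : Fin n → X → F := fun i => zo D (a i.succ) with hr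
  set δ : Fin n → X → F := fun i => a i.succ - r i with hδ
  -- exactness of the Koszul complex of `r`
  have hK : ∀ σ' t' : ℤ, 2 * t' + p * σ' < (2 * t + p * σ - D.card + 1) → Ex (τ := τ) p r 0 σ' t' := by
    intro σ' t' h'
    refine Ex_zero_of_Ex p r σ' t' fun b => ?_
    have e1 : 2 * (t' + (p:ℤ) * b) + p * (σ' - 2 * b) + p * n = 2 * t' + p * σ' + p * n := by ring
    refine hKn r _ _ ?_ ?_
    · rw [e1]; exact Good_mono hG1 (by linarith)
    · rw [e1]; linarith
  have hT : ExT p r (a 0) (β 0) 1 σ t := by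
    refine ExT_of p r (β 0) hy0 hy (hdiv_one hτ hy hy0) _ hK (a 0) ?_ 1 le_rfl (by omega) σ t hσ ?_
    · intro x hx i
      have : x ∈ D := by rw [hD]; simpa using hx
      simp [hr, zo, this]
    · have : (Finset.univ.filter (fun x => a 0 x ≠ 0)).card = D.card := rfl
      rw [this]; push_cast; linarith
  -- the filtration
  have hb0 : (fun i : Fin n => bK p a β i.succ) = fun _ => 0 := by
    funext i; rw [bK, hβ i, zero_smul]
  have haD : ∀ x, x ∉ D → a 0 x = 0 := by
    intro x hx
    by_contra h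
    exact hx (by rw [hD]; simpa using h)
  have hrD : ∀ i x, x ∈ D → r i x = 0 := fun i x hx => by simp [hr, zo, hx]
  have hδD : ∀ i x, x ∉ D → δ i x = 0 := fun i x hx => by simp [hδ, hr, zo, hx]
  set D₀ : Mn (SF X (MvPolynomial τ F)) (n+1) →+ Mn (SF X (MvPolynomial τ F)) (n+1) :=
    (DD (n+1) (Fin.cons (L (a 0)) (aK τ r)) (bK p a β)).toAddMonoidHom with hD₀
  set N : Mn (SF X (MvPolynomial τ F)) (n+1) →+ Mn (SF X (MvPolynomial τ F)) (n+1) :=
    (wedge (n+1) (Fin.cons (0 : SF X (MvPolynomial τ F)) (aK τ δ))).toAddMonoidHom with hN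
  have hfs0 : ∀ z, fs (D₀ z) = wedge n (aK τ r) (fs z) + bK p a β 0 • sn z := by
    intro z
    change fs (DD (n+1) _ _ z) = _
    rw [fs_DD, DD_apply, hb0, contr_zero, add_zero]
    rfl
  have hsn0 : ∀ z, sn (D₀ z) = (L (a 0) : SF X (MvPolynomial τ F)) • fs z - wedge n (aK τ r) (sn z) := by
    intro z
    change sn (DD (n+1) _ _ z) = _
    rw [sn_DD, DD_apply, hb0, contr_zero, add_zero]
    rfl
  have hfsN : ∀ z, fs (N z) = wedge n (aK τ δ) (fs z) := by
    intro z
    change fs (wedge (n+1) _ z) = _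
    rw [fs_wedge]; rfl
  have hsnN : ∀ z, sn (N z) = - wedge n (aK τ δ) (sn z) := by
    intro z
    change sn (wedge (n+1) _ z) = _
    rw [sn_wedge, Fin.cons_zero, zero_smul, zero_sub]; rfl
  have hDN : ∀ z, D₀ z + N z = DT p a β z := by
    intro z
    have h1 : aK τ a = fun i => (Fin.cons (L (a 0)) (aK τ r) : Fin (n+1) → SF X (MvPolynomial τ F)) i +
        (Fin.cons (0 : SF X (MvPolynomial τ F)) (aK τ δ) : Fin (n+1) → SF X (MvPolynomial τ F)) i := by
      funext i
      refine Fin.cases ?_ (fun i => ?_) i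
      · simp [aK]
      · simp only [aK, Fin.cons_succ]
        rw [← L_add, hδ]; simp
    rw [DT, h1, DD_add_left]
    rfl
  have hfil := filtration_exact (V := Mn (SF X (MvPolynomial τ F)) (n+1)) (PW p D)
    (fun w w' z => PW_PW p D w w' z) (-2) (2 * Fintype.card X + p * (n+1)) (fun z => PW_sum p D z)
    D₀ N p 2 (by norm_num)
    (fun w z => by
      apply ext_fs_sn
      · rw [fs_PW, hfs0, hfs0, Pn_add, fs_PW, sn_PW]
        congr 1
        · have := Pn_wedge (R := MvPolynomial τ F) p (D := D) (j := 0) (a := aK τ r) (fun i => homP_L_out (r i) (hrD i)) w (fs z)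
          rw [← this]; congr 1; ring
        · have := Pn_smul p (((homP_L_in (R := MvPolynomial τ F) (a 0) haD).pow (p - 1)).smul (β 0)) (w + 2 - p) (sn z)
          rw [bK, ← this]; congr 1
          push_cast [Nat.cast_sub (show 1 ≤ p by omega)]; ring
      · rw [sn_PW, hsn0, hsn0, Pn_sub, fs_PW, sn_PW]
        congr 1
        · have := Pn_smul p (homP_L_in (R := MvPolynomial τ F) (a 0) haD) w (fs z)
          rw [← this]; congr 1; ring
        · have := Pn_wedge (R := MvPolynomial τ F) p (D := D) (j := 0) (a := aK τ r) (fun i => homP_L_out (r i) (hrD i)) (w + 2 - p) (sn z)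
          rw [← this]; congr 1; ring)
    (fun w z => by
      apply ext_fs_sn
      · rw [fs_PW, hfsN, hfsN, fs_PW]
        have := Pn_wedge (R := MvPolynomial τ F) p (D := D) (j := 2) (a := aK τ δ) (fun i => homP_L_in (δ i) (hδD i)) w (fs z)
        rw [← this]; congr 1; ring
      · rw [sn_PW, hsnN, hsnN, sn_PW, Pn_neg]
        have := Pn_wedge (R := MvPolynomial τ F) p (D := D) (j := 2) (a := aK τ δ) (fun i => homP_L_in (δ i) (hδD i)) (w + 2 - p) (sn z)
        rw [← this]; congr 2; ring)
    (Gd X F τ p (n+1) σ t).toAddSubgroup (Gd X F τ p (n+1) (σ - 1) t).toAddSubgroup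
    (fun w z hz => PW_mem p D w hz) (fun w z hz => PW_mem p D w hz)
    (fun u hu => by
      rw [hDN]
      exact Gd_congr (by ring) rfl (Gd_DT hp.out.pos hβlin hu))
    (fun u => by rw [hDN, hDN, DT_DT])
    (fun z hz hDz => by
      have hz' := mem_Gd_succ.1 hz
      have h1 := congrArg fs hDz
      have h2 := congrArg sn hDz
      rw [hfs0, fs_zero] at h1
      rw [hsn0, sn_zero] at h2
      obtain ⟨x', hx', z', hz'', e1, e2⟩ := hT (fs z) hz'.1 (sn z) (Gd_congr rfl (by push_cast; ring) hz'.2) h1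
        (by rw [pow_one]; exact h2)
      refine ⟨pr x' z', mem_Gd_succ.2 ⟨?_, ?_⟩, ?_⟩
      · rw [fs_pr]; exact hx'
      · rw [sn_pr]; exact Gd_congr (by ring) (by push_cast; ring) hz''
      · apply ext_fs_sn
        · rw [hfs0, fs_pr, sn_pr]; exact e1
        · rw [hsn0, fs_pr, sn_pr]; rw [pow_one] at e2; exact e2)
  intro z hz hDz
  obtain ⟨u, hu, hDu⟩ := hfil z hz (by rw [hDN]; exact hDz)
  exact ⟨u, hu, by rw [← hDN]; exact hDu⟩

end

end Pool.Agent.H443R2.AB
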