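import Mathlib
import Pool.Agent.H443R2.AB.One

set_option autoImplicit false
set_option linter.unusedSectionVars false

/-!
# The case m = 1, general rows
-/

namespace Pool.Agent.H443R2.AB

open MvPolynomial SF

universe u

variable {X : Type} [DecidableEq X] [Fintype X] {F : Type u} [Field F]

open Classical in
theorem Good_of_inj {p : ℕ} {n : ℕ} {a a' : Fin n → X → F} (E : (Fin n → F) →ₗ[F] (Fin n → F))
    (hE : Function.Injective E) (h : ∀ x, (fun i => a' i x) = E (fun i => a i x)) {e : ℤ}
    (hG : Good p a e) : Good p a' e := by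
  intro W hW
  let e' := LinearEquiv.ofInjectiveEndo E hE
  have he' : ∀ v, e' v = E v := fun v => rfl
  have hne : W.comap E ≠ ⊤ := by
    intro htop
    apply hW
    rw [eq_top_iff]
    intro w _
    have h1 : e'.symm w ∈ W.comap E := by rw [htop]; trivial
    rw [Submodule.mem_comap, ← he', LinearEquiv.apply_symm_apply] at h1
    exact h1
  have h1 := hG _ hne
  have h2 : Module.finrank F (W.comap E) = Module.finrank F W := by
    have : W.comap E = W.comap (e' : (Fin n → F) →ₗ[F] (Fin n → F)) := by
      ext v; simp only [Submodule.mem_comap, LinearEquiv.coe_coe, he']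
    rw [this, Submodule.comap_equiv_eq_map_symm]
    exact (LinearEquiv.finrank_eq (e'.symm.submoduleMap W)).symm
  have h3 : cnt a (W.comap E) = cnt a' W := by
    rw [cnt, cnt]
    congr 1
    ext x
    simp only [Finset.mem_filter, Finset.mem_univ, true_and, Submodule.mem_comap]
    rw [h x]
  rw [h2, h3] at h1
  exact h1

theorem lin_of_card_one {p : ℕ} {τ : Type} [Fintype τ] (hτ : Fintype.card τ = 1)
    {y r : MvPolynomial τ F} (hy : y ∈ HR F τ p 2 (-p)) (hy0 : y ≠ 0) (hr : r ∈ HR F τ p 2 (-p)) :
    ∃ c : F, r = c • y := by
  obtain ⟨g, hg, hg2⟩ := hdiv_one hτ hy hy0 2 (-p) r (by norm_num) hr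
  by_cases h0 : g = 0
  · exact ⟨0, by rw [hg2, h0, mul_zero, zero_smul]⟩
  obtain ⟨b, hb1, hb2, hb3⟩ := exists_of_mem_HR hg h0
  have hb : b = 0 := by omega
  subst hb
  rw [← MvPolynomial.totalDegree_zero_iff_isHomogeneous, MvPolynomial.totalDegree_eq_zero_iff_eq_C] at hb3
  refine ⟨coeff 0 g, ?_⟩
  rw [hg2, MvPolynomial.smul_eq_C_mul, ← hb3, mul_comm]

open Classical in
theorem prop_one_aux {p : ℕ} [hp : Fact p.Prime] [CharP F p] [IsAlgClosed F] {τ : Type} [Fintype τ]
    (hτ : Fintype.card τ = 1) {n : ℕ} (hKn : KAt X F p n) (σ t : ℤ) (hσ : (n : ℤ) < σ) :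
    ∀ (d : ℕ) (a : Fin (n+1) → X → F) (β : Fin (n+1) → MvPolynomial τ F),
    (∀ i, β i ∈ HR F τ p 2 (-p)) → β 0 ≠ 0 →
    (Finset.univ.filter (fun i : Fin n => β i.succ ≠ 0)).card = d →
    Good p a (2 * t + p * σ + p * n) → Ex p a β σ t := by
  intro d
  induction d with
  | zero =>
    intro a β hβ h0 hd hG
    refine T_row hτ hKn a β (hβ 0) h0 ?_ σ t hσ hG
    intro i
    rw [Finset.card_eq_zero, Finset.filter_eq_empty_iff] at hd
    simpa using hd (Finset.mem_univ i)
  | succ d ih =>
    intro a β hβ h0 hd hG
    obtain ⟨k, hk⟩ : (Finset.univ.filter (fun i : Fin n => β i.succ ≠ 0)).Nonempty := by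
      rw [← Finset.card_pos, hd]; omega
    have hk' : β k.succ ≠ 0 := by simpa using hk
    obtain ⟨c', hc'⟩ := lin_of_card_one hτ (hβ 0) h0 (hβ k.succ)
    obtain ⟨c, hc⟩ := IsAlgClosed.exists_pow_nat_eq c' hp.out.pos
    have hiso := isoC_II a β hβ k c
    refine Ex_of_IsoC hiso (ih _ _ ?_ ?_ ?_ ?_)
    · intro i
      refine Fin.cases ?_ (fun i => ?_) i
      · exact hβ 0
      · simp only [Fin.cons_succ]
        split_ifs
        · exact Submodule.sub_mem _ (hβ _) (Submodule.smul_mem _ _ (hβ 0))
        · exact hβ _
    · exact h0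
    · have : Finset.univ.filter (fun i : Fin n => (Fin.cons (β 0) (fun i => if i = k then β i.succ - c ^ p • β 0 else β i.succ) : Fin (n+1) → MvPolynomial τ F) i.succ ≠ 0) =
          (Finset.univ.filter (fun i : Fin n => β i.succ ≠ 0)).erase k := by
        ext i
        simp only [Fin.cons_succ, Finset.mem_filter, Finset.mem_univ, true_and, Finset.mem_erase]
        by_cases hik : i = k
        · subst hik
          simp [hc, hc']
        · simp [hik]
      rw [this, Finset.card_erase_of_mem hk, hd]
      rfl
    · -- Good
      let E : (Fin (n+1) → F) →ₗ[F] (Fin (n+1) → F) :=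
        { toFun := fun v => Fin.cons (v 0 + c * v k.succ) (fun i => v i.succ)
          map_add' := fun v w => by
            funext i
            refine Fin.cases ?_ (fun i => ?_) i
            · simp; ring
            · simp
          map_smul' := fun l v => by
            funext i
            refine Fin.cases ?_ (fun i => ?_) i
            · simp; ring
            · simp }
      have hE : Function.Injective E := by
        intro v w h
        have h1 : ∀ i : Fin n, v i.succ = w i.succ := fun i => by
          have := congrFun h i.succ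
          simpa [E] using this
        have h2 := congrFun h 0
        simp only [E, LinearMap.coe_mk, AddHom.coe_mk, Fin.cons_zero, h1 k] at h2
        funext i
        refine Fin.cases ?_ (fun i => ?_) i
        · exact add_right_cancel h2
        · exact h1 i
      refine Good_of_inj E hE (fun x => ?_) hG
      funext i
      refine Fin.cases ?_ (fun i => ?_) i
      · simp [E]
      · simp [E]

open Classical in
theorem prop_one {p : ℕ} [hp : Fact p.Prime] [CharP F p] [IsAlgClosed F] (τ : Type) [Fintype τ]
    (hτ : Fintype.card τ = 1) (n : ℕ) (hKn : KAt X F p n) : PropAt X F p (n+1) τ := by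
  intro a β hβ hspan σ t hσ hG
  rw [hτ] at hσ hG
  have e1 : ((n+1 : ℕ) : ℤ) - (1 : ℕ) = n := by push_cast; ring
  rw [e1] at hσ hG
  by_cases h0 : β 0 = 0
  · -- find k with β (k+1) ≠ 0
    obtain ⟨k, hk⟩ : ∃ k : Fin n, β k.succ ≠ 0 := by
      by_contra hcon
      push Not at hcon
      have hall : ∀ i, β i = 0 := by
        intro i; refine Fin.cases h0 (fun i => hcon i) i
      obtain ⟨j⟩ : Nonempty τ := Fintype.card_pos_iff.1 (by omega)
      have h1 := hspan (X_mem_lin j)
      have h2 : Set.range β ⊆ {0} := by
        rintro _ ⟨i, rfl⟩; exact hall i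
      have h3 := Submodule.span_mono (R := F) h2 h1
      rw [Submodule.span_zero_singleton, Submodule.mem_bot] at h3
      exact MvPolynomial.X_ne_zero j h3
    set c : Fin n → F := Pi.single k 1 with hc
    have hiso := isoC_I a β hβ c
    have hsum : ∑ i, (c i) ^ p • β i.succ = β k.succ := by
      rw [Finset.sum_eq_single k]
      · simp [hc]
      · intro i _ hik
        simp [hc, Pi.single_eq_of_ne hik, zero_pow hp.out.ne_zero]
      · simp
    refine Ex_of_IsoC hiso (prop_one_aux hτ hKn σ t (by linarith) _ _ _ ?_ ?_ rfl ?_)
    · intro i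
      refine Fin.cases ?_ (fun i => ?_) i
      · simp only [Fin.cons_zero]
        rw [hsum]
        exact Submodule.sub_mem _ (hβ 0) (hβ k.succ)
      · exact hβ _
    · simp only [Fin.cons_zero]
      rw [hsum, h0, zero_sub]
      exact neg_ne_zero.2 hk
    · let E : (Fin (n+1) → F) →ₗ[F] (Fin (n+1) → F) :=
        { toFun := fun v => Fin.cons (v 0) (fun i => v i.succ + c i * v 0)
          map_add' := fun v w => by
            funext i
            refine Fin.cases ?_ (fun i => ?_) i
            · simp
            · simp; ring
          map_smul' := fun l v => by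
            funext i
            refine Fin.cases ?_ (fun i => ?_) i
            · simp
            · simp; ring }
      have hE : Function.Injective E := by
        intro v w h
        have h2 : v 0 = w 0 := by
          have := congrFun h 0
          simpa [E] using this
        funext i
        refine Fin.cases h2 (fun i => ?_) i
        have := congrFun h i.succ
        simp only [E, LinearMap.coe_mk, AddHom.coe_mk, Fin.cons_succ, h2] at this
        exact add_right_cancel this
      refine Good_of_inj E hE (fun x => ?_) hG
      funext i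
      refine Fin.cases ?_ (fun i => ?_) i
      · simp [E]
      · simp [E]
  · exact prop_one_aux hτ hKn σ t (by linarith) _ a β hβ h0 rfl hG

end Pool.Agent.H443R2.AB
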