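import Mathlib
import Pool.Agent.H443R2.AB.PropOne

set_option autoImplicit false
set_option linter.unusedSectionVars false

/-!
# Koszul exactness, the full induction
-/

namespace Pool.Agent.H443R2.AB

open MvPolynomial SF

universe u

variable {X : Type} [DecidableEq X] [Fintype X] {F : Type u} [Field F]

theorem Gd_eq_zero_of_deg {p n : ℕ} {τ : Type} {σ t : ℤ}
    (h : ∀ (S : Fin n → Bool) (T : Finset X) (b : ℕ), 2 * (b : ℤ) = σ - cS S →
      -((p : ℤ) * b) = t + cS S - T.card → (IsEmpty τ → b = 0) → False)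
    {z : Mn (SF X (MvPolynomial τ F)) n} (hz : z ∈ Gd X F τ p n σ t) : z = 0 := by
  funext S
  refine SF.ext fun T => ?_
  by_contra h0
  obtain ⟨u, hu⟩ := MvPolynomial.exists_coeff_ne_zero h0
  have h1 := hz S T u hu
  refine h S T u.degree h1.1 h1.2 ?_
  intro he
  have : u = 0 := Subsingleton.elim _ _
  rw [this, map_zero]

theorem Ex_of_zero {p n : ℕ} {τ : Type} {a : Fin n → X → F} {β : Fin n → MvPolynomial τ F} {σ t : ℤ}
    (h : ∀ (S : Fin n → Bool) (T : Finset X) (b : ℕ), 2 * (b : ℤ) = σ - cS S →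
      -((p : ℤ) * b) = t + cS S - T.card → (IsEmpty τ → b = 0) → False) : Ex p a β σ t := by
  intro z hz _
  refine ⟨0, Submodule.zero_mem _, ?_⟩
  rw [map_zero, Gd_eq_zero_of_deg h hz]

theorem prop_zero {p n : ℕ} (τ : Type) [Fintype τ] (hτ : Fintype.card τ = 0) : PropAt X F p n τ := by
  intro a β _ _ σ t hσ _
  rw [hτ] at hσ
  have : IsEmpty τ := Fintype.card_eq_zero_iff.1 hτ
  apply Ex_of_zero
  intro S T b h1 _ h3
  rw [h3 this] at h1
  have := cS_le S
  push_cast at h1 hσ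
  linarith

/-- The standard `β`: variables for the first `m` rows, zero for the others. -/
noncomputable def stdβ (F : Type u) [Field F] (n m : ℕ) : Fin n → MvPolynomial (Fin m) F :=
  fun i => if h : (i : ℕ) < m then MvPolynomial.X ⟨i, h⟩ else 0

theorem stdβ_lin {p n m : ℕ} (i : Fin n) : stdβ F n m i ∈ HR F (Fin m) p 2 (-p) := by
  rw [stdβ]
  split_ifs
  · exact X_mem_lin _
  · exact Submodule.zero_mem _

theorem lin_le_span {p : ℕ} {τ : Type} : HR F τ p 2 (-p) ≤ Submodule.span F (Set.range (MvPolynomial.X : τ → MvPolynomial τ F)) := by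
  intro r hr
  rw [← MvPolynomial.homogeneousSubmodule_one_eq_span_X, MvPolynomial.mem_homogeneousSubmodule]
  by_cases h0 : r = 0
  · rw [h0]; exact MvPolynomial.isHomogeneous_zero _ _ _
  obtain ⟨b, hb1, hb2, hb3⟩ := exists_of_mem_HR hr h0
  have : b = 1 := by omega
  rw [← this]; exact hb3

theorem stdβ_span {p n m : ℕ} (h : m ≤ n) :
    HR F (Fin m) p 2 (-p) ≤ Submodule.span F (Set.range (stdβ F n m)) := by
  refine lin_le_span.trans (Submodule.span_mono ?_)
  rintro _ ⟨j, rfl⟩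
  refine ⟨⟨j, by omega⟩, ?_⟩
  rw [stdβ, dif_pos j.2]

/-- standard reduction `F[y_0..y_m] → F[y_0..y_{m-1}]` -/
theorem exists_std_red (p m : ℕ) : ∃ r : Red F p (Fin (m+1)) (Fin m), r.y = MvPolynomial.X (Fin.last m) ∧
    ∀ n, (fun i => r.π (stdβ F n (m+1) i)) = stdβ F n m := by
  obtain ⟨r, hr1, hr2, -⟩ := exists_red (F := F) p (τ := Fin (m+1)) (τ' := Fin m) Fin.castSucc
    (Fin.castSucc_injective m) (Fin.last m)
    (by rintro ⟨i, hi⟩; exact absurd hi (Fin.castSucc_lt_last i).ne)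
    (fun i => by
      refine Fin.lastCases (Or.inl rfl) (fun i => Or.inr ⟨i, rfl⟩) i)
    (MvPolynomial.X (Fin.last m)) (X_mem_lin _) (by rw [MvPolynomial.coeff_X]; simp)
  refine ⟨r, hr1, fun n => ?_⟩
  funext i
  rw [stdβ, stdβ]
  by_cases h1 : (i : ℕ) < m
  · rw [dif_pos (by omega : (i:ℕ) < m + 1), dif_pos h1]
    exact hr2 ⟨i, h1⟩
  · rw [dif_neg h1]
    by_cases h2 : (i : ℕ) < m + 1
    · rw [dif_pos h2]
      have : (⟨i, h2⟩ : Fin (m+1)) = Fin.last m := by
        ext; simp; omega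
      rw [this, ← hr1]; exact r.π_y
    · rw [dif_neg h2, map_zero]

theorem Ex_transport {p n : ℕ} {τ τ' : Type} (φ : MvPolynomial τ F →ₐ[F] MvPolynomial τ' F)
    (ψ : MvPolynomial τ' F →ₐ[F] MvPolynomial τ F)
    (h1 : ∀ r, ψ (φ r) = r)
    (hφ : ∀ σ s r, r ∈ HR F τ p σ s → φ r ∈ HR F τ' p σ s)
    (hψ : ∀ σ s r, r ∈ HR F τ' p σ s → ψ r ∈ HR F τ p σ s) (a : Fin n → X → F) {σ t : ℤ}
    (hE : Ex (τ := τ') p a 0 σ t) : Ex (τ := τ) p a 0 σ t := by
  have hD : ∀ {τ₁ τ₂ : Type} (θ : MvPolynomial τ₁ F →ₐ[F] MvPolynomial τ₂ F)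
      (z : Mn (SF X (MvPolynomial τ₁ F)) n),
      mapM (SF.map (θ : MvPolynomial τ₁ F →+* MvPolynomial τ₂ F)) (DT p a 0 z) =
      DT p a 0 (mapM (SF.map (θ : MvPolynomial τ₁ F →+* MvPolynomial τ₂ F)) z) := by
    intro τ₁ τ₂ θ z
    rw [DT, DT, mapM_DD]
    have e1 : (fun i => SF.map (θ : MvPolynomial τ₁ F →+* MvPolynomial τ₂ F) (aK τ₁ a i)) = aK τ₂ a := by
      funext i
      exact map_L θ (a i)
    have e2 : (fun i => SF.map (θ : MvPolynomial τ₁ F →+* MvPolynomial τ₂ F) (bK p a 0 i)) = bK p a 0 := by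
      funext i
      rw [bK, bK, Pi.zero_apply, zero_smul, map_zero, Pi.zero_apply, zero_smul]
    rw [e1, e2]
  intro z hz hDz
  obtain ⟨u, hu, hDu⟩ := hE (mapM (SF.map (φ : MvPolynomial τ F →+* MvPolynomial τ' F)) z)
    (fun S T => hφ _ _ _ (hz S T)) (by rw [← hD, hDz, mapM_zero])
  refine ⟨mapM (SF.map (ψ : MvPolynomial τ' F →+* MvPolynomial τ F)) u, fun S T => hψ _ _ _ (hu S T), ?_⟩
  rw [← hD, hDu]
  funext S
  refine SF.ext fun T => ?_
  exact h1 _

theorem HR_rename {p : ℕ} {τ τ' : Type} (f : τ → τ') {σ s : ℤ} {r : MvPolynomial τ F}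
    (h : r ∈ HR F τ p σ s) : rename f r ∈ HR F τ' p σ s := by
  by_cases h0 : r = 0
  · rw [h0, map_zero]; exact Submodule.zero_mem _
  obtain ⟨b, hb1, hb2, hb3⟩ := exists_of_mem_HR h h0
  exact HR_congr hb1 hb2 (HR_of_hom hb3.rename_isHomogeneous)

theorem K_of_prop {p : ℕ} [hp : Fact p.Prime] [CharP F p] {n : ℕ}
    (h : ∀ (τ : Type) [Fintype τ], PropAt X F p n τ) : KAt X F p n := by
  intro a σ₀ t₀ hG₀ hlt₀
  have hp2 : (2:ℤ) ≤ p := by exact_mod_cast hp.out.two_le
  -- s ≥ 1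
  have S1 : ∀ m ≤ n, ∀ σ t : ℤ, (n:ℤ) - m + 1 ≤ σ → Good p a (2 * t + p * σ + p * ((n:ℤ) - m)) →
      Ex p a (stdβ F n m) σ t := by
    intro m hm σ t hσ hG
    refine h (Fin m) a (stdβ F n m) stdβ_lin (stdβ_span hm) σ t ?_ ?_
    · rw [Fintype.card_fin]; exact hσ
    · rw [Fintype.card_fin]; exact hG
  -- s = 0
  have S0 : ∀ m ≤ n, ∀ t : ℤ, Good p a (2 * t + p * ((n:ℤ) - m) + p * ((n:ℤ) - m)) →
      2 * t + p * ((n:ℤ) - m) + p * ((n:ℤ) - m) < 2 * ((p:ℤ) - 1) * n →
      Ex p a (stdβ F n m) ((n:ℤ) - m) t := by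
    intro m
    induction m with
    | zero =>
      intro _ t _ hlt
      apply Ex_of_zero
      intro S T b h1 h2 h3
      rw [h3 inferInstance] at h1 h2
      push_cast at h1 h2 hlt
      have : (0:ℤ) ≤ T.card := Int.natCast_nonneg _
      nlinarith
    | succ m ih =>
      intro hm t hG hlt z hz hDz
      obtain ⟨r, hr1, hr2⟩ := exists_std_red (F := F) p m
      have hβ : ∀ i, stdβ F n (m+1) i ∈ HR F (Fin (m+1)) p 2 (-p) := stdβ_lin
      have hyz : r.y • z ∈ Gd X F (Fin (m+1)) p n ((n:ℤ) - (m+1 : ℕ) + 2) (t - p) := Gd_smul_y r.y_mem hz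
      obtain ⟨u, hu, hDu⟩ := S1 (m+1) hm ((n:ℤ) - (m+1 : ℕ) + 2) (t - p) (by linarith)
        (by refine Good_mono hG (le_of_eq ?_); push_cast; ring) _ hyz (by rw [DT_smul_R, hDz, smul_zero])
      refine chaseA r a (stdβ F n (m+1)) hβ ?_ (Gd_congr (by ring) rfl hu) hDu
      rw [hr2]
      refine Ex_congr (by push_cast; ring) rfl (ih (by omega) (t - p) ?_ ?_)
      · refine Good_mono hG (le_of_eq ?_); push_cast; ring
      · push_cast at hlt ⊢; linarith
  -- all s
  have SA : ∀ k m : ℕ, m + k = n → ∀ σ t : ℤ, Good p a (2 * t + p * σ + p * ((n:ℤ) - m)) →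
      2 * t + p * σ + p * ((n:ℤ) - m) < 2 * ((p:ℤ) - 1) * n → Ex p a (stdβ F n m) σ t := by
    intro k
    induction k with
    | zero =>
      intro m hm σ t hG hlt
      have hmn : (m:ℤ) = n := by exact_mod_cast (by omega : m = n)
      rcases lt_trichotomy σ ((n:ℤ) - m) with hσ | hσ | hσ
      · apply Ex_of_zero
        intro S T b h1 h2 h3
        have := cS_nonneg S
        have hb : (0:ℤ) ≤ b := Int.natCast_nonneg _
        linarith
      · subst hσ; exact S0 m (by omega) t hG hlt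
      · exact S1 m (by omega) σ t (by linarith) hG
    | succ k ih =>
      intro m hm σ t hG hlt
      rcases lt_trichotomy σ ((n:ℤ) - m) with hσ | hσ | hσ
      · obtain ⟨r, hr1, hr2⟩ := exists_std_red (F := F) p m
        rw [← hr2]
        refine chaseC r a (stdβ F n (m+1)) stdβ_lin ?_ ?_
        · refine ih (m+1) (by omega) _ _ ?_ ?_
          · refine Good_mono hG (le_of_eq ?_); push_cast; ring
          · push_cast at hlt ⊢; linarith
        · refine ih (m+1) (by omega) _ _ ?_ ?_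
          · refine Good_mono hG ?_; push_cast; linarith
          · push_cast at hlt ⊢; linarith
      · subst hσ; exact S0 m (by omega) t hG hlt
      · exact S1 m (by omega) σ t (by linarith) hG
  have h0 := SA n 0 (by omega) σ₀ t₀ (by refine Good_mono hG₀ (le_of_eq ?_); push_cast; ring)
    (by push_cast; linarith)
  have h00 : stdβ F n 0 = 0 := by
    funext i; rw [stdβ, dif_neg (by omega)]; rfl
  rw [h00] at h0
  refine Ex_transport (τ := Empty) (τ' := Fin 0) (rename Empty.elim) (rename (fun i : Fin 0 => i.elim0))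
    (fun r => ?_) (fun _ _ _ h => HR_rename _ h) (fun _ _ _ h => HR_rename _ h) a h0
  rw [rename_rename]
  have : ((fun i : Fin 0 => (i.elim0 : Empty)) ∘ Empty.elim) = id := by
    funext i; exact i.elim
  rw [this, rename_id_apply]

/-- The full induction. -/
theorem prop_all {p : ℕ} [hp : Fact p.Prime] [CharP F p] [IsAlgClosed F] :
    ∀ (n : ℕ) (τ : Type) [Fintype τ], PropAt X F p n τ
  | 0 => by
    intro τ _
    by_cases h : Fintype.card τ = 0
    · exact prop_zero τ h
    · intro a β _ hspan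
      exfalso
      obtain ⟨j⟩ : Nonempty τ := Fintype.card_pos_iff.1 (by omega)
      have h1 := hspan (X_mem_lin j)
      rw [Set.range_eq_empty, Submodule.span_empty, Submodule.mem_bot] at h1
      exact MvPolynomial.X_ne_zero j h1
  | n+1 => by
    have ihn : ∀ (τ : Type) [Fintype τ], PropAt X F p n τ := prop_all n
    have hK : KAt X F p n := K_of_prop ihn
    have key : ∀ (m : ℕ) (τ : Type) [Fintype τ], Fintype.card τ = m → PropAt X F p (n+1) τ := by
      intro m
      induction m with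
      | zero => intro τ _ h; exact prop_zero τ h
      | succ m ihm =>
        intro τ _ h
        rcases Nat.eq_zero_or_pos m with h0 | h0
        · subst h0; exact prop_one τ h n hK
        · exact step_m n m h0 ihm (fun τ' _ _ => ihn τ') τ h
    intro τ _
    exact key _ τ rfl

end Pool.Agent.H443R2.AB
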