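import Mathlib
import Pool.Agent.H443R2.AB.Kos

set_option autoImplicit false
set_option linter.unusedSectionVars false

/-!
# The main theorem: `∏ L_i^(p-1) ≠ 0`
-/

namespace Pool.Agent.H443R2.AB

open MvPolynomial SF

universe u

section zz

variable {X : Type} [DecidableEq X] [Fintype X] {F : Type u} [Field F] {τ : Type}

/-- `η_m … η_{n-1} ⊗ ∏_{i<m} L_i^(p-1)` -/
noncomputable def zz (τ : Type) (p : ℕ) : (n m : ℕ) → (Fin n → X → F) → Mn (SF X (MvPolynomial τ F)) n
  | 0, _, _ => fun _ => 1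
  | n+1, 0, a => pr 0 (zz τ p n 0 (fun i => a i.succ))
  | n+1, m+1, a => pr ((L (a 0) : SF X (MvPolynomial τ F)) ^ (p - 1) • zz τ p n m (fun i => a i.succ)) 0

theorem DT_zz {p : ℕ} [hp : Fact p.Prime] [CharP F p] : ∀ (n m : ℕ) (a : Fin n → X → F)
    (β : Fin n → MvPolynomial τ F) (_ : ∀ i : Fin n, m ≤ (i : ℕ) → β i = 0),
    DT p a β (zz τ p n m a) = 0
  | 0, _, _, _, _ => by rw [DT, DD_apply, wedge_0, contr_0, add_zero]
  | n+1, 0, a, β, h => by
    have ih := DT_zz n 0 (fun i => a i.succ) (fun i => β i.succ) (fun i _ => h i.succ (Nat.zero_le _))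
    apply ext_fs_sn
    · rw [DT, fs_DD, zz, fs_pr, sn_pr, map_zero, zero_add, bK, h 0 (Nat.zero_le _), zero_smul, zero_smul]; rfl
    · rw [DT, sn_DD, zz, fs_pr, sn_pr, smul_zero, zero_sub]
      exact neg_eq_zero.2 ih
  | n+1, m+1, a, β, h => by
    have ih := DT_zz n m (fun i => a i.succ) (fun i => β i.succ) (fun i hi => h i.succ (by simpa using hi))
    apply ext_fs_sn
    · rw [DT, fs_DD, zz, fs_pr, sn_pr, smul_zero, add_zero, map_smul]
      exact (congrArg _ ih).trans (smul_zero _)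
    · rw [DT, sn_DD, zz, fs_pr, sn_pr, map_zero, sub_zero, smul_smul, aK, ← pow_succ',
        Nat.sub_add_cancel hp.out.pos, L_pow_char, zero_smul]; rfl

theorem DT_zz_succ {p : ℕ} [hp : Fact p.Prime] [CharP F p] (y : MvPolynomial τ F) :
    ∀ (n m : ℕ) (a : Fin n → X → F)
    (β : Fin n → MvPolynomial τ F) (_ : ∀ i : Fin n, m < (i : ℕ) → β i = 0)
    (_ : ∀ i : Fin n, (i : ℕ) = m → β i = y) (_ : m < n),
    DT p a β (zz τ p n m a) = y • zz τ p n (m+1) a
  | 0, _, _, _, _, _, hm => absurd hm (Nat.not_lt_zero _)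
  | n+1, 0, a, β, h, h', _ => by
    have ih := DT_zz n 0 (fun i => a i.succ) (fun i => β i.succ) (fun i _ => h i.succ (Nat.succ_pos _))
    apply ext_fs_sn
    · rw [DT, fs_DD, zz, fs_pr, sn_pr, map_zero, zero_add, bK, h' 0 rfl, zz, fs_smul, fs_pr, smul_assoc]
    · rw [DT, sn_DD, zz, fs_pr, sn_pr, smul_zero, zero_sub, zz, sn_smul, sn_pr, smul_zero]
      exact neg_eq_zero.2 ih
  | n+1, m+1, a, β, h, h', hm => by
    have ih := DT_zz_succ y n m (fun i => a i.succ) (fun i => β i.succ)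
      (fun i hi => h i.succ (by simpa using hi)) (fun i hi => h' i.succ (by simpa using hi)) (by omega)
    apply ext_fs_sn
    · rw [DT, fs_DD, zz, fs_pr, sn_pr, smul_zero, add_zero, map_smul, zz, fs_smul, fs_pr]
      refine (congrArg _ ih).trans ?_
      rw [smul_comm]
    · rw [DT, sn_DD, zz, fs_pr, sn_pr, map_zero, sub_zero, smul_smul, aK, ← pow_succ',
        Nat.sub_add_cancel hp.out.pos, L_pow_char, zero_smul, zz, sn_smul, sn_pr, smul_zero]

theorem zz_mem {p : ℕ} (hp : 1 ≤ p) : ∀ (n m : ℕ) (a : Fin n → X → F) (_ : m ≤ n),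
    zz τ p n m a ∈ Gd X F τ p n ((n:ℤ) - m) (((p:ℤ) - 1) * m - ((n:ℤ) - m))
  | 0, m, a, hm => by
    have : m = 0 := by omega
    subst this
    intro S T
    have hS : cS S = 0 := by simp [cS]
    rw [zz, SF.one_apply, hS]
    split_ifs with hT
    · have := HR_of_hom (p := p) (MvPolynomial.isHomogeneous_one τ F)
      refine HR_congr ?_ ?_ this <;> simp [hT]
    · exact Submodule.zero_mem _
  | n+1, 0, a, _ => by
    rw [mem_Gd_succ, zz, fs_pr, sn_pr]
    refine ⟨Submodule.zero_mem _, ?_⟩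
    exact Gd_congr (by push_cast; ring) (by push_cast; ring) (zz_mem hp n 0 (fun i => a i.succ) (Nat.zero_le _))
  | n+1, m+1, a, hm => by
    rw [mem_Gd_succ, zz, fs_pr, sn_pr]
    refine ⟨?_, Submodule.zero_mem _⟩
    have h1 := zz_mem hp n m (fun i => a i.succ) (by omega)
    have h2 := Gd_smul ((homMul_L (τ := τ) (p := p) (a 0)).pow (p - 1)) h1
    refine Gd_congr (by push_cast; ring) ?_ h2
    push_cast [Nat.cast_sub hp]; ring

theorem mapM_zz {p : ℕ} {τ' : Type} (θ : MvPolynomial τ F →ₐ[F] MvPolynomial τ' F) :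
    ∀ (n m : ℕ) (a : Fin n → X → F),
    mapM (SF.map (θ : MvPolynomial τ F →+* MvPolynomial τ' F)) (zz τ p n m a) = zz τ' p n m a
  | 0, _, _ => by
    funext S
    exact map_one (SF.map (θ : MvPolynomial τ F →+* MvPolynomial τ' F))
  | n+1, 0, a => by
    apply ext_fs_sn
    · rw [fs_mapM, zz, fs_pr, zz, fs_pr, mapM_zero]
    · rw [sn_mapM, zz, sn_pr, zz, sn_pr, mapM_zz θ n 0]
  | n+1, m+1, a => by
    apply ext_fs_sn
    · rw [fs_mapM, zz, fs_pr, zz, fs_pr, mapM_smul, map_pow, map_L, mapM_zz θ n m]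
    · rw [sn_mapM, zz, sn_pr, zz, sn_pr, mapM_zero]

theorem zz_zero_apply {p : ℕ} : ∀ (n : ℕ) (a : Fin n → X → F),
    zz τ p n 0 a (fun _ => true) = 1
  | 0, _ => rfl
  | n+1, a => by
    rw [zz, pr, if_pos rfl]
    exact zz_zero_apply n (fun i => a i.succ)

theorem zz_top {p : ℕ} : ∀ (n : ℕ) (a : Fin n → X → F)
    (_ : (∏ i, (L (a i) : SF X (MvPolynomial τ F)) ^ (p - 1)) = 0), zz τ p n n a = 0 := by
  have key : ∀ (n : ℕ) (a : Fin n → X → F) (k : SF X (MvPolynomial τ F))
    (_ : k * (∏ i, (L (a i) : SF X (MvPolynomial τ F)) ^ (p - 1)) = 0), k • zz τ p n n a = 0 := by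
    intro n
    induction n with
    | zero =>
      intro a k hk
      rw [Fin.prod_univ_zero, mul_one] at hk
      rw [hk, zero_smul]
    | succ n ih =>
      intro a k hk
      rw [Fin.prod_univ_succ, ← mul_assoc] at hk
      apply ext_fs_sn
      · rw [fs_smul, zz, fs_pr, smul_smul]
        exact ih (fun i => a i.succ) _ hk
      · rw [sn_smul, zz, sn_pr, smul_zero]; rfl
  intro n a h
  have := key n a 1 (by rw [one_mul]; exact h)
  rwa [one_smul] at this

end zz

variable {X : Type} [DecidableEq X] [Fintype X] {F : Type u} [Field F]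

theorem not_boundary {p : ℕ} [hp : Fact p.Prime] [CharP F p] [IsAlgClosed F] {n : ℕ}
    (a : Fin n → X → F) (hG : Good p a (2 * ((p : ℤ) - 1) * n - p)) :
    ∀ m ≤ n, ∀ u ∈ Gd X F (Fin m) p n ((n:ℤ) - m - 1) (((p:ℤ) - 1) * m - ((n:ℤ) - m)),
      DT p a (stdβ F n m) u ≠ zz (Fin m) p n m a := by
  intro m
  induction m with
  | zero =>
    intro _ u hu hDu
    have hu0 : u = 0 := by
      refine Gd_eq_zero_of_deg ?_ hu
      intro S T b h1 h2 h3
      rw [h3 inferInstance] at h1 h2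
      push_cast at h1 h2
      have : (0:ℤ) ≤ T.card := Int.natCast_nonneg _
      linarith
    rw [hu0, map_zero] at hDu
    have h1 := congrFun hDu.symm (fun _ => true)
    rw [zz_zero_apply] at h1
    have h2 := congrArg (fun f => cf f ∅) h1
    simp [SF.one_apply] at h2
  | succ m ih =>
    intro hm u hu hDu
    obtain ⟨r, hr1, hr2⟩ := exists_std_red (F := F) p m
    have hz := zz_mem (X := X) (F := F) (τ := Fin (m+1)) hp.out.one_le n m a (by omega)
    have hDz : DT p a (stdβ F n (m+1)) (zz (Fin (m+1)) p n m a) = r.y • zz (Fin (m+1)) p n (m+1) a := by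
      refine DT_zz_succ r.y n m a _ ?_ ?_ (by omega)
      · intro i hi
        rw [stdβ, dif_neg (by omega)]
      · intro i hi
        rw [stdβ, dif_pos (by omega), hr1]
        congr 1
        ext; simp [hi]
    have hw : zz (Fin (m+1)) p n m a - r.y • u ∈
        Gd X F (Fin (m+1)) p n ((n:ℤ) - m) (((p:ℤ) - 1) * m - ((n:ℤ) - m)) := by
      refine Submodule.sub_mem _ hz (Gd_congr ?_ ?_ (Gd_smul_y r.y_mem hu))
      · push_cast; ring
      · push_cast; ring
    obtain ⟨v, hv, hDv⟩ := prop_all n (Fin (m+1)) a (stdβ F n (m+1)) stdβ_lin (stdβ_span hm) _ _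
      (by rw [Fintype.card_fin]; push_cast; linarith)
      (by rw [Fintype.card_fin]; refine Good_mono hG (le_of_eq ?_); push_cast; ring) _ hw
      (by rw [map_sub, DT_smul_R, hDu, hDz, sub_self])
    refine ih (by omega) (r.rho v) (r.rho_mem hv) ?_
    have h1 := congrArg r.rho hDv
    rw [r.rho_DT, r.rho_sub, r.rho_smul, sub_zero, hr2] at h1
    rw [h1]
    exact mapM_zz r.π n m a

/-- MAIN THEOREM -/
theorem prod_ne_zero (p : ℕ) [Fact p.Prime] {F : Type u} [Field F] [IsAlgClosed F] [CharP F p]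
    {X : Type} [DecidableEq X] [Fintype X] {n : ℕ} (a : Fin n → X → F)
    (h : Good p a (2 * ((p : ℤ) - 1) * n - p)) :
    (∏ i, (L (a i) : SF X F) ^ (p - 1)) ≠ 0 := by
  intro h0
  have h1 := not_boundary a h n le_rfl 0 (Submodule.zero_mem _)
  apply h1
  rw [map_zero]
  symm
  apply zz_top
  have h2 := congrArg (SF.map (algebraMap F (MvPolynomial (Fin n) F))) h0
  rw [map_zero, map_prod] at h2
  rw [← h2]
  refine Finset.prod_congr rfl fun i _ => ?_
  rw [map_pow]
  congr 1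
  exact (map_L (Algebra.ofId F (MvPolynomial (Fin n) F)) (a i)).symm

end Pool.Agent.H443R2.AB
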