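import Mathlib
import Pool.Agent.H443R2.AB.Main
import Pool.Agent.H443R2.AB.A5

set_option autoImplicit false
set_option linter.unusedSectionVars false

/-!
# Additive basis conjecture: final assembly (task A6)
-/

namespace Pool.Agent.H443R2.AB

open MvPolynomial SF

universe u

theorem a6_card_mem_le {F : Type u} [Field F] {n : ℕ} (v : Fin n → (Fin n → F))
    (hv : LinearIndependent F v) (W : Submodule F (Fin n → F)) [DecidablePred fun i => v i ∈ W] :
    (Finset.univ.filter (fun i : Fin n => v i ∈ W)).card ≤ Module.finrank F W := by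
  have h1 : LinearIndependent F (fun i : {i // v i ∈ W} => (⟨v i.1, i.2⟩ : W)) := by
    apply LinearIndependent.of_comp W.subtype
    exact hv.comp Subtype.val Subtype.val_injective
  have h2 := h1.fintype_card_le_finrank
  rwa [Fintype.card_subtype] at h2

/-- A6a: the union of `2p-2` bases satisfies the hypothesis -/
theorem good_of_bases (p : ℕ) [Fact p.Prime] {F : Type u} [Field F] {n : ℕ}
    (b : Fin (2 * p - 2) → Fin n → (Fin n → F)) (hb : ∀ j, LinearIndependent F (b j)) :
    Good p (X := Fin (2 * p - 2) × Fin n) (fun i x => b x.1 x.2 i) (2 * ((p : ℤ) - 1) * n - p) := by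
  classical
  intro W _
  have hp : 2 ≤ p := (Fact.out : p.Prime).two_le
  have h1 : ((2 * p - 2 : ℕ) : ℤ) * ((n : ℤ) - Module.finrank F W) ≤
      (cnt (X := Fin (2 * p - 2) × Fin n) (fun i x => b x.1 x.2 i) W : ℤ) := by
    unfold cnt
    rw [Finset.card_filter, Fintype.sum_prod_type]
    push_cast
    have h2 : ∀ j : Fin (2 * p - 2), (n : ℤ) - Module.finrank F W ≤
        ∑ i : Fin n, (if (fun k => b j i k) ∉ W then (1 : ℤ) else 0) := by
      intro j
      have h3 := a6_card_mem_le (b j) (hb j) W
      have h4 := Finset.card_filter_add_card_filter_not (s := (Finset.univ : Finset (Fin n)))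
        (fun i : Fin n => b j i ∈ W)
      rw [Finset.card_univ, Fintype.card_fin] at h4
      have h5 : ∑ i : Fin n, (if (fun k => b j i k) ∉ W then (1 : ℤ) else 0) =
          ((Finset.univ.filter (fun i : Fin n => ¬ b j i ∈ W)).card : ℤ) := by
        rw [Finset.card_filter]
        push_cast
        rfl
      rw [h5]
      omega
    calc ((2 * p - 2 : ℕ) : ℤ) * ((n : ℤ) - Module.finrank F W)
        = ∑ _j : Fin (2 * p - 2), ((n : ℤ) - Module.finrank F W) := by
          rw [Finset.sum_const, Finset.card_univ, Fintype.card_fin, nsmul_eq_mul]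
      _ ≤ _ := Finset.sum_le_sum fun j _ => h2 j
  have h3 : ((2 * p - 2 : ℕ) : ℤ) = 2 * ((p : ℤ) - 1) := by
    rw [Nat.cast_sub (by omega)]; push_cast; ring
  rw [h3] at h1
  have hp' : (2 : ℤ) ≤ p := by exact_mod_cast hp
  linarith

theorem a6_map_L {F K : Type u} [Field F] [Field K] [Algebra F K] {X : Type} [DecidableEq X]
    [Fintype X] (a : X → F) :
    SF.map (algebraMap F K) (L a : SF X F) = (L (fun x => algebraMap F K (a x)) : SF X K) := by
  rw [L, L, map_sum]
  refine Finset.sum_congr rfl fun x _ => ?_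
  refine SF.ext fun T => ?_
  rw [SF.map_apply, SF.smul_apply, SF.smul_apply, SF.tt_apply, SF.tt_apply]
  split_ifs <;> simp

theorem a6_linInd_map {F K : Type u} [Field F] [Field K] [Algebra F K] {n : ℕ}
    (v : Fin n → (Fin n → F)) (hv : LinearIndependent F v) :
    LinearIndependent K (fun i => fun k => algebraMap F K (v i k)) := by
  have h1 : LinearIndependent F (Matrix.of v).row := hv
  rw [Matrix.linearIndependent_rows_iff_isUnit] at h1
  have h2 : IsUnit ((Matrix.of v).map (algebraMap F K)) := h1.map ((algebraMap F K).mapMatrix)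
  rw [← Matrix.linearIndependent_rows_iff_isUnit] at h2
  exact h2

/-- A6b: descent to subfields -/
theorem prod_ne_zero_of_bases (p : ℕ) [Fact p.Prime] {F : Type u} [Field F] [CharP F p] {n : ℕ}
    (b : Fin (2 * p - 2) → Fin n → (Fin n → F)) (hb : ∀ j, LinearIndependent F (b j)) :
    (∏ i, (L (fun x : Fin (2 * p - 2) × Fin n => b x.1 x.2 i) : SF (Fin (2 * p - 2) × Fin n) F) ^ (p - 1)) ≠ 0 := by
  intro h0
  let K := AlgebraicClosure F
  have : CharP K p := charP_of_injective_algebraMap (algebraMap F K).injective p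
  have h1 := good_of_bases p (F := K) (fun j i k => algebraMap F K (b j i k))
    (fun j => a6_linInd_map (b j) (hb j))
  have h2 := prod_ne_zero p (X := Fin (2 * p - 2) × Fin n)
    (fun i x => algebraMap F K (b x.1 x.2 i)) h1
  apply h2
  have h3 := congrArg (SF.map (algebraMap F K)) h0
  rw [map_zero, map_prod] at h3
  rw [← h3]
  refine Finset.prod_congr rfl fun i _ => ?_
  rw [map_pow, a6_map_L]

/-- A6c: frozen statement -/
theorem S05273 :
    ∀ p : ℕ, p.Prime → ∃ c : ℕ, ∀ n : ℕ,
      ∀ b : Fin c → Module.Basis (Fin n) (ZMod p) (Fin n → ZMod p),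
      ∀ v : Fin n → ZMod p,
        ∃ S : Finset (Fin c × Fin n), ∑ x ∈ S, b x.1 x.2 = v := by
  intro p hp
  have : Fact p.Prime := ⟨hp⟩
  refine ⟨2 * p - 2, fun n b v => ?_⟩
  have h1 := prod_ne_zero_of_bases p (F := ZMod p) (n := n) (fun j i => b j i)
    (fun j => (b j).linearIndependent)
  obtain ⟨T, hT⟩ : ∃ T, cf (∏ i, (L (fun x : Fin (2 * p - 2) × Fin n => b x.1 x.2 i) :
      SF (Fin (2 * p - 2) × Fin n) (ZMod p)) ^ (p - 1)) T ≠ 0 := by
    by_contra hcon
    push Not at hcon
    exact h1 (SF.ext fun T => by rw [hcon T, SF.zero_apply])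
  obtain ⟨S, _, hS⟩ := subset_sums_of_coeff p
    (fun i (x : Fin (2 * p - 2) × Fin n) => b x.1 x.2 i) T hT v
  refine ⟨S, ?_⟩
  funext i
  rw [Finset.sum_apply]
  exact hS i

end Pool.Agent.H443R2.AB
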