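import Mathlib
import Pool.Agent.H443R2.AB.Ring

set_option autoImplicit false
set_option linter.unusedSectionVars false

namespace Pool.Agent.H443R2.AB

open SF

universe u

theorem a7_prod_tt {R : Type u} [CommRing R] {X κ : Type} [DecidableEq X] [DecidableEq κ]
    (φ : κ → X) (s : Finset κ) (T : Finset X) :
    cf (∏ k ∈ s, (tt (φ k) : SF X R)) T
      = if Set.InjOn φ s ∧ s.image φ = T then 1 else 0 := by
  classical
  induction s using Finset.induction_on generalizing T with
  | empty =>
    rw [Finset.prod_empty, one_apply]
    refine if_congr ?_ rfl rfl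
    simp [eq_comm]
  | insert k s hk ih =>
    rw [Finset.prod_insert hk, tt_mul_apply, ih]
    by_cases h : φ k ∈ T
    · rw [if_pos h]
      refine if_congr ?_ rfl rfl
      constructor
      · rintro ⟨h1, h2⟩
        have hks : φ k ∉ s.image φ := by rw [h2]; simp
        refine ⟨?_, ?_⟩
        · rw [Finset.coe_insert, Set.injOn_insert (by simpa using hk)]
          refine ⟨h1, ?_⟩
          rwa [← Finset.coe_image, Finset.mem_coe]
        · rw [Finset.image_insert, h2, Finset.insert_erase h]
      · rintro ⟨h1, h2⟩
        rw [Finset.coe_insert, Set.injOn_insert (by simpa using hk), ← Finset.coe_image,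
          Finset.mem_coe] at h1
        refine ⟨h1.1, ?_⟩
        rw [← h2, Finset.image_insert, Finset.erase_insert h1.2]
    · rw [if_neg h, if_neg]
      rintro ⟨_, h2⟩
      exact h (h2 ▸ Finset.mem_image_of_mem φ (Finset.mem_insert_self k s))

theorem a7_prod_eq {F : Type u} [Field F] {X : Type} [DecidableEq X] [Fintype X] {n : ℕ} (m : ℕ)
    (a : Fin n → X → F) :
    (∏ i, (L (a i) : SF X F) ^ m) = ∏ r : Fin m × Fin n, (L (a r.2) : SF X F) := by
  rw [Fintype.prod_prod_type]
  simp only
  rw [Finset.prod_const, Finset.prod_pow, Finset.card_univ, Fintype.card_fin]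

theorem a7_cf_prod {F : Type u} [Field F] {X κ : Type} [DecidableEq X] [Fintype X]
    [Fintype κ] [DecidableEq κ] (b : κ → X → F) (f : κ → X) (hf : Function.Injective f) :
    cf (∏ k, (L (b k) : SF X F)) (Finset.univ.image f) =
      Matrix.permanent (Matrix.of fun (r c : κ) => b r (f c)) := by
  classical
  have h1 : (∏ k, (L (b k) : SF X F)) = ∑ φ : κ → X, (∏ k, b k (φ k)) • ∏ k, (tt (φ k) : SF X F) := by
    simp only [L]
    rw [Finset.prod_univ_sum, Fintype.piFinset_univ]
    refine Finset.sum_congr rfl fun φ _ => ?_
    rw [Finset.prod_smul]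
  rw [h1, SF.sum_apply]
  simp only [SF.smul_apply, a7_prod_tt, smul_eq_mul, mul_ite, mul_one, mul_zero]
  rw [← Finset.sum_filter, Matrix.permanent]
  rcases isEmpty_or_nonempty κ with hκ | hκ
  · have e1 : ∀ φ : κ → X, φ = f := fun φ => Subsingleton.elim _ _
    have e2 : (Finset.univ.filter fun φ : κ → X => Set.InjOn φ (Finset.univ : Finset κ) ∧
        Finset.univ.image φ = Finset.univ.image f) = {f} := by
      ext φ
      simp only [Finset.mem_filter, Finset.mem_univ, true_and, Finset.mem_singleton]
      constructor
      · intro _; exact e1 φ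
      · rintro rfl; exact ⟨hf.injOn, rfl⟩
    rw [e2]
    simp
  symm
  refine Finset.sum_nbij' (i := fun σ : Equiv.Perm κ => f ∘ σ.symm)
    (j := fun φ => if h : Function.Bijective (fun k => Function.invFun f (φ k)) then
      (Equiv.ofBijective _ h).symm else 1) ?_ ?_ ?_ ?_ ?_
  · intro σ _
    rw [Finset.mem_filter]
    refine ⟨Finset.mem_univ _, (hf.comp σ.symm.injective).injOn, ?_⟩
    rw [← Finset.image_image]
    congr 1
    exact Finset.image_univ_of_surjective σ.symm.surjective
  · intro φ _
    exact Finset.mem_univ _
  · intro σ _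
    have hinv : ∀ x, Function.invFun f (f x) = x := Function.leftInverse_invFun hf
    have e : (fun k => Function.invFun f ((f ∘ σ.symm) k)) = σ.symm := by
      funext k; simp [hinv]
    have hb : Function.Bijective (fun k => Function.invFun f ((f ∘ σ.symm) k)) := by
      rw [e]; exact σ.symm.bijective
    rw [dif_pos hb]
    ext c
    rw [Equiv.symm_apply_eq]
    change c = Function.invFun f ((f ∘ σ.symm) (σ c))
    simp [hinv]
  · intro φ hφ
    rw [Finset.mem_filter] at hφ
    obtain ⟨_, hinj, himg⟩ := hφ
    have hφinj : Function.Injective φ := fun x y hxy => hinj (by simp) (by simp) hxy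
    have hmem : ∀ k, ∃ c, f c = φ k := by
      intro k
      have : φ k ∈ Finset.univ.image f := by
        rw [← himg]; exact Finset.mem_image_of_mem φ (Finset.mem_univ k)
      obtain ⟨c, _, hc⟩ := Finset.mem_image.1 this
      exact ⟨c, hc⟩
    have hinv : ∀ k, f (Function.invFun f (φ k)) = φ k := fun k => Function.invFun_eq (hmem k)
    have hb : Function.Bijective (fun k => Function.invFun f (φ k)) := by
      rw [← Finite.injective_iff_bijective]
      intro x y hxy
      apply hφinj
      rw [← hinv x, ← hinv y]
      exact congrArg f hxy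
    rw [dif_pos hb]
    funext k
    simp only [Equiv.symm_symm, Function.comp_apply, Equiv.ofBijective_apply]
    exact hinv k
  · intro σ _
    simp only [Matrix.of_apply, Function.comp_apply]
    rw [← Equiv.prod_comp σ (fun k => b k (f (σ.symm k)))]
    simp

/-- A7a: the coefficient is a permanent -/
theorem cf_prod_eq_permanent {F : Type u} [Field F] {X : Type} [DecidableEq X] [Fintype X] {n : ℕ} (m : ℕ)
    (a : Fin n → X → F) (f : Fin m × Fin n → X) (hf : Function.Injective f) :
    cf (∏ i, (L (a i) : SF X F) ^ m) (Finset.univ.image f) =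
      Matrix.permanent (Matrix.of fun (r c : Fin m × Fin n) => a r.2 (f c)) := by
  rw [a7_prod_eq, a7_cf_prod (fun r : Fin m × Fin n => a r.2) f hf]

/-- A7b: the product is supported on sets with `m * n` elements -/
theorem cf_prod_card {F : Type u} [Field F] {X : Type} [DecidableEq X] [Fintype X] {n : ℕ} (m : ℕ)
    (a : Fin n → X → F) (T : Finset X) (hT : cf (∏ i, (L (a i) : SF X F) ^ m) T ≠ 0) :
    T.card = m * n := by
  classical
  have key : ∀ (s : Finset (Fin m × Fin n)) (T : Finset X),
      cf (∏ r ∈ s, (L (a r.2) : SF X F)) T ≠ 0 → T.card = s.card := by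
    intro s
    induction s using Finset.induction_on with
    | empty =>
      intro T hT
      rw [Finset.prod_empty, one_apply] at hT
      by_cases h : T = ∅
      · rw [h]; rfl
      · exact absurd (if_neg h) hT
    | insert r s hr ih =>
      intro T hT
      rw [Finset.prod_insert hr, L_mul_apply] at hT
      obtain ⟨x, hx, hne⟩ := Finset.exists_ne_zero_of_sum_ne_zero hT
      have h1 : cf (∏ r ∈ s, (L (a r.2) : SF X F)) (T.erase x) ≠ 0 := by
        intro h0; rw [h0, smul_zero] at hne; exact hne rfl
      have h2 := ih _ h1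
      rw [Finset.card_insert_of_notMem hr, ← h2, Finset.card_erase_add_one hx]
  rw [a7_prod_eq] at hT
  have := key Finset.univ T hT
  rw [this, Finset.card_univ, Fintype.card_prod, Fintype.card_fin, Fintype.card_fin]

end Pool.Agent.H443R2.AB
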