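import Mathlib
import Pool.Agent.H443R2.AB.Final
import Pool.Agent.H443R2.AB.Perm

set_option autoImplicit false
set_option linter.unusedSectionVars false

/-!
# Alon-Tarsi bases from the main theorem
-/

namespace Pool.Agent.H443R2.AB

open SF

universe u

/-- General form over an arbitrary field of characteristic `p`, in terms of the algebraic closure. -/
theorem at_basis_of_good (p : ℕ) (hp : p.Prime) (F : Type u) [Field F] [CharP F p] (n : ℕ)
    {X : Type} [DecidableEq X] [Fintype X] (a : Fin n → X → F)
    (hG : Good p (fun i x => algebraMap F (AlgebraicClosure F) (a i x)) (2 * ((p : ℤ) - 1) * n - p)) :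
    ∃ f : Fin (p - 1) × Fin n → X, Function.Injective f ∧
      Matrix.permanent (Matrix.of (fun (r c : Fin (p - 1) × Fin n) => a r.2 (f c))) ≠ 0 := by
  classical
  have : Fact p.Prime := ⟨hp⟩
  let K := AlgebraicClosure F
  have : CharP K p := charP_of_injective_algebraMap (algebraMap F K).injective p
  have h2 := prod_ne_zero p (fun i x => algebraMap F K (a i x)) hG
  have hne : (∏ i, (L (a i) : SF X F) ^ (p - 1)) ≠ 0 := by
    intro h0
    apply h2
    have h3 := congrArg (SF.map (algebraMap F K)) h0
    rw [map_zero, map_prod] at h3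
    rw [← h3]
    refine Finset.prod_congr rfl fun i _ => ?_
    rw [map_pow, a6_map_L]
  obtain ⟨T, hT⟩ : ∃ T, cf (∏ i, (L (a i) : SF X F) ^ (p - 1)) T ≠ 0 := by
    by_contra hcon
    push Not at hcon
    exact hne (SF.ext fun T => by rw [SF.zero_apply]; exact hcon T)
  have hcard := cf_prod_card (p - 1) a T hT
  have hc : Fintype.card (Fin (p - 1) × Fin n) = Fintype.card T := by
    rw [Fintype.card_prod, Fintype.card_fin, Fintype.card_fin, Fintype.card_coe, hcard]
  let e : Fin (p - 1) × Fin n ≃ T := Fintype.equivOfCardEq hc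
  have hinj : Function.Injective (fun k => (e k : X)) := Subtype.val_injective.comp e.injective
  refine ⟨fun k => (e k : X), hinj, ?_⟩
  have himg : Finset.univ.image (fun k => (e k : X)) = T := by
    ext x
    simp only [Finset.mem_image, Finset.mem_univ, true_and]
    constructor
    · rintro ⟨k, rfl⟩; exact (e k).2
    · intro hx; exact ⟨e.symm ⟨x, hx⟩, by simp⟩
  have := cf_prod_eq_permanent (p - 1) a (fun k => (e k : X)) hinj
  rw [himg] at this
  rw [this] at hT
  exact hT

/-- `k ≥ 2p-2` bases with the columns of `D` deleted, `|D| ≤ p - 1`. -/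
theorem good_of_bases_sdiff (p : ℕ) [Fact p.Prime] {F : Type u} [Field F] {n : ℕ}
    (b : Fin (2 * p - 2) → Fin n → (Fin n → F)) (hb : ∀ j, LinearIndependent F (b j))
    (D : Finset (Fin (2 * p - 2) × Fin n)) (hD : D.card ≤ p - 1) :
    Good p (X := Fin (2 * p - 2) × Fin n) (fun i x => if x ∈ D then 0 else b x.1 x.2 i)
      (2 * ((p : ℤ) - 1) * n - p) := by
  classical
  intro W hW
  have hp : 2 ≤ p := (Fact.out : p.Prime).two_le
  -- the bound without deletion
  have h1 : ((2 * p - 2 : ℕ) : ℤ) * ((n : ℤ) - Module.finrank F W) ≤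
      (cnt (X := Fin (2 * p - 2) × Fin n) (fun i x => b x.1 x.2 i) W : ℤ) := by
    unfold cnt
    rw [Finset.card_filter, Fintype.sum_prod_type]
    push_cast
    have h2 : ∀ j : Fin (2 * p - 2), (n : ℤ) - Module.finrank F W ≤
        ∑ i : Fin n, (if (fun k => b j i k) ∉ W then (1 : ℤ) else 0) := by
      intro j
      have h3 := a6_card_mem_le (b j) (hb j) W
      have h4 := Finset.card_filter_add_card_filter_not (s := (Finset.univ : Finset (Fin n)))
        (fun i : Fin n => b j i ∈ W)
      rw [Finset.card_univ, Fintype.card_fin] at h4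
      have h5 : ∑ i : Fin n, (if (fun k => b j i k) ∉ W then (1 : ℤ) else 0) =
          ((Finset.univ.filter (fun i : Fin n => ¬ b j i ∈ W)).card : ℤ) := by
        rw [Finset.card_filter]; push_cast; rfl
      rw [h5]
      have h6 : ((Finset.univ.filter (fun i : Fin n => b j i ∈ W)).card : ℤ) +
          ((Finset.univ.filter (fun i : Fin n => ¬ b j i ∈ W)).card : ℤ) = n := by exact_mod_cast h4
      have h7 : ((Finset.univ.filter (fun i : Fin n => b j i ∈ W)).card : ℤ) ≤ Module.finrank F W := by
        exact_mod_cast h3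
      linarith
    calc ((2 * p - 2 : ℕ) : ℤ) * ((n : ℤ) - Module.finrank F W)
        = ∑ _j : Fin (2 * p - 2), ((n : ℤ) - Module.finrank F W) := by
          rw [Finset.sum_const, Finset.card_univ, Fintype.card_fin, nsmul_eq_mul]
      _ ≤ _ := Finset.sum_le_sum fun j _ => h2 j
  have h2 : (cnt (X := Fin (2 * p - 2) × Fin n) (fun i x => b x.1 x.2 i) W : ℤ) ≤
      (cnt (X := Fin (2 * p - 2) × Fin n) (fun i x => if x ∈ D then 0 else b x.1 x.2 i) W : ℤ) + D.card := by
    rw [cnt, cnt]
    rw [← Nat.cast_add, Nat.cast_le]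
    refine (Finset.card_le_card ?_).trans (Finset.card_union_le _ D)
    intro x hx
    simp only [Finset.mem_filter, Finset.mem_univ, true_and, Finset.mem_union] at hx ⊢
    by_cases hxD : x ∈ D
    · exact Or.inr hxD
    · left
      simpa [hxD] using hx
  have h3 : (D.card : ℤ) ≤ p - 1 := by
    have : (D.card : ℤ) ≤ ((p - 1 : ℕ) : ℤ) := by exact_mod_cast hD
    rwa [Nat.cast_sub (by omega), Nat.cast_one] at this
  have h4 : ((2 * p - 2 : ℕ) : ℤ) = 2 * (p : ℤ) - 2 := by
    rw [Nat.cast_sub (by omega)]; push_cast; ring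
  rw [h4] at h1
  nlinarith

end Pool.Agent.H443R2.AB
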