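import Mathlib
import Pool.Agent.H443R2.AB.Val

set_option autoImplicit false
set_option linter.unusedSectionVars false

/-!
# Stubs (blueprint) for the additive basis conjecture, c(p) = 2p - 2.
Do NOT import this file; copy the statement of your task.
-/

namespace Pool.Agent.H443R2.AB

open MvPolynomial SF

universe u

/- ===================== TASK A1 (generic direction; linear algebra) =====================
imports: Mathlib, Pool.Agent.H443R2.AB.Val -/
section A1
variable {X : Type} [DecidableEq X] [Fintype X] {F : Type u} [Field F]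

theorem exists_generic [Infinite F] (p : ℕ) [Fact p.Prime] [CharP F p] {τ : Type} {n : ℕ}
    (a : Fin (n+1) → X → F) (β : Fin (n+1) → MvPolynomial τ F) (hβ : β ≠ 0) :
    ∃ c : Fin n → F, β 0 - ∑ i, (c i) ^ p • β i.succ ≠ 0 ∧
      ∀ e : ℤ, Good p a e → Good p (fun i : Fin n => a i.succ + c i • a 0) e := by
  sorry
end A1

/- ===================== TASK A2 (reduction modulo a linear form) =====================
imports: Mathlib, Pool.Agent.H443R2.AB.Val -/
section A2
variable {F : Type u} [Field F]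

theorem exists_red (p : ℕ) {τ τ' : Type} (f : τ' → τ) (hf : Function.Injective f) (j : τ)
    (hj : j ∉ Set.range f) (hj' : ∀ i, i = j ∨ i ∈ Set.range f)
    (y : MvPolynomial τ F) (hy : y ∈ HR F τ p 2 (-p)) (hc : coeff (Finsupp.single j 1) y ≠ 0) :
    ∃ r : Red F p τ τ', r.y = y ∧ (∀ i, r.π (X (f i)) = X i) ∧ (∀ i, r.ι (X i) = X (f i)) := by
  sorry
end A2

/- ===================== TASK A3 (finite dimensionality) =====================
imports: Mathlib, Pool.Agent.H443R2.AB.Deg -/
section A3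
variable {X : Type} [DecidableEq X] [Fintype X] {F : Type u} [Field F]

theorem Gd_finite {τ : Type} [Finite τ] (p n : ℕ) (σ t : ℤ) :
    Module.Finite F (Gd X F τ p n σ t) := by
  sorry
end A3

/- ===================== TASK A4 (filtration lemma; abstract algebra) =====================
imports: Mathlib only -/
section A4

/-- If `D₀` (homogeneous of degree `d` for the grading given by the projections `P w`) is exact,
then so is `D₀ + N` where `N` is homogeneous of a strictly bigger degree `d + k`. -/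
theorem filtration_exact {V : Type u} [AddCommGroup V] (P : ℤ → V →+ V)
    (hPP : ∀ w w' z, P w (P w' z) = if w = w' then P w' z else 0)
    (lo hi : ℤ) (hfin : ∀ z, z = ∑ w ∈ Finset.Icc lo hi, P w z)
    (D₀ N : V →+ V) (d k : ℤ) (hk : 0 < k)
    (hD : ∀ w z, P (w + d) (D₀ z) = D₀ (P w z)) (hN : ∀ w z, P (w + d + k) (N z) = N (P w z))
    (G G' : AddSubgroup V) (hG : ∀ w, ∀ z ∈ G, P w z ∈ G) (hG' : ∀ w, ∀ z ∈ G', P w z ∈ G')
    (hDG : ∀ u ∈ G', D₀ u + N u ∈ G) (hDD : ∀ u, D₀ (D₀ u + N u) + N (D₀ u + N u) = 0)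
    (hex : ∀ z ∈ G, D₀ z = 0 → ∃ u ∈ G', D₀ u = z) :
    ∀ z ∈ G, D₀ z + N z = 0 → ∃ u ∈ G', D₀ u + N u = z := by
  sorry
end A4

/- ===================== TASK A5 (Combinatorial Nullstellensatz) =====================
imports: Mathlib, Pool.Agent.H443R2.AB.Ring -/
section A5

theorem subset_sums_of_coeff (p : ℕ) [Fact p.Prime] {X : Type} [DecidableEq X] [Fintype X] {n : ℕ}
    (a : Fin n → X → ZMod p) (T : Finset X)
    (hT : cf (∏ i, (L (a i) : SF X (ZMod p)) ^ (p - 1)) T ≠ 0) (v : Fin n → ZMod p) :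
    ∃ S ⊆ T, ∀ i, ∑ x ∈ S, a i x = v i := by
  sorry
end A5

/- ===================== TASK A6 (final assembly of S05273) =====================
imports: Mathlib, Pool.Agent.H443R2.AB.Val, Pool.Statements.S05273 ; uses A5 and the main theorem -/
section A6

/-- MAIN THEOREM (proved elsewhere) -/
theorem prod_ne_zero (p : ℕ) [Fact p.Prime] {F : Type u} [Field F] [IsAlgClosed F] [CharP F p]
    {X : Type} [DecidableEq X] [Fintype X] {n : ℕ} (a : Fin n → X → F)
    (h : Good p a (2 * ((p : ℤ) - 1) * n - p)) :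
    (∏ i, (L (a i) : SF X F) ^ (p - 1)) ≠ 0 := by
  sorry

/-- A6a: the union of `2p-2` bases satisfies the hypothesis -/
theorem good_of_bases (p : ℕ) [Fact p.Prime] {F : Type u} [Field F] {n : ℕ}
    (b : Fin (2 * p - 2) → Fin n → (Fin n → F)) (hb : ∀ j, LinearIndependent F (b j)) :
    Good p (X := Fin (2 * p - 2) × Fin n) (fun i x => b x.1 x.2 i) (2 * ((p : ℤ) - 1) * n - p) := by
  sorry

/-- A6b: descent to subfields -/
theorem prod_ne_zero_of_bases (p : ℕ) [Fact p.Prime] {F : Type u} [Field F] [CharP F p] {n : ℕ}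
    (b : Fin (2 * p - 2) → Fin n → (Fin n → F)) (hb : ∀ j, LinearIndependent F (b j)) :
    (∏ i, (L (fun x : Fin (2 * p - 2) × Fin n => b x.1 x.2 i) : SF (Fin (2 * p - 2) × Fin n) F) ^ (p - 1)) ≠ 0 := by
  sorry

/-- A6c: frozen statement -/
theorem S05273 :
    ∀ p : ℕ, p.Prime → ∃ c : ℕ, ∀ n : ℕ,
      ∀ b : Fin c → Module.Basis (Fin n) (ZMod p) (Fin n → ZMod p),
      ∀ v : Fin n → ZMod p,
        ∃ S : Finset (Fin c × Fin n), ∑ x ∈ S, b x.1 x.2 = v := by
  sorry
end A6

/- ===================== TASK A7 (Alon-Tarsi bases) =====================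
imports: Mathlib, Pool.Agent.H443R2.AB.Ring ; uses A6b -/
section A7

/-- A7a: the coefficient is a permanent -/
theorem cf_prod_eq_permanent {F : Type u} [Field F] {X : Type} [DecidableEq X] [Fintype X] {n : ℕ} (m : ℕ)
    (a : Fin n → X → F) (f : Fin m × Fin n → X) (hf : Function.Injective f) :
    cf (∏ i, (L (a i) : SF X F) ^ m) (Finset.univ.image f) =
      Matrix.permanent (Matrix.of fun (r c : Fin m × Fin n) => a r.2 (f c)) := by
  sorry

/-- A7b: the product is supported on sets with `m * n` elements -/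
theorem cf_prod_card {F : Type u} [Field F] {X : Type} [DecidableEq X] [Fintype X] {n : ℕ} (m : ℕ)
    (a : Fin n → X → F) (T : Finset X) (hT : cf (∏ i, (L (a i) : SF X F) ^ m) T ≠ 0) :
    T.card = m * n := by
  sorry

/-- A7c: result for MP_4e0dfc_co: `2p-2` invertible matrices over any field of characteristic `p`
contain an Alon-Tarsi basis -/
theorem at_basis (p : ℕ) (hp : p.Prime) (F : Type u) [Field F] [CharP F p] (n : ℕ)
    (B : Fin (2 * p - 2) → Matrix (Fin n) (Fin n) F) (hB : ∀ j, (B j).det ≠ 0) :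
    ∃ f : Fin (p - 1) × Fin n → Fin (2 * p - 2) × Fin n, Function.Injective f ∧
      Matrix.permanent
        (Matrix.of (fun (r c : Fin (p - 1) × Fin n) => B (f c).1 r.2 (f c).2)) ≠ 0 := by
  sorry
end A7

/- ===================== TASK A8 (coefficient extraction, β = 0) =====================
imports: Mathlib, Pool.Agent.H443R2.AB.Deg -/
section A8
variable {X : Type} [DecidableEq X] [Fintype X] {F : Type u} [Field F]

/-- If the Koszul complex over `F` (no variables) is exact in the degrees `(σ - 2b, t + p b)` for all `b`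
then the Koszul complex over `F[τ]` (with `β = 0`) is exact in degree `(σ, t)`. -/
theorem Ex_zero_of_Ex {τ : Type} [Finite τ] (p : ℕ) [Fact p.Prime] {n : ℕ} (a : Fin n → X → F) (σ t : ℤ)
    (h : ∀ b : ℕ, Ex (τ := Empty) p a 0 (σ - 2 * b) (t + p * b)) :
    Ex (τ := τ) p a 0 σ t := by
  sorry
end A8

/- ===================== TASK A9 (the complexes T_k; induction over columns) =====================
imports: Mathlib, Pool.Agent.H443R2.AB.Deg -/
section A9
variable {X : Type} [DecidableEq X] [Fintype X] {F : Type u} [Field F]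

/-- Exactness of `T_k(α)`: pairs `(x, z)` with `D(x,z) = (d x + y L_α^(p-k) z, L_α^k x - d z)`, `d = wedge n (aK τ r)`. -/
def ExT (p : ℕ) {τ : Type} {n : ℕ} (r : Fin n → X → F) (α : X → F) (y : MvPolynomial τ F) (k : ℕ)
    (σ t : ℤ) : Prop :=
  ∀ x ∈ Gd X F τ p n σ t, ∀ z ∈ Gd X F τ p n (σ - 1) (t + k),
    wedge n (aK τ r) x + (y • (L α : SF X (MvPolynomial τ F)) ^ (p - k)) • z = 0 →
    (L α : SF X (MvPolynomial τ F)) ^ k • x - wedge n (aK τ r) z = 0 →
    ∃ x' ∈ Gd X F τ p n (σ - 1) t, ∃ z' ∈ Gd X F τ p n (σ - 2) (t + k),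
      wedge n (aK τ r) x' + (y • (L α : SF X (MvPolynomial τ F)) ^ (p - k)) • z' = x ∧
      (L α : SF X (MvPolynomial τ F)) ^ k • x' - wedge n (aK τ r) z' = z

open Classical in
theorem ExT_of (p : ℕ) [Fact p.Prime] [CharP F p] {τ : Type} {n : ℕ} (r : Fin n → X → F)
    (y : MvPolynomial τ F) (hy0 : y ≠ 0) (hy : y ∈ HR F τ p 2 (-p))
    (hdiv : ∀ (σ s : ℤ) (g : MvPolynomial τ F), 0 < σ → g ∈ HR F τ p σ s →
      ∃ g' ∈ HR F τ p (σ - 2) (s + p), g = y * g')
    (θ : ℤ) (hK : ∀ σ t : ℤ, 2 * t + p * σ < θ → Ex (τ := τ) p r 0 σ t)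
    (α : X → F) (hα : ∀ x, α x ≠ 0 → ∀ i, r i x = 0) (k : ℕ) (hk1 : 1 ≤ k) (hk2 : k ≤ p - 1)
    (σ t : ℤ) (hσ : (n : ℤ) < σ)
    (hE : 2 * t + p * σ < θ + ((Finset.univ.filter (fun x => α x ≠ 0)).card : ℤ) - ((k : ℤ) - 1)) :
    ExT p r α y k σ t := by
  sorry
end A9

end Pool.Agent.H443R2.AB
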